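import Mathlib

/-!
Definitions for the block theorem (MP_7ab245_nt). Polynomials in two variables `x`, `y` are
elements of `R[X][X]`: the inner variable is `x`, the outer variable is `y`. The substitution
`y = x ^ m` is `F.eval (X ^ m)`.
-/

set_option autoImplicit false

open Polynomial

namespace Pool.Agent.Lib.MP_7ab245_nt.Blk

/-- the slice `G(z, y)` of `G(x, y)` -/
noncomputable def sl (G : ℂ[X][X]) (z : ℂ) : ℂ[X] := G.map (evalRingHom z)

/-- an integer polynomial in two variables, regarded over `ℂ` -/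
noncomputable def tC (F : ℤ[X][X]) : ℂ[X][X] := F.map (mapRingHom (Int.castRingHom ℂ))

/-- logarithmic Mahler measure in two variables -/
noncomputable def mm (G : ℂ[X][X]) : ℝ :=
  Real.circleAverage (fun z => (sl G z).logMahlerMeasure) 0 1

/-- degree in the inner variable `x` -/
noncomputable def dx {R : Type} [Semiring R] (F : R[X][X]) : ℕ :=
  F.support.sup fun j => (F.coeff j).natDegree

/-- logarithmic Mahler measure of an integer polynomial -/
noncomputable def lM (f : ℤ[X]) : ℝ := (f.map (Int.castRingHom ℂ)).logMahlerMeasure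

/-- `F(x^p, y^p)` -/
noncomputable def frob (p : ℕ) (F : ℤ[X][X]) : ℤ[X][X] :=
  expand ℤ[X] p (F.map ((expand ℤ p : ℤ[X] →ₐ[ℤ] ℤ[X]) : ℤ[X] →+* ℤ[X]))

end Pool.Agent.Lib.MP_7ab245_nt.Blk
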