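import Mathlib
import Pool.Agent.Lib.MP_7ab245_nt.Blk.Defs

set_option autoImplicit false

open Polynomial Real

namespace Pool.Agent.Lib.MP_7ab245_nt.Blk

lemma lM_eq_log (f : ℤ[X]) : lM f = Real.log (f.map (Int.castRingHom ℂ)).mahlerMeasure :=
  logMahlerMeasure_eq_log_MahlerMeasure

lemma map_ne_zero_of_ne {f : ℤ[X]} (hf : f ≠ 0) : f.map (Int.castRingHom ℂ) ≠ 0 := by
  rwa [Ne, Polynomial.map_eq_zero_iff (Int.castRingHom ℂ).injective_int]

lemma lM_nonneg (f : ℤ[X]) : 0 ≤ lM f := by
  by_cases hf : f = 0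
  · rw [lM, hf, Polynomial.map_zero, logMahlerMeasure_zero]
  · rw [lM_eq_log]
    exact Real.log_nonneg (one_le_mahlerMeasure_of_ne_zero hf)

lemma lM_mul {f g : ℤ[X]} (hf : f ≠ 0) (hg : g ≠ 0) : lM (f * g) = lM f + lM g := by
  rw [lM, Polynomial.map_mul, logMahlerMeasure_mul_eq_add_logMahlerMeasure]
  · rfl
  · exact mul_ne_zero (map_ne_zero_of_ne hf) (map_ne_zero_of_ne hg)

lemma lM_one : lM 1 = 0 := by
  rw [lM, Polynomial.map_one, logMahlerMeasure_one]

lemma lM_le_of_dvd {f g : ℤ[X]} (hg : g ≠ 0) (h : f ∣ g) : lM f ≤ lM g := by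
  obtain ⟨c, rfl⟩ := h
  have hf : f ≠ 0 := left_ne_zero_of_mul hg
  have hc : c ≠ 0 := right_ne_zero_of_mul hg
  rw [lM_mul hf hc]
  linarith [lM_nonneg c]

lemma lM_prod (s : Finset ℤ[X]) (hs : ∀ p ∈ s, p ≠ 0) : lM (∏ p ∈ s, p) = ∑ p ∈ s, lM p := by
  classical
  induction s using Finset.induction_on with
  | empty => simp [lM_one]
  | insert a s ha ih =>
    rw [Finset.prod_insert ha, Finset.sum_insert ha, lM_mul, ih]
    · exact fun p hp => hs p (Finset.mem_insert_of_mem hp)
    · exact hs a (Finset.mem_insert_self _ _)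
    · exact Finset.prod_ne_zero_iff.mpr fun p hp => hs p (Finset.mem_insert_of_mem hp)

/-- nonvanishing of the resultant, `p` not necessarily monic -/
lemma resultant_ne_zero_irr (p ψ : ℤ[X]) (hp : Irreducible p) (hdeg : 0 < p.natDegree)
    (hnd : ¬ p ∣ ψ) (E : ℕ) (hE : ψ.natDegree ≤ E) : resultant p ψ p.natDegree E ≠ 0 := by
  obtain ⟨k, rfl⟩ := Nat.exists_eq_add_of_le hE
  rw [resultant_add_right_deg _ _ _ _ _ le_rfl]
  have hp0 : p ≠ 0 := hp.ne_zero
  have h1 : p.coeff p.natDegree ≠ 0 := by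
    rw [coeff_natDegree]; exact leadingCoeff_ne_zero.mpr hp0
  refine mul_ne_zero (pow_ne_zero _ h1) ?_
  set θ := algebraMap ℤ ℚ
  have hinj : Function.Injective θ := (algebraMap ℤ ℚ).injective_int
  have hprim : p.IsPrimitive := hp.isPrimitive (by omega)
  have hirrQ : Irreducible (p.map θ) :=
    (hprim.irreducible_iff_irreducible_map_fraction_map (K := ℚ)).mp hp
  have hψ0 : ψ ≠ 0 := by
    rintro rfl; exact hnd (dvd_zero p)
  have hnd' : ¬ (p.map θ) ∣ (ψ.map θ) := by
    intro hd
    apply hnd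
    have h2 : ψ = C ψ.content * ψ.primPart := ψ.eq_C_content_mul_primPart
    have hc0 : ψ.content ≠ 0 := by rwa [Ne, content_eq_zero_iff]
    have h3 : (p.map θ) ∣ (ψ.primPart.map θ) := by
      rw [h2, Polynomial.map_mul, Polynomial.map_C] at hd
      have h4 : IsUnit (C (θ ψ.content) : ℚ[X]) := by
        rw [isUnit_C]
        exact (isUnit_iff_ne_zero.mpr (by
          intro h5; exact hc0 (hinj (by rw [h5, map_zero]))))
      exact (IsUnit.dvd_mul_left h4).mp hd
    have h5 : p ∣ ψ.primPart :=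
      (IsPrimitive.dvd_iff_fraction_map_dvd_fraction_map (K := ℚ) hprim).mpr h3
    rw [h2]
    exact h5.mul_left _
  have hcop : IsCoprime (p.map θ) (ψ.map θ) := (hirrQ.coprime_iff_not_dvd).mpr hnd'
  have h2 := resultant_ne_zero _ _ hcop
  intro h0
  apply h2
  rw [natDegree_map_eq_of_injective hinj, natDegree_map_eq_of_injective hinj,
    resultant_map_map, h0, map_zero]

/-- the norm inequality for one irreducible factor -/
theorem prime_eval_bound (p ψ : ℤ[X]) (hp : Irreducible p) (hnd : ¬ p ∣ ψ) (E : ℕ)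
    (hE : ψ.natDegree ≤ E) (c : ℝ) (hc : 0 < c)
    (hval : ∀ α : ℂ, aeval α p = 0 → ‖aeval α ψ‖ ≤ c * (max 1 ‖α‖) ^ E) :
    -(p.natDegree * Real.log c) ≤ E * lM p := by
  rcases Nat.eq_zero_or_pos p.natDegree with h0 | hpos
  · rw [h0]
    have := lM_nonneg p
    simp only [CharP.cast_eq_zero, zero_mul, neg_zero]
    positivity
  set φ := Int.castRingHom ℂ with hφ
  have hinj : Function.Injective φ := φ.injective_int
  have hdeg : (p.map φ).natDegree = p.natDegree := natDegree_map_eq_of_injective hinj p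
  have hFdeg : (ψ.map φ).natDegree ≤ E := by rwa [natDegree_map_eq_of_injective hinj]
  have hs : (p.map φ).Splits := IsAlgClosed.splits _
  have key := resultant_eq_prod_eval (p.map φ) (ψ.map φ) E hFdeg hs
  rw [hdeg, resultant_map_map] at key
  have hne := resultant_ne_zero_irr p ψ hp hpos hnd E hE
  have h1 : (1 : ℝ) ≤ ‖φ (resultant p ψ p.natDegree E)‖ := by
    have : (1 : ℤ) ≤ |resultant p ψ p.natDegree E| := Int.one_le_abs hne
    have h2 : ‖φ (resultant p ψ p.natDegree E)‖ = |((resultant p ψ p.natDegree E : ℤ) : ℝ)| := by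
      simp [hφ]
    rw [h2]
    exact_mod_cast this
  rw [key, norm_mul, norm_pow] at h1
  have hcard : (p.map φ).roots.card = p.natDegree := by
    rw [← hdeg]; exact (splits_iff_card_roots.mp hs)
  have hp0 : p.map φ ≠ 0 := map_ne_zero_of_ne hp.ne_zero
  have h2 : ‖(Multiset.map (fun x => eval x (ψ.map φ)) (p.map φ).roots).prod‖ ≤
      c ^ p.natDegree * ((p.map φ).roots.map (fun a => max 1 ‖a‖)).prod ^ E := by
    rw [← hcard]
    have hroots : ∀ x ∈ (p.map φ).roots, ‖eval x (ψ.map φ)‖ ≤ c * (max 1 ‖x‖) ^ E := by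
      intro x hx
      rw [mem_roots hp0, IsRoot.def, eval_map] at hx
      have h3 := hval x (by rw [aeval_def]; exact hx)
      rw [eval_map]
      exact h3
    revert hroots
    generalize (p.map φ).roots = s
    intro hroots
    induction s using Multiset.induction_on with
    | empty => simp
    | cons a s ih =>
      rw [Multiset.map_cons, Multiset.prod_cons, norm_mul, Multiset.card_cons,
        Multiset.map_cons, Multiset.prod_cons, mul_pow, pow_succ']
      have h3 := hroots a (Multiset.mem_cons_self a s)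
      have ih' := ih (fun x hx => hroots x (Multiset.mem_cons_of_mem hx))
      calc ‖eval a (ψ.map φ)‖ * ‖(Multiset.map (fun x => eval x (ψ.map φ)) s).prod‖
          ≤ (c * (max 1 ‖a‖) ^ E) *
            (c ^ s.card * ((s.map (fun a => max 1 ‖a‖)).prod ^ E)) := by
            apply mul_le_mul h3 ih' (norm_nonneg _)
            positivity
        _ = _ := by ring
  have h4 : (p.map φ).mahlerMeasure =
      ‖(p.map φ).leadingCoeff‖ * ((p.map φ).roots.map (fun a => max 1 ‖a‖)).prod :=
    mahlerMeasure_eq_leadingCoeff_mul_prod_roots _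
  have h5 : (1 : ℝ) ≤ c ^ p.natDegree * (p.map φ).mahlerMeasure ^ E := by
    rw [h4, mul_pow]
    calc (1 : ℝ) ≤ _ := h1
      _ ≤ ‖(p.map φ).leadingCoeff‖ ^ E *
          (c ^ p.natDegree * ((p.map φ).roots.map (fun a => max 1 ‖a‖)).prod ^ E) := by
        gcongr
      _ = _ := by ring
  have hMpos : 0 < (p.map φ).mahlerMeasure := mahlerMeasure_pos_of_ne_zero hp0
  have h6 := Real.log_nonneg h5
  rw [Real.log_mul (by positivity) (by positivity), Real.log_pow, Real.log_pow] at h6
  rw [lM_eq_log]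
  linarith

/-- the factors of `φ` which do not divide `ψ` -/
theorem good_factors (φ ψ R1 R2 : ℤ[X]) (hφ : φ ≠ 0) (hR1 : R1 ≠ 0) (hR2 : R2 ≠ 0)
    (h1 : ∀ g, g ∣ φ → g ∣ ψ → g ∣ R1) (h2 : ∀ g, g ∣ φ → g ∣ derivative φ → g ∣ R2) :
    ∃ s : Finset ℤ[X], (∀ p ∈ s, Irreducible p ∧ ¬ p ∣ ψ ∧ p ∣ φ) ∧
      φ.natDegree ≤ R1.natDegree + R2.natDegree + ∑ p ∈ s, p.natDegree ∧
      ∑ p ∈ s, lM p ≤ lM φ := by
  classical
  set F0 := UniqueFactorizationMonoid.normalizedFactors φ with hF0
  set P := F0.toFinset with hP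
  have hprime : ∀ p ∈ P, Irreducible p := fun p hp =>
    UniqueFactorizationMonoid.irreducible_of_normalized_factor p (Multiset.mem_toFinset.mp hp)
  have hdvd : ∀ p ∈ P, p ∣ φ := fun p hp =>
    UniqueFactorizationMonoid.dvd_of_mem_normalizedFactors (Multiset.mem_toFinset.mp hp)
  have hprod : Associated (∏ p ∈ P, p ^ F0.count p) φ := by
    rw [hP, ← Finset.prod_multiset_count]
    exact UniqueFactorizationMonoid.prod_normalizedFactors hφ
  have hcount : ∀ p ∈ P, 1 ≤ F0.count p := fun p hp =>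
    Multiset.one_le_count_iff_mem.mpr (Multiset.mem_toFinset.mp hp)
  -- different elements of P are relatively prime
  have hrel : ∀ p ∈ P, ∀ q ∈ P, p ≠ q → IsRelPrime p q := by
    intro p hp q hq hpq
    rw [(hprime p hp).isRelPrime_iff_not_dvd]
    intro hd
    have hass : Associated p q := (hprime p hp).associated_of_dvd (hprime q hq) hd
    exact hpq (UniqueFactorizationMonoid.normalizedFactors_eq_of_dvd φ p
      (Multiset.mem_toFinset.mp hp) q (Multiset.mem_toFinset.mp hq) hd)
  set rad := ∏ p ∈ P, p with hrad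
  set cof := ∏ p ∈ P, p ^ (F0.count p - 1) with hcof
  have hrc : rad * cof = ∏ p ∈ P, p ^ F0.count p := by
    rw [hrad, hcof, ← Finset.prod_mul_distrib]
    refine Finset.prod_congr rfl fun p hp => ?_
    rw [← pow_succ', Nat.sub_add_cancel (hcount p hp)]
  have hrc' : Associated (rad * cof) φ := hrc ▸ hprod
  have hne : rad * cof ≠ 0 := hrc'.symm.ne_zero_iff.mp hφ
  have hrad0 : rad ≠ 0 := left_ne_zero_of_mul hne
  have hcof0 : cof ≠ 0 := right_ne_zero_of_mul hne
  have hcofφ : cof ∣ φ := (Dvd.intro_left rad rfl).trans hrc'.dvd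
  have hradφ : rad ∣ φ := (Dvd.intro cof rfl).trans hrc'.dvd
  have hcofd : cof ∣ derivative φ := by
    apply Finset.prod_dvd_of_isRelPrime
    · intro p hp q hq hpq
      exact (hrel p hp q hq hpq).pow
    · intro p hp
      have h3 : p ^ F0.count p ∣ φ :=
        (Finset.dvd_prod_of_mem (fun p => p ^ F0.count p) hp).trans hprod.dvd
      obtain ⟨c, hc⟩ := h3
      obtain ⟨e, he⟩ : ∃ e, F0.count p = e + 1 := ⟨_, (Nat.sub_add_cancel (hcount p hp)).symm⟩
      rw [he, Nat.add_sub_cancel]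
      rw [he] at hc
      rw [hc, derivative_mul, derivative_pow_succ]
      refine dvd_add ?_ ?_
      · have : (C ((e : ℤ) + 1) * p ^ e * derivative p) * c =
            p ^ e * (C ((e : ℤ) + 1) * derivative p * c) := by ring
        rw [this]; exact dvd_mul_right _ _
      · rw [pow_succ]
        exact Dvd.intro (p * derivative c) (by ring)
  have hcofR : cof.natDegree ≤ R2.natDegree := natDegree_le_of_dvd (h2 cof hcofφ hcofd) hR2
  set bad := P.filter fun p => p ∣ ψ with hbad
  set good := P.filter fun p => ¬ p ∣ ψ with hgood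
  have hbg : (∏ p ∈ bad, p) * ∏ p ∈ good, p = rad := by
    rw [hrad, hbad, hgood, Finset.prod_filter_mul_prod_filter_not]
  have hbad0 : (∏ p ∈ bad, p) ≠ 0 := left_ne_zero_of_mul (hbg ▸ hrad0)
  have hgood0 : (∏ p ∈ good, p) ≠ 0 := right_ne_zero_of_mul (hbg ▸ hrad0)
  have hbadR : (∏ p ∈ bad, p).natDegree ≤ R1.natDegree := by
    refine natDegree_le_of_dvd ?_ hR1
    apply Finset.prod_dvd_of_isRelPrime
    · intro p hp q hq hpq
      exact hrel p (Finset.mem_filter.mp hp).1 q (Finset.mem_filter.mp hq).1 hpq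
    · intro p hp
      have := Finset.mem_filter.mp hp
      exact h1 p (hdvd p this.1) this.2
  have hdeg : φ.natDegree = (∏ p ∈ bad, p).natDegree + (∏ p ∈ good, p).natDegree + cof.natDegree := by
    have h3 : φ.natDegree = (rad * cof).natDegree :=
      le_antisymm (natDegree_le_of_dvd hrc'.symm.dvd hne) (natDegree_le_of_dvd hrc'.dvd hφ)
    rw [h3, natDegree_mul hrad0 hcof0, ← hbg, natDegree_mul hbad0 hgood0]
  have hgdeg : (∏ p ∈ good, p).natDegree = ∑ p ∈ good, p.natDegree := by
    apply natDegree_prod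
    intro p hp
    exact (hprime p (Finset.mem_filter.mp hp).1).ne_zero
  refine ⟨good, ?_, ?_, ?_⟩
  · intro p hp
    have := Finset.mem_filter.mp hp
    exact ⟨hprime p this.1, this.2, hdvd p this.1⟩
  · rw [← hgdeg]
    omega
  · rw [← lM_prod good fun p hp => (hprime p (Finset.mem_filter.mp hp).1).ne_zero]
    refine lM_le_of_dvd hφ (dvd_trans ?_ hradφ)
    rw [← hbg]
    exact dvd_mul_left _ _

end Pool.Agent.Lib.MP_7ab245_nt.Blk
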