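import Mathlib
import Pool.Agent.Lib.MP_7ab245_nt.Blk.Defs

/-!
The degree in `x` of a polynomial in `R[X][X]`, and the substitution `y = x ^ m`.
-/

set_option autoImplicit false

open Polynomial

namespace Pool.Agent.Lib.MP_7ab245_nt.Blk

theorem natDegree_coeff_le_dx {R : Type} [Semiring R] (F : R[X][X]) (j : ℕ) :
    (F.coeff j).natDegree ≤ dx F := by
  by_cases hj : j ∈ F.support
  · exact Finset.le_sup (f := fun j => (F.coeff j).natDegree) hj
  · rw [Polynomial.notMem_support_iff.mp hj]
    simp

theorem dx_le_iff {R : Type} [Semiring R] (F : R[X][X]) (n : ℕ) :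
    dx F ≤ n ↔ ∀ j, (F.coeff j).natDegree ≤ n := by
  constructor
  · intro h j
    exact (natDegree_coeff_le_dx F j).trans h
  · intro h
    exact Finset.sup_le fun j _ => h j

theorem xdeg_coeff_swap {R : Type} [CommRing R] (F : R[X][X]) (i j : ℕ) :
    ((Bivariate.swap F).coeff i).coeff j = (F.coeff j).coeff i := by
  induction F using Polynomial.induction_on' with
  | add p q hp hq => simp only [map_add, coeff_add, hp, hq]
  | monomial n f =>
    induction f using Polynomial.induction_on' with
    | add p q hp hq =>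
      rw [map_add, map_add]
      simp only [coeff_add, hp, hq]
    | monomial m r =>
      rw [Bivariate.swap_monomial_monomial]
      simp only [coeff_monomial]
      split_ifs <;> simp_all [coeff_monomial]

theorem xdeg_dx_eq {R : Type} [CommRing R] (F : R[X][X]) :
    dx F = (Bivariate.swap F).natDegree := by
  apply le_antisymm
  · rw [dx_le_iff]
    intro j
    rw [natDegree_le_iff_coeff_eq_zero]
    intro N hN
    rw [← xdeg_coeff_swap, coeff_eq_zero_of_natDegree_lt hN, coeff_zero]
  · rw [natDegree_le_iff_coeff_eq_zero]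
    intro N hN
    ext j
    rw [xdeg_coeff_swap, coeff_zero]
    exact coeff_eq_zero_of_natDegree_lt (lt_of_le_of_lt (natDegree_coeff_le_dx F j) hN)

theorem dx_mul {R : Type} [CommRing R] [IsDomain R] (F G : R[X][X]) (hF : F ≠ 0) (hG : G ≠ 0) :
    dx (F * G) = dx F + dx G := by
  rw [xdeg_dx_eq, xdeg_dx_eq, xdeg_dx_eq, map_mul, natDegree_mul]
  · intro h
    exact hF ((EmbeddingLike.map_eq_zero_iff (f := Bivariate.swap (R := R))).mp h)
  · intro h
    exact hG ((EmbeddingLike.map_eq_zero_iff (f := Bivariate.swap (R := R))).mp h)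

theorem xdeg_eval_eq (F : ℤ[X][X]) (m : ℕ) :
    F.eval (X ^ m) = ∑ b ∈ F.support, F.coeff b * X ^ (m * b) := by
  rw [eval_eq_sum, sum_def]
  refine Finset.sum_congr rfl fun b _ => ?_
  rw [← pow_mul]

theorem coeff_eval (F : ℤ[X][X]) (m : ℕ) (hm : dx F < m) (a b : ℕ) (ha : a < m) :
    (F.eval (X ^ m)).coeff (a + m * b) = (F.coeff b).coeff a := by
  rw [xdeg_eval_eq, finsetSum_coeff]
  have key : ∀ c, (F.coeff c * X ^ (m * c)).coeff (a + m * b) =
      if c = b then (F.coeff b).coeff a else 0 := by
    intro c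
    rw [coeff_mul_X_pow']
    rcases lt_trichotomy c b with h | h | h
    · have h1 : m * c + m ≤ m * b := by
        have := Nat.mul_le_mul_left m h
        rw [Nat.succ_eq_add_one, mul_add, mul_one] at this
        exact this
      rw [if_pos (by omega), if_neg (by omega)]
      apply coeff_eq_zero_of_natDegree_lt
      have := natDegree_coeff_le_dx F c
      omega
    · subst h
      rw [if_pos (by omega), if_pos rfl]
      congr 1
      omega
    · have h1 : m * b + m ≤ m * c := by
        have := Nat.mul_le_mul_left m h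
        rw [Nat.succ_eq_add_one, mul_add, mul_one] at this
        exact this
      rw [if_neg (by omega), if_neg (by omega)]
  simp only [key]
  rw [Finset.sum_ite_eq']
  split_ifs with h
  · rfl
  · rw [notMem_support_iff.mp h, coeff_zero]

theorem eval_ne_zero (F : ℤ[X][X]) (hF : F ≠ 0) (m : ℕ) (hm : dx F < m) :
    F.eval (X ^ m) ≠ 0 := by
  intro h
  have hlc : F.leadingCoeff ≠ 0 := leadingCoeff_ne_zero.mpr hF
  have hlc2 : F.leadingCoeff.leadingCoeff ≠ 0 := leadingCoeff_ne_zero.mpr hlc
  have h1 := coeff_eval F m hm (F.coeff F.natDegree).natDegree F.natDegree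
    (lt_of_le_of_lt (natDegree_coeff_le_dx F _) hm)
  rw [h, coeff_zero] at h1
  exact hlc2 h1.symm

theorem natDegree_eval_le (F : ℤ[X][X]) (m : ℕ) :
    (F.eval (X ^ m)).natDegree ≤ dx F + m * F.natDegree := by
  rw [xdeg_eval_eq]
  refine natDegree_sum_le_of_forall_le _ _ fun b hb => ?_
  refine (natDegree_mul_le).trans ?_
  refine add_le_add (natDegree_coeff_le_dx F b) ?_
  rw [natDegree_X_pow]
  exact Nat.mul_le_mul_left m (le_natDegree_of_mem_supp b hb)

theorem le_natDegree_eval (F : ℤ[X][X]) (hF : F ≠ 0) (m : ℕ) (hm : dx F < m) :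
    m * F.natDegree ≤ (F.eval (X ^ m)).natDegree := by
  have hlc : F.leadingCoeff ≠ 0 := leadingCoeff_ne_zero.mpr hF
  have hlc2 : F.leadingCoeff.leadingCoeff ≠ 0 := leadingCoeff_ne_zero.mpr hlc
  have h1 := coeff_eval F m hm (F.coeff F.natDegree).natDegree F.natDegree
    (lt_of_le_of_lt (natDegree_coeff_le_dx F _) hm)
  have h2 : (F.eval (X ^ m)).coeff ((F.coeff F.natDegree).natDegree + m * F.natDegree) ≠ 0 := by
    rw [h1]
    exact hlc2
  exact (Nat.le_add_left _ _).trans (le_natDegree_of_ne_zero h2)

theorem card_support_eval_le (F : ℤ[X][X]) (m : ℕ) :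
    (F.eval (X ^ m)).support.card ≤ ∑ j ∈ F.support, (F.coeff j).support.card := by
  rw [xdeg_eval_eq]
  have h1 : (∑ b ∈ F.support, F.coeff b * X ^ (m * b)).support ⊆
      F.support.biUnion fun b => (F.coeff b * X ^ (m * b)).support := by
    intro i hi
    rw [mem_support_iff, finsetSum_coeff] at hi
    obtain ⟨b, hb, hb2⟩ := Finset.exists_ne_zero_of_sum_ne_zero hi
    rw [Finset.mem_biUnion]
    exact ⟨b, hb, mem_support_iff.mpr hb2⟩
  refine (Finset.card_le_card h1).trans (Finset.card_biUnion_le.trans ?_)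
  refine Finset.sum_le_sum fun b _ => ?_
  have h2 : (F.coeff b * X ^ (m * b)).support ⊆
      (F.coeff b).support.image fun i => i + m * b := by
    intro i hi
    rw [mem_support_iff, coeff_mul_X_pow'] at hi
    split_ifs at hi with h
    · rw [Finset.mem_image]
      exact ⟨i - m * b, mem_support_iff.mpr hi, by omega⟩
    · exact absurd rfl hi
  exact (Finset.card_le_card h2).trans Finset.card_image_le

end Pool.Agent.Lib.MP_7ab245_nt.Blk
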