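import Mathlib
import Pool.Agent.Lib.MP_7ab245_nt.Blk.XDeg
import Pool.Agent.Lib.MP_7ab245_nt.Blk.Factors

set_option autoImplicit false

open Polynomial Real

namespace Pool.Agent.Lib.MP_7ab245_nt.Blk

/-- the polynomial with coefficients `v` in a box -/
noncomputable def box {R : Type} [Semiring R] {I J : ℕ} (v : Fin I × Fin J → R) : R[X][X] :=
  ∑ x, monomial (x.2 : ℕ) (monomial (x.1 : ℕ) (v x))

lemma coeff_coeff_box {R : Type} [Semiring R] {I J : ℕ} (v : Fin I × Fin J → R) (i j : ℕ) :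
    ((box v).coeff j).coeff i = if h : i < I ∧ j < J then v (⟨i, h.1⟩, ⟨j, h.2⟩) else 0 := by
  unfold box
  rw [finsetSum_coeff, finsetSum_coeff]
  split_ifs with h
  · rw [Finset.sum_eq_single (⟨i, h.1⟩, ⟨j, h.2⟩)]
    · simp
    · rintro ⟨a, b⟩ _ hab
      rw [coeff_monomial]
      split_ifs with h1
      · rw [coeff_monomial, if_neg]
        rintro h2
        apply hab
        ext
        · exact h2
        · exact h1
      · simp
    · simp
  · refine Finset.sum_eq_zero fun x _ => ?_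
    rw [coeff_monomial]
    split_ifs with h1
    · rw [coeff_monomial, if_neg]
      rintro h2
      exact h ⟨h2 ▸ x.1.2, h1 ▸ x.2.2⟩
    · simp

lemma natDegree_box_lt {R : Type} [Semiring R] {I J : ℕ} (hJ : 0 < J) (v : Fin I × Fin J → R) :
    (box v).natDegree < J := by
  rw [Nat.lt_iff_le_pred hJ, natDegree_le_iff_coeff_eq_zero]
  intro j hj
  ext i
  rw [coeff_coeff_box, dif_neg, coeff_zero]
  omega

lemma dx_box_lt {R : Type} [Semiring R] {I J : ℕ} (hI : 0 < I) (v : Fin I × Fin J → R) :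
    dx (box v) < I := by
  rw [Nat.lt_iff_le_pred hI, dx_le_iff]
  intro j
  rw [natDegree_le_iff_coeff_eq_zero]
  intro i hi
  rw [coeff_coeff_box, dif_neg]
  omega

/-- sums in lexicographic order -/
noncomputable def lexp {R : Type} [Semiring R] (a : ℕ) {r : ℕ} (c : Fin r → R) : R[X][X] :=
  ∑ j : Fin r, monomial ((j : ℕ) / a) (monomial ((j : ℕ) % a) (c j))

lemma coeff_coeff_lexp {R : Type} [Semiring R] (a : ℕ) (ha : 0 < a) {r : ℕ} (c : Fin r → R)
    (i j : ℕ) : ((lexp a c).coeff j).coeff i =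
      if h : i < a ∧ i + a * j < r then c ⟨i + a * j, h.2⟩ else 0 := by
  unfold lexp
  rw [finsetSum_coeff, finsetSum_coeff]
  split_ifs with h
  · rw [Finset.sum_eq_single ⟨i + a * j, h.2⟩]
    · have h1 : (i + a * j) / a = j := by
        rw [Nat.add_mul_div_left _ _ ha, Nat.div_eq_of_lt h.1, zero_add]
      have h2 : (i + a * j) % a = i := by
        rw [Nat.add_mul_mod_self_left, Nat.mod_eq_of_lt h.1]
      simp [coeff_monomial, h1, h2]
    · intro b _ hb
      rw [coeff_monomial]
      split_ifs with h1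
      · rw [coeff_monomial, if_neg]
        intro h2
        apply hb
        ext
        have := Nat.mod_add_div (b : ℕ) a
        rw [h1, h2] at this
        exact this.symm
      · simp
    · simp
  · refine Finset.sum_eq_zero fun x _ => ?_
    rw [coeff_monomial]
    split_ifs with h1
    · rw [coeff_monomial, if_neg]
      rintro h2
      apply h
      have := Nat.mod_add_div (x : ℕ) a
      rw [h1, h2] at this
      refine ⟨h2 ▸ Nat.mod_lt _ ha, ?_⟩
      rw [this]
      exact x.2
    · simp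

lemma lexp_leadingCoeff {a : ℕ} (ha : 0 < a) {r : ℕ} (c : Fin r → ℂ) (i : Fin r) (hi : c i = 1)
    (hc : ∀ j, i < j → c j = 0) : (lexp a c).leadingCoeff.Monic := by
  have hdm := Nat.mod_add_div (i : ℕ) a
  have hmod := Nat.mod_lt (i : ℕ) ha
  have h1 : ((lexp a c).coeff ((i : ℕ) / a)).coeff ((i : ℕ) % a) = 1 := by
    rw [coeff_coeff_lexp a ha, dif_pos ⟨hmod, by rw [hdm]; exact i.2⟩]
    rw [← hi]
    congr 1
    ext
    exact hdm
  have h2 : ∀ j, (i : ℕ) / a < j → (lexp a c).coeff j = 0 := by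
    intro j hj
    ext e
    rw [coeff_coeff_lexp a ha, coeff_zero]
    split_ifs with h
    · apply hc
      rw [Fin.lt_def]
      simp only
      have h3 : a * ((i : ℕ) / a) + a ≤ a * j := by
        calc a * ((i : ℕ) / a) + a = a * ((i : ℕ) / a + 1) := by ring
          _ ≤ a * j := Nat.mul_le_mul_left a hj
      omega
    · rfl
  have h3 : (lexp a c).coeff ((i : ℕ) / a) ≠ 0 := by
    intro h0; rw [h0, coeff_zero] at h1; exact zero_ne_one h1
  have h4 : (lexp a c).natDegree = (i : ℕ) / a :=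
    le_antisymm (natDegree_le_iff_coeff_eq_zero.mpr fun j hj => h2 j hj)
      (le_natDegree_of_ne_zero h3)
  have h5 : ∀ e, (i : ℕ) % a < e → ((lexp a c).coeff ((i : ℕ) / a)).coeff e = 0 := by
    intro e he
    rw [coeff_coeff_lexp a ha]
    split_ifs with h
    · apply hc
      rw [Fin.lt_def]
      simp only
      omega
    · rfl
  have h6 : ((lexp a c).coeff ((i : ℕ) / a)).natDegree = (i : ℕ) % a :=
    le_antisymm (natDegree_le_iff_coeff_eq_zero.mpr fun j hj => h5 j hj)
      (le_natDegree_of_ne_zero (by rw [h1]; exact one_ne_zero))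
  rw [Polynomial.leadingCoeff, h4, Monic, Polynomial.leadingCoeff, h6, h1]

lemma sum_sq_box {I J : ℕ} (P : ℂ[X][X]) (hI : ∀ j i, I ≤ i → (P.coeff j).coeff i = 0)
    (hJ : ∀ j, J ≤ j → P.coeff j = 0) :
    ∑ j ∈ P.support, ∑ i ∈ (P.coeff j).support, ‖(P.coeff j).coeff i‖ ^ 2 =
      ∑ x : Fin I × Fin J, ‖(P.coeff x.2).coeff x.1‖ ^ 2 := by
  rw [Fintype.sum_prod_type, Finset.sum_comm]
  have h1 : ∀ j, ∑ i ∈ (P.coeff j).support, ‖(P.coeff j).coeff i‖ ^ 2 =
      ∑ i : Fin I, ‖(P.coeff j).coeff i‖ ^ 2 := by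
    intro j
    rw [Fin.sum_univ_eq_sum_range (fun i => ‖(P.coeff j).coeff i‖ ^ 2) I]
    apply Finset.sum_subset
    · intro i hi
      rw [Finset.mem_range]
      by_contra hcon
      exact (mem_support_iff.mp hi) (hI j i (by omega))
    · intro i _ hi
      rw [notMem_support_iff.mp hi]
      simp
  simp only [h1]
  rw [Fin.sum_univ_eq_sum_range (fun j => ∑ i : Fin I, ‖(P.coeff j).coeff i‖ ^ 2) J]
  apply Finset.sum_subset
  · intro j hj
    rw [Finset.mem_range]
    by_contra hcon
    exact (mem_support_iff.mp hj) (hJ j (by omega))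
  · intro j _ hj
    rw [notMem_support_iff.mp hj]
    simp

end Pool.Agent.Lib.MP_7ab245_nt.Blk
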