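import Mathlib

/-!
Geometry of numbers: an integer point close to the span of given integer vectors, but not in the
lattice generated by them.
-/

set_option autoImplicit false

open MeasureTheory InnerProductSpace Module

namespace Pool.Agent.Lib.MP_7ab245_nt.Blk

/-- the real vector of an integer vector -/
noncomputable def mkV {ι : Type} (a : ι → ℤ) : EuclideanSpace ℝ ι :=
  WithLp.toLp 2 fun x => (a x : ℝ)

lemma mkV_apply {ι : Type} (a : ι → ℤ) (x : ι) : mkV a x = a x := rfl

lemma mk_sum_apply {ι : Type} {r : ℕ} (w : Fin r → ι → ℤ) (c : Fin r → ℝ) (x : ι) :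
    (∑ j, c j • mkV (w j)) x = ∑ j, c j * w j x := by
  rw [WithLp.ofLp_sum, Finset.sum_apply]
  rfl

/-- lower bound for the Gram-Schmidt vectors -/
lemma mk_gs_norm {ι : Type} [Fintype ι] {r : ℕ} (w : Fin r → ι → ℤ) (κ : ℝ) (hκ : 0 < κ)
    (hw : ∀ (i : Fin r) (c : Fin r → ℝ), c i = 1 → (∀ j, i < j → c j = 0) →
      κ ^ 2 ≤ ∑ x, (∑ j, c j * w j x) ^ 2) (i : Fin r) :
    κ ≤ ‖gramSchmidt ℝ (fun j => mkV (w j)) i‖ := by
  set W : Fin r → EuclideanSpace ℝ ι := fun j => mkV (w j) with hW
  have h1 : W i - gramSchmidt ℝ W i ∈ Submodule.span ℝ (W '' Set.Iio i) := by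
    rw [← span_gramSchmidt_Iio ℝ W i]
    have h2 := gramSchmidt_def'' ℝ W i
    have h3 : W i - gramSchmidt ℝ W i = ∑ j ∈ Finset.Iio i,
      (inner ℝ (gramSchmidt ℝ W j) (W i) / (‖gramSchmidt ℝ W j‖ : ℝ) ^ 2) •
        gramSchmidt ℝ W j := by
      conv_lhs => rw [h2]
      simp
    rw [h3]
    refine Submodule.sum_mem _ fun j hj => Submodule.smul_mem _ _ (Submodule.subset_span ?_)
    exact Set.mem_image_of_mem _ (Finset.mem_Iio.mp hj)
  rw [Finsupp.mem_span_image_iff_linearCombination] at h1
  obtain ⟨l, hl, hl2⟩ := h1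
  have hl0 : ∀ j, i ≤ j → l j = 0 := by
    intro j hj
    by_contra h
    have := hl (Finsupp.mem_support_iff.mpr h)
    exact absurd this (not_lt.mpr hj)
  set c : Fin r → ℝ := fun j => if j = i then 1 else -l j with hc
  have h4 : gramSchmidt ℝ W i = ∑ j, c j • W j := by
    have h5 : gramSchmidt ℝ W i = W i - Finsupp.linearCombination ℝ W l := by
      rw [hl2]; abel
    rw [h5, Finsupp.linearCombination_apply, Finsupp.sum_fintype _ _ (by simp),
      ← Finset.add_sum_erase _ _ (Finset.mem_univ i),
      ← Finset.add_sum_erase _ (fun j => c j • W j) (Finset.mem_univ i)]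
    have h6 : c i = 1 := by simp [hc]
    rw [hl0 i le_rfl, h6, zero_smul, zero_add, one_smul, sub_eq_add_neg, ← Finset.sum_neg_distrib]
    congr 1
    refine Finset.sum_congr rfl fun j hj => ?_
    have h7 : c j = -l j := by simp [hc, Finset.ne_of_mem_erase hj]
    rw [h7, neg_smul]
  have h5 := hw i c (by simp [hc]) (by
    intro j hj
    simp only [hc, if_neg hj.ne', hl0 j hj.le, neg_zero])
  have h6 : ‖gramSchmidt ℝ W i‖ ^ 2 = ∑ x, (∑ j, c j * w j x) ^ 2 := by
    rw [EuclideanSpace.real_norm_sq_eq]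
    refine Finset.sum_congr rfl fun x _ => ?_
    rw [h4, mk_sum_apply]
  rw [← h6] at h5
  exact (pow_le_pow_iff_left₀ hκ.le (norm_nonneg _) two_ne_zero).mp h5

lemma mk_inner_self {E : Type} [NormedAddCommGroup E] [InnerProductSpace ℝ E] {r : ℕ}
    (W : Fin r → E) (i : Fin r) :
    inner ℝ (gramSchmidt ℝ W i) (W i) = ‖gramSchmidt ℝ W i‖ ^ 2 := by
  conv_lhs => rw [gramSchmidt_def'' ℝ W i]
  rw [inner_add_right, inner_sum, Finset.sum_eq_zero, add_zero, real_inner_self_eq_norm_sq]
  intro j hj
  rw [inner_smul_right, gramSchmidt_orthogonal ℝ W (Finset.mem_Iio.mp hj).ne', mul_zero]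

/-- Minkowski's theorem for a box in an orthonormal basis -/
lemma mk_minkowski {ι : Type} [Fintype ι] {N : ℕ} (b : OrthonormalBasis (Fin N) ℝ (EuclideanSpace ℝ ι))
    (β : Fin N → ℝ) (hβ : ∀ i, 0 < β i) (h : 1 < ∏ i, β i) :
    ∃ A : ι → ℤ, A ≠ 0 ∧ ∀ i, |inner ℝ (b i) (mkV A)| < β i := by
  classical
  set B := (EuclideanSpace.basisFun ι ℝ).toBasis with hB
  set s : Set (EuclideanSpace ℝ ι) := {v | ∀ i, |inner ℝ (b i) v| < β i} with hs
  have hN : finrank ℝ (EuclideanSpace ℝ ι) = N := by
    rw [finrank_eq_card_basis b.toBasis, Fintype.card_fin]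
  have hF : volume (ZSpan.fundamentalDomain B) = 1 := by
    rw [measure_congr (ZSpan.fundamentalDomain_ae_parallelepiped B volume)]
    have := (EuclideanSpace.basisFun ι ℝ).volume_parallelepiped
    rw [hB, OrthonormalBasis.coe_toBasis]
    exact this
  have hsymm : ∀ v ∈ s, -v ∈ s := by
    intro v hv i
    rw [inner_neg_right, abs_neg]
    exact hv i
  have hconv : Convex ℝ s := by
    have : s = ⋂ i, (innerSL ℝ (b i)) ⁻¹' (Set.Ioo (-(β i)) (β i)) := by
      ext v
      simp [hs, abs_lt]
    rw [this]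
    exact convex_iInter fun i => (convex_Ioo _ _).linear_preimage (innerSL ℝ (b i)).toLinearMap
  have hvol : volume s = ENNReal.ofReal (∏ i, (2 * β i)) := by
    have h1 : s = b.repr ⁻¹' ((WithLp.ofLp : EuclideanSpace ℝ (Fin N) → (Fin N → ℝ)) ⁻¹'
        (Set.univ.pi fun i => Set.Ioo (-(β i)) (β i))) := by
      ext v
      simp [hs, abs_lt, OrthonormalBasis.repr_apply_apply]
    have hm : MeasurableSet (Set.univ.pi fun i => Set.Ioo (-(β i)) (β i)) :=
      MeasurableSet.univ_pi fun i => measurableSet_Ioo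
    have h2 := (PiLp.volume_preserving_ofLp (Fin N))
    rw [h1, b.measurePreserving_repr.measure_preimage (h2.measurable hm).nullMeasurableSet,
      h2.measure_preimage hm.nullMeasurableSet, Real.volume_pi_Ioo,
      ENNReal.ofReal_prod_of_nonneg (fun i _ => by have := hβ i; positivity)]
    refine Finset.prod_congr rfl fun i _ => ?_
    congr 1; ring
  have hlt : volume (ZSpan.fundamentalDomain B) * 2 ^ finrank ℝ (EuclideanSpace ℝ ι) <
      volume s := by
    rw [hF, hN, hvol, one_mul, Finset.prod_mul_distrib, Finset.prod_const, Finset.card_univ,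
      Fintype.card_fin]
    have h1 : (2 : ENNReal) ^ N = ENNReal.ofReal (2 ^ N) := by
      rw [ENNReal.ofReal_pow (by norm_num)]; norm_num
    rw [h1]
    apply (ENNReal.ofReal_lt_ofReal_iff (by have := Finset.prod_pos (fun i (_ : i ∈ Finset.univ) => hβ i); positivity)).mpr
    have h2 : (0 : ℝ) < 2 ^ N := by positivity
    nlinarith
  have hcount : Countable (Submodule.span ℤ (Set.range B)).toAddSubgroup :=
    inferInstanceAs (Countable (Submodule.span ℤ (Set.range B)))
  obtain ⟨x, hx0, hxs⟩ := exists_ne_zero_mem_lattice_of_measure_mul_two_pow_lt_measure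
    (ZSpan.isAddFundamentalDomain' B volume) hsymm hconv hlt
  have hx : (x : EuclideanSpace ℝ ι) ∈ Submodule.span ℤ (Set.range B) := x.2
  rw [B.mem_span_iff_repr_mem ℤ] at hx
  choose A hA using hx
  have hAx : mkV A = (x : EuclideanSpace ℝ ι) := by
    ext i
    have := hA i
    rw [mkV_apply]
    simpa [hB] using this
  refine ⟨A, ?_, ?_⟩
  · rintro rfl
    apply hx0
    apply Subtype.ext
    rw [← hAx]
    ext i
    simp [mkV_apply]
  · intro i
    rw [hAx]
    exact hxs i

theorem exists_lattice {ι : Type} [Fintype ι] {r : ℕ} (w : Fin r → ι → ℤ) (κ ρ : ℝ)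
    (hκ : 0 < κ) (hρ : 0 < ρ)
    (hw : ∀ (i : Fin r) (c : Fin r → ℝ), c i = 1 → (∀ j, i < j → c j = 0) →
      κ ^ 2 ≤ ∑ x, (∑ j, c j * w j x) ^ 2)
    (h : 1 < κ ^ r * ρ ^ (Fintype.card ι - r)) :
    r ≤ Fintype.card ι ∧ ∃ A : ι → ℤ, (∀ g : Fin r → ℤ, A ≠ fun x => ∑ j, g j * w j x) ∧
      ∃ t : Fin r → ℝ, ∑ x, ((A x : ℝ) - ∑ j, t j * w j x) ^ 2 ≤
        ρ ^ 2 * ((Fintype.card ι - r : ℕ) : ℝ) := by
  classical
  set W : Fin r → EuclideanSpace ℝ ι := fun j => mkV (w j) with hW
  set N := Fintype.card ι with hN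
  have hgs : ∀ i, κ ≤ ‖gramSchmidt ℝ W i‖ := mk_gs_norm w κ hκ hw
  have hgs0 : ∀ i, gramSchmidtNormed ℝ W i ≠ 0 := by
    intro i h0
    have h1 := hgs i
    have h2 : ‖gramSchmidt ℝ W i‖ ≠ 0 := by linarith
    rw [gramSchmidtNormed, smul_eq_zero] at h0
    rcases h0 with h0 | h0
    · exact h2 (by simpa using h0)
    · rw [h0, norm_zero] at h2
      exact h2 rfl
  have horth : Orthonormal ℝ (gramSchmidtNormed ℝ W) := by
    have h1 := gramSchmidtNormed_orthonormal' (𝕜 := ℝ) W
    have h2 := h1.comp (fun i : Fin r => (⟨i, hgs0 i⟩ : {i | gramSchmidtNormed ℝ W i ≠ 0}))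
      (fun i j hij => by simpa using hij)
    exact h2
  have hrN : r ≤ N := by
    have := horth.linearIndependent.fintype_card_le_finrank
    rw [Fintype.card_fin, finrank_euclideanSpace] at this
    exact this
  refine ⟨hrN, ?_⟩
  -- the orthonormal basis
  obtain ⟨b, hb⟩ : ∃ b : OrthonormalBasis (Fin N) ℝ (EuclideanSpace ℝ ι),
      ∀ j : Fin r, b (Fin.castLE hrN j) = gramSchmidtNormed ℝ W j := by
    set v : Fin N → EuclideanSpace ℝ ι := fun i =>
      if hi : i.val < r then gramSchmidtNormed ℝ W ⟨i.val, hi⟩ else 0 with hv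
    have h1 : Orthonormal ℝ (Set.domRestrict {i : Fin N | i.val < r} v) := by
      have h2 := horth.comp (fun i : {i : Fin N | i.val < r} => (⟨i.1.val, i.2⟩ : Fin r))
        (fun i j hij => by
          apply Subtype.ext
          apply Fin.ext
          simpa using hij)
      have h3 : Set.domRestrict {i : Fin N | i.val < r} v = gramSchmidtNormed ℝ W ∘
          (fun i : {i : Fin N | i.val < r} => (⟨i.1.val, i.2⟩ : Fin r)) := by
        ext1 i
        have : i.1.val < r := i.2
        simp only [Set.domRestrict_apply, hv, Function.comp_apply, dif_pos this]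
      rw [h3]
      exact h2
    obtain ⟨b, hb⟩ := h1.exists_orthonormalBasis_extension_of_card_eq
      (by rw [finrank_euclideanSpace, Fintype.card_fin])
    refine ⟨b, fun j => ?_⟩
    rw [hb (Fin.castLE hrN j) (by exact j.2)]
    simp [hv]
  have hinner : ∀ j : Fin r, ∀ u : EuclideanSpace ℝ ι, inner ℝ (b (Fin.castLE hrN j)) u =
      (‖gramSchmidt ℝ W j‖)⁻¹ * inner ℝ (gramSchmidt ℝ W j) u := by
    intro j u
    rw [hb, gramSchmidtNormed, inner_smul_left]
    simp
  have htri : ∀ i j : Fin r, i < j → inner ℝ (b (Fin.castLE hrN j)) (W i) = 0 := by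
    intro i j hij
    rw [hinner, gramSchmidt_inv_triangular ℝ W hij, mul_zero]
  have hdiag : ∀ j : Fin r, inner ℝ (b (Fin.castLE hrN j)) (W j) = ‖gramSchmidt ℝ W j‖ := by
    intro j
    have h2 : ‖gramSchmidt ℝ W j‖ ≠ 0 := by have := hgs j; linarith
    rw [hinner, mk_inner_self]
    field_simp
  -- the box
  set β : Fin N → ℝ := fun i => if i.val < r then κ else ρ with hβ
  have hprod : ∏ i, β i = κ ^ r * ρ ^ (N - r) := by
    rw [hβ, Finset.prod_ite, Finset.prod_const, Finset.prod_const]
    have h1 : (Finset.univ.filter fun i : Fin N => i.val < r).card = r := by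
      have h2 : (Finset.univ.filter fun i : Fin N => i.val < r) =
          Finset.univ.map (Fin.castLEEmb hrN) := by
        ext i
        simp only [Finset.mem_filter, Finset.mem_univ, true_and, Finset.mem_map,
          Fin.castLEEmb_apply]
        constructor
        · intro hi
          exact ⟨⟨i.val, hi⟩, rfl⟩
        · rintro ⟨j, rfl⟩
          exact j.2
      rw [h2, Finset.card_map, Finset.card_univ, Fintype.card_fin]
    have h3 : (Finset.univ.filter fun i : Fin N => ¬ i.val < r).card = N - r := by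
      have h4 := Finset.card_filter_add_card_filter_not (s := (Finset.univ : Finset (Fin N)))
        (fun i : Fin N => i.val < r)
      rw [h1, Finset.card_univ, Fintype.card_fin] at h4
      omega
    rw [h1, h3]
  obtain ⟨A, hA0, hA⟩ := mk_minkowski b β (fun i => by
    simp only [hβ]
    split_ifs
    · exact hκ
    · exact hρ) (by rw [hprod]; exact h)
  refine ⟨A, ?_, ?_⟩
  · -- not in the lattice of the `w j`
    intro g hg
    have hgA : mkV A = ∑ j, (g j : ℝ) • W j := by
      ext x
      rw [hW, mk_sum_apply, mkV_apply, hg]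
      push_cast
      rfl
    by_cases hg0 : ∀ j, g j = 0
    · apply hA0
      rw [hg]
      ext x
      simp [hg0]
    · push Not at hg0
      obtain ⟨j1, hj1⟩ := hg0
      obtain ⟨j0, hj0, hmax⟩ := Finset.exists_max_image (Finset.univ.filter fun j => g j ≠ 0) id
        ⟨j1, by simp [hj1]⟩
      rw [Finset.mem_filter] at hj0
      have h1 : inner ℝ (b (Fin.castLE hrN j0)) (mkV A) = g j0 * ‖gramSchmidt ℝ W j0‖ := by
        rw [hgA, inner_sum, Finset.sum_eq_single j0]
        · rw [inner_smul_right, hdiag]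
        · intro j _ hj
          rw [inner_smul_right]
          rcases lt_or_gt_of_ne hj with h2 | h2
          · rw [htri j j0 h2, mul_zero]
          · have h3 : g j = 0 := by
              by_contra h4
              exact absurd (hmax j (by simp [h4])) (not_le.mpr h2)
            rw [h3]; simp
        · intro h2
          exact absurd (Finset.mem_univ j0) h2
      have h2 := hA (Fin.castLE hrN j0)
      rw [h1, abs_mul, abs_norm] at h2
      have h3 : β (Fin.castLE hrN j0) = κ := by simp [hβ]
      rw [h3] at h2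
      have h4 : (1 : ℝ) ≤ |(g j0 : ℝ)| := by
        exact_mod_cast Int.one_le_abs hj0.2
      have h5 := hgs j0
      have h6 : ‖gramSchmidt ℝ W j0‖ ≤ |(g j0 : ℝ)| * ‖gramSchmidt ℝ W j0‖ := by
        have := norm_nonneg (gramSchmidt ℝ W j0)
        nlinarith
      linarith
  · -- the distance to the span
    set v : EuclideanSpace ℝ ι := ∑ j : Fin r, inner ℝ (b (Fin.castLE hrN j)) (mkV A) •
      b (Fin.castLE hrN j) with hv
    have hvs : v ∈ Submodule.span ℝ (Set.range W) := by
      rw [← span_gramSchmidt ℝ W, ← span_gramSchmidtNormed_range]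
      refine Submodule.sum_mem _ fun j _ => Submodule.smul_mem _ _ (Submodule.subset_span ?_)
      exact ⟨j, (hb j).symm⟩
    rw [Submodule.mem_span_range_iff_exists_fun] at hvs
    obtain ⟨t, ht⟩ := hvs
    refine ⟨t, ?_⟩
    have h1 : ∑ x, ((A x : ℝ) - ∑ j, t j * w j x) ^ 2 = ‖mkV A - v‖ ^ 2 := by
      rw [EuclideanSpace.real_norm_sq_eq]
      refine Finset.sum_congr rfl fun x _ => ?_
      rw [← ht, PiLp.sub_apply, hW, mk_sum_apply, mkV_apply]
    rw [h1, ← b.sum_sq_norm_inner_right]
    have h2 : ∀ i, ‖inner ℝ (b i) (mkV A - v)‖ ^ 2 ≤ if i.val < r then 0 else ρ ^ 2 := by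
      intro i
      by_cases hi : i.val < r
      · rw [if_pos hi]
        have h3 : i = Fin.castLE hrN ⟨i.val, hi⟩ := rfl
        have h4 : inner ℝ (b i) v = inner ℝ (b i) (mkV A) := by
          rw [hv, inner_sum, Finset.sum_eq_single ⟨i.val, hi⟩]
          · rw [inner_smul_right, ← h3, real_inner_self_eq_norm_sq, b.norm_eq_one]
            ring
          · intro j _ hj
            rw [inner_smul_right, b.inner_eq_zero, mul_zero]
            intro h5
            apply hj
            apply Fin.ext
            have h6 := congrArg Fin.val h5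
            simpa using h6.symm
          · intro h5
            exact absurd (Finset.mem_univ _) h5
        rw [inner_sub_right, h4, sub_self]
        simp
      · rw [if_neg hi]
        have h4 : inner ℝ (b i) v = 0 := by
          rw [hv, inner_sum]
          refine Finset.sum_eq_zero fun j _ => ?_
          rw [inner_smul_right, b.inner_eq_zero, mul_zero]
          rintro rfl
          exact hi j.2
        have h5 := hA i
        have h6 : β i = ρ := by simp [hβ, hi]
        rw [h6] at h5
        rw [inner_sub_right, h4, sub_zero, Real.norm_eq_abs]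
        exact pow_le_pow_left₀ (abs_nonneg _) h5.le 2
    refine (Finset.sum_le_sum fun i _ => h2 i).trans (le_of_eq ?_)
    rw [Finset.sum_ite, Finset.sum_const_zero, zero_add, Finset.sum_const, nsmul_eq_mul, mul_comm]
    congr 2
    have h1' : (Finset.univ.filter fun i : Fin N => i.val < r).card = r := by
      have h2 : (Finset.univ.filter fun i : Fin N => i.val < r) =
          Finset.univ.map (Fin.castLEEmb hrN) := by
        ext i
        simp only [Finset.mem_filter, Finset.mem_univ, true_and, Finset.mem_map,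
          Fin.castLEEmb_apply]
        constructor
        · intro hi
          exact ⟨⟨i.val, hi⟩, rfl⟩
        · rintro ⟨j, rfl⟩
          exact j.2
      rw [h2, Finset.card_map, Finset.card_univ, Fintype.card_fin]
    have h4 := Finset.card_filter_add_card_filter_not (s := (Finset.univ : Finset (Fin N)))
      (fun i : Fin N => i.val < r)
    rw [h1', Finset.card_univ, Fintype.card_fin] at h4
    omega

end Pool.Agent.Lib.MP_7ab245_nt.Blk
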