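import Mathlib
import Pool.Agent.Lib.MP_7ab245_nt.Blk.Defs

/-!
Block theorem (MP_7ab245_nt): the Mahler measure in two variables as an iterated average.
-/

set_option autoImplicit false

open Polynomial Filter Topology Real MeasureTheory

namespace Pool.Agent.Lib.MP_7ab245_nt.Blk

/-! ### Almost everywhere statements on the circle -/

theorem mu_ae_ne (p : ℂ[X]) (hp : p ≠ 0) :
    ∀ᵐ θ ∂(volume.restrict (Set.uIoc 0 (2 * π))), p.eval (circleMap 0 1 θ) ≠ 0 := by
  rw [ae_restrict_iff' measurableSet_uIoc]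
  refine Set.Finite.measure_zero ?_ _
  simp only [ne_eq, Set.compl_ofPred, Classical.not_imp, Decidable.not_not]
  refine Set.Finite.of_finite_image (f := circleMap 0 1)
    (p.roots.finite_toSet.subset ?_) ?_
  · rintro z ⟨θ, ⟨_, heval⟩, rfl⟩
    exact (mem_roots hp).mpr heval
  · grw [Set.ofPred_and, Set.inter_subset_left]
    exact injOn_circleMap_of_abs_sub_le one_ne_zero (by simp [abs_of_pos pi_pos])

theorem mu_avg_congr {f g : ℂ → ℝ}
    (h : ∀ᵐ θ ∂(volume.restrict (Set.uIoc 0 (2 * π))),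
      f (circleMap 0 1 θ) = g (circleMap 0 1 θ)) :
    circleAverage f 0 1 = circleAverage g 0 1 := by
  rw [circleAverage_def, circleAverage_def]
  congr 1
  exact intervalIntegral.integral_congr_ae_restrict h

theorem mu_avg_mono {f g : ℂ → ℝ} (hf : CircleIntegrable f 0 1) (hg : CircleIntegrable g 0 1)
    (h : ∀ᵐ θ ∂(volume.restrict (Set.uIoc 0 (2 * π))),
      f (circleMap 0 1 θ) ≤ g (circleMap 0 1 θ)) :
    circleAverage f 0 1 ≤ circleAverage g 0 1 := by
  rw [circleAverage_def, circleAverage_def, smul_eq_mul, smul_eq_mul]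
  refine mul_le_mul_of_nonneg_left ?_ (by positivity)
  have h2 : (0 : ℝ) ≤ 2 * π := by positivity
  rw [intervalIntegral.integral_of_le h2, intervalIntegral.integral_of_le h2]
  rw [Set.uIoc_of_le h2] at h
  refine integral_mono_ae ?_ ?_ h
  · exact (intervalIntegrable_iff_integrableOn_Ioc_of_le h2).mp hf
  · exact (intervalIntegrable_iff_integrableOn_Ioc_of_le h2).mp hg

/-! ### Slices -/

theorem mu_sl_eval (G : ℂ[X][X]) (z w : ℂ) :
    (sl G z).eval w = ∑ j ∈ G.support, (G.coeff j).eval z * w ^ j := by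
  unfold sl
  rw [eval_map, eval₂_eq_sum, Polynomial.sum]
  rfl

theorem mu_sl_coeff (G : ℂ[X][X]) (z : ℂ) (j : ℕ) : (sl G z).coeff j = (G.coeff j).eval z := by
  unfold sl
  rw [coeff_map]
  rfl

theorem mu_sl_ne (G : ℂ[X][X]) (z : ℂ) (h : G.leadingCoeff.eval z ≠ 0) : sl G z ≠ 0 := by
  intro h0
  apply h
  have h1 := mu_sl_coeff G z G.natDegree
  rw [h0, coeff_zero] at h1
  exact h1.symm

theorem mu_sl_lc (G : ℂ[X][X]) (z : ℂ) (h : G.leadingCoeff.eval z ≠ 0) :
    (sl G z).leadingCoeff = G.leadingCoeff.eval z :=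
  leadingCoeff_map_of_leadingCoeff_ne_zero (evalRingHom z) h

theorem mu_ae_lc (G : ℂ[X][X]) (hG : G ≠ 0) :
    ∀ᵐ θ ∂(volume.restrict (Set.uIoc 0 (2 * π))), G.leadingCoeff.eval (circleMap 0 1 θ) ≠ 0 :=
  mu_ae_ne _ (leadingCoeff_ne_zero.mpr hG)

/-- lower bound by the leading coefficient -/
theorem mu_lower (P : ℂ[X]) (hP : P ≠ 0) : log ‖P.leadingCoeff‖ ≤ P.logMahlerMeasure := by
  rw [logMahlerMeasure_eq_log_MahlerMeasure]
  exact log_le_log (norm_pos_iff.mpr (leadingCoeff_ne_zero.mpr hP))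
    (leadingCoeff_le_mahlerMeasure P)

/-- upper bound by the sum of the coefficients, uniform on the circle -/
theorem mu_upper (G : ℂ[X][X]) : ∃ K : ℝ, 0 ≤ K ∧ ∀ z : ℂ, ‖z‖ = 1 → sl G z ≠ 0 →
    (sl G z).logMahlerMeasure ≤ K := by
  refine ⟨log (1 + ∑ j ∈ G.support, ∑ i ∈ (G.coeff j).support, ‖(G.coeff j).coeff i‖), ?_, ?_⟩
  · apply log_nonneg
    have : 0 ≤ ∑ j ∈ G.support, ∑ i ∈ (G.coeff j).support, ‖(G.coeff j).coeff i‖ :=
      Finset.sum_nonneg fun j _ => Finset.sum_nonneg fun i _ => norm_nonneg _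
    linarith
  · intro z hz h0
    rw [logMahlerMeasure_eq_log_MahlerMeasure]
    refine log_le_log (mahlerMeasure_pos_of_ne_zero h0) ?_
    refine (mahlerMeasure_le_sum_norm_coeff _).trans ?_
    rw [Polynomial.sum]
    have hsub : (sl G z).support ⊆ G.support := by
      intro j hj
      rw [mem_support_iff, mu_sl_coeff] at hj
      rw [mem_support_iff]
      rintro h
      rw [h] at hj
      simp at hj
    have h1 : ∑ n ∈ (sl G z).support, ‖(sl G z).coeff n‖ ≤
        ∑ n ∈ G.support, ‖(sl G z).coeff n‖ :=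
      Finset.sum_le_sum_of_subset_of_nonneg hsub fun _ _ _ => norm_nonneg _
    have h2 : ∑ n ∈ G.support, ‖(sl G z).coeff n‖ ≤
        ∑ j ∈ G.support, ∑ i ∈ (G.coeff j).support, ‖(G.coeff j).coeff i‖ := by
      refine Finset.sum_le_sum fun j _ => ?_
      rw [mu_sl_coeff, eval_eq_sum, Polynomial.sum]
      refine norm_sum_le_of_le _ fun i _ => ?_
      rw [norm_mul, norm_pow, hz, one_pow, mul_one]
    linarith

theorem mu_measurable (G : ℂ[X][X]) :
    StronglyMeasurable fun θ : ℝ => (sl G (circleMap 0 1 θ)).logMahlerMeasure := by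
  have hm : StronglyMeasurable fun p : ℝ × ℝ =>
      log ‖(sl G (circleMap 0 1 p.1)).eval (circleMap 0 1 p.2)‖ := by
    refine Measurable.stronglyMeasurable ?_
    refine Real.measurable_log.comp ?_
    refine Continuous.measurable ?_
    refine Continuous.norm ?_
    have : (fun p : ℝ × ℝ => (sl G (circleMap 0 1 p.1)).eval (circleMap 0 1 p.2)) =
        fun p : ℝ × ℝ => ∑ j ∈ G.support,
          (G.coeff j).eval (circleMap 0 1 p.1) * (circleMap 0 1 p.2) ^ j := by
      funext p
      exact mu_sl_eval _ _ _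
    rw [this]
    fun_prop
  have h2 : (0 : ℝ) ≤ 2 * π := by positivity
  have : (fun θ : ℝ => (sl G (circleMap 0 1 θ)).logMahlerMeasure) = fun θ : ℝ =>
      (2 * π)⁻¹ • ∫ t, log ‖(sl G (circleMap 0 1 θ)).eval (circleMap 0 1 t)‖
        ∂(volume.restrict (Set.Ioc 0 (2 * π))) := by
    funext θ
    rw [logMahlerMeasure_def, circleAverage_def, intervalIntegral.integral_of_le h2]
  rw [this]
  have h3 := hm.integral_prod_right' (ν := volume.restrict (Set.Ioc 0 (2 * π)))
  exact StronglyMeasurable.const_smul h3 ((2 * π)⁻¹)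

theorem sl_integrable (G : ℂ[X][X]) (hG : G ≠ 0) :
    CircleIntegrable (fun z => (sl G z).logMahlerMeasure) 0 1 := by
  obtain ⟨K, hK0, hK⟩ := mu_upper G
  have h1 : CircleIntegrable (fun z => log ‖G.leadingCoeff.eval z‖) 0 1 :=
    G.leadingCoeff.intervalIntegrable_mahlerMeasure
  have h2 : CircleIntegrable (fun z => |log ‖G.leadingCoeff.eval z‖| + K) 0 1 := by
    refine CircleIntegrable.add ?_ (circleIntegrable_const K 0 1)
    exact h1.abs
  unfold CircleIntegrable at h2 ⊢
  refine IntervalIntegrable.mono_fun' h2 ?_ ?_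
  · exact (mu_measurable G).aestronglyMeasurable
  · filter_upwards [mu_ae_lc G hG] with θ hθ
    have hn : ‖circleMap 0 1 θ‖ = 1 := by simp
    have hne := mu_sl_ne G _ hθ
    have hu := hK _ hn hne
    have hl := mu_lower _ hne
    rw [mu_sl_lc G _ hθ] at hl
    rw [Real.norm_eq_abs, abs_le]
    constructor
    · have := neg_abs_le (log ‖G.leadingCoeff.eval (circleMap 0 1 θ)‖)
      linarith
    · have := abs_nonneg (log ‖G.leadingCoeff.eval (circleMap 0 1 θ)‖)
      linarith

theorem mm_mul (G H : ℂ[X][X]) (hG : G ≠ 0) (hH : H ≠ 0) : mm (G * H) = mm G + mm H := by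
  unfold mm
  rw [← circleAverage_fun_add (sl_integrable G hG) (sl_integrable H hH)]
  refine mu_avg_congr ?_
  filter_upwards [mu_ae_lc G hG, mu_ae_lc H hH] with θ h1 h2
  have : sl (G * H) (circleMap 0 1 θ) = sl G (circleMap 0 1 θ) * sl H (circleMap 0 1 θ) := by
    unfold sl
    exact Polynomial.map_mul _
  rw [this]
  exact logMahlerMeasure_mul_eq_add_logMahlerMeasure
    (mul_ne_zero (mu_sl_ne G _ h1) (mu_sl_ne H _ h2))

theorem mm_C (g : ℂ[X]) (hg : g ≠ 0) : mm (C g) = g.logMahlerMeasure := by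
  unfold mm
  rw [logMahlerMeasure_def]
  congr 1
  funext z
  unfold sl
  rw [map_C, logMahlerMeasure_const]
  rfl

/-- the leading coefficient gives a lower bound -/
theorem mu_ge_lc (G : ℂ[X][X]) (hG : G ≠ 0) : G.leadingCoeff.logMahlerMeasure ≤ mm G := by
  unfold mm
  rw [logMahlerMeasure_def]
  refine mu_avg_mono G.leadingCoeff.intervalIntegrable_mahlerMeasure (sl_integrable G hG) ?_
  filter_upwards [mu_ae_lc G hG] with θ hθ
  have hl := mu_lower _ (mu_sl_ne G _ hθ)
  rwa [mu_sl_lc G _ hθ] at hl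

theorem mu_log_nonneg (P : ℂ[X]) (h : 1 ≤ ‖P.leadingCoeff‖) : 0 ≤ P.logMahlerMeasure := by
  rw [logMahlerMeasure_eq_log_MahlerMeasure]
  exact log_nonneg (one_le_mahlerMeasure_of_one_le_norm_leadingCoeff h)

theorem mm_nonneg (F : ℤ[X][X]) (hF : F ≠ 0) : 0 ≤ mm (tC F) := by
  have hinj : Function.Injective (Int.castRingHom ℂ) := by
    exact RingHom.injective_int _
  have hinj2 : Function.Injective (mapRingHom (Int.castRingHom ℂ)) := map_injective _ hinj
  have hne : tC F ≠ 0 := by
    unfold tC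
    rwa [Ne, Polynomial.map_eq_zero_iff hinj2]
  refine le_trans ?_ (mu_ge_lc _ hne)
  apply mu_log_nonneg
  have h1 : (tC F).leadingCoeff = F.leadingCoeff.map (Int.castRingHom ℂ) := by
    unfold tC
    rw [leadingCoeff_map_of_injective hinj2]
    rfl
  rw [h1, leadingCoeff_map_of_injective hinj]
  have h2 : F.leadingCoeff.leadingCoeff ≠ 0 := by
    simpa using hF
  have h3 : (1 : ℤ) ≤ |F.leadingCoeff.leadingCoeff| := Int.one_le_abs h2
  have h4 : ‖(Int.castRingHom ℂ) F.leadingCoeff.leadingCoeff‖ =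
      ((|F.leadingCoeff.leadingCoeff| : ℤ) : ℝ) := by
    simp
  rw [h4]
  exact_mod_cast h3

theorem norm_lower (G Q : ℂ[X][X]) (hG : G ≠ 0) (hQ : Q.leadingCoeff.Monic) :
    Real.exp (2 * mm G) ≤
      ∑ j ∈ (Q * G).support, ∑ i ∈ ((Q * G).coeff j).support, ‖((Q * G).coeff j).coeff i‖ ^ 2 := by
  have hQ0 : Q ≠ 0 := by
    rintro rfl
    rw [leadingCoeff_zero] at hQ
    exact hQ.ne_zero rfl
  have hR0 : Q * G ≠ 0 := mul_ne_zero hQ0 hG
  have hQn : 0 ≤ mm Q := by
    refine le_trans ?_ (mu_ge_lc Q hQ0)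
    apply mu_log_nonneg
    rw [hQ]
    simp
  have hmul := mm_mul Q G hQ0 hG
  set R := Q * G with hR
  have hle : Real.exp (2 * mm G) ≤ Real.exp (2 * mm R) := by
    apply exp_le_exp.mpr
    linarith
  refine hle.trans ?_
  -- the right-hand side as an average
  have hcont : ∀ j, CircleIntegrable (fun z => ‖(R.coeff j).eval z‖ ^ 2) 0 1 := by
    intro j
    unfold CircleIntegrable
    refine Continuous.intervalIntegrable ?_ _ _
    fun_prop
  have hS : ∑ j ∈ R.support, ∑ i ∈ (R.coeff j).support, ‖(R.coeff j).coeff i‖ ^ 2 =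
      circleAverage (fun z => ∑ j ∈ R.support, ‖(R.coeff j).eval z‖ ^ 2) 0 1 := by
    rw [circleAverage_fun_sum fun j _ => hcont j]
    exact Finset.sum_congr rfl fun j _ => sum_sq_norm_coeff_eq_circleAverage _
  rw [hS]
  -- the left-hand side as an average
  have hint := sl_integrable R hR0
  have hL : Real.exp (2 * mm R) = circleAverage (fun z => Real.exp (2 * mm R) * (1 - 2 * mm R) +
      (2 * Real.exp (2 * mm R)) • (sl R z).logMahlerMeasure) 0 1 := by
    have hcs : CircleIntegrable (fun z => (2 * Real.exp (2 * mm R)) •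
        (sl R z).logMahlerMeasure) 0 1 := CircleIntegrable.const_smul hint
    rw [circleAverage_fun_add (circleIntegrable_const _ 0 1) hcs, circleAverage_const,
      circleAverage_fun_smul]
    change _ = _ + (2 * Real.exp (2 * mm R)) • mm R
    rw [smul_eq_mul]
    ring
  rw [hL]
  refine mu_avg_mono ?_ ?_ ?_
  · exact CircleIntegrable.add (circleIntegrable_const _ 0 1) (CircleIntegrable.const_smul hint)
  · have := CircleIntegrable.sum R.support (f := fun j z => ‖(R.coeff j).eval z‖ ^ 2)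
      (c := 0) (R := 1) fun j _ => hcont j
    convert this using 1
    funext z
    rw [Finset.sum_apply]
  · filter_upwards [mu_ae_lc R hR0] with θ hθ
    have hne := mu_sl_ne R _ hθ
    set z := circleMap 0 1 θ with hz
    set u := (sl R z).logMahlerMeasure with hu
    have h1 : Real.exp (2 * u) ≤ ∑ j ∈ R.support, ‖(R.coeff j).eval z‖ ^ 2 := by
      have hM : (sl R z).mahlerMeasure = Real.exp u := by
        rw [hu, mahlerMeasure, if_pos hne]
      have hL := mahlerMeasure_le_sqrt_sum_sq_norm_coeff (sl R z)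
      rw [hM] at hL
      have hnn : 0 ≤ ∑ i ∈ (sl R z).support, ‖(sl R z).coeff i‖ ^ 2 :=
        Finset.sum_nonneg fun _ _ => by positivity
      have h2 : Real.exp u ^ 2 ≤ ∑ i ∈ (sl R z).support, ‖(sl R z).coeff i‖ ^ 2 := by
        have := pow_le_pow_left₀ (Real.exp_pos u).le hL 2
        rwa [Real.sq_sqrt hnn] at this
      have h3 : Real.exp (2 * u) = Real.exp u ^ 2 := by
        rw [← Real.exp_nat_mul]
        norm_num
      rw [h3]
      refine h2.trans ?_
      have hsub : (sl R z).support ⊆ R.support := by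
        intro j hj
        rw [mem_support_iff, mu_sl_coeff] at hj
        rw [mem_support_iff]
        rintro h
        rw [h] at hj
        simp at hj
      refine (Finset.sum_le_sum_of_subset_of_nonneg hsub fun _ _ _ => by positivity).trans ?_
      exact (Finset.sum_congr rfl fun j _ => by rw [mu_sl_coeff]).le
    refine le_trans ?_ h1
    have h2 : Real.exp (2 * u) = Real.exp (2 * mm R) * Real.exp (2 * u - 2 * mm R) := by
      rw [← Real.exp_add]
      ring_nf
    rw [h2, smul_eq_mul]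
    have h3 := Real.add_one_le_exp (2 * u - 2 * mm R)
    have h4 := mul_le_mul_of_nonneg_left h3 (Real.exp_pos (2 * mm R)).le
    nlinarith [h4]

end Pool.Agent.Lib.MP_7ab245_nt.Blk
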