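import Mathlib
import Pool.Agent.Lib.MP_7ab245_nt.Blk.Box
import Pool.Agent.Lib.MP_7ab245_nt.Blk.Mink
import Pool.Agent.Lib.MP_7ab245_nt.Blk.Mu

set_option autoImplicit false

open Polynomial Real

namespace Pool.Agent.Lib.MP_7ab245_nt.Blk

lemma coeff_coeff_tC (P : ℤ[X][X]) (i j : ℕ) :
    ((tC P).coeff j).coeff i = ((P.coeff j).coeff i : ℂ) := by
  unfold tC
  rw [coeff_map, coe_mapRingHom, coeff_map, eq_intCast]

lemma tC_mul (P Q : ℤ[X][X]) : tC (P * Q) = tC P * tC Q := by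
  unfold tC; rw [Polynomial.map_mul]

lemma tC_ne_zero {P : ℤ[X][X]} (hP : P ≠ 0) : tC P ≠ 0 := by
  intro h
  apply hP
  ext j i
  have := coeff_coeff_tC P i j
  rw [h] at this
  simp only [coeff_zero] at this ⊢
  exact_mod_cast this.symm

/-- the multiples of `F` by monomials, in lexicographic order -/
noncomputable def WW (F : ℤ[X][X]) (a j : ℕ) : ℤ[X][X] :=
  monomial (j / a) (monomial (j % a) 1) * F

lemma mono_eq (b e : ℕ) (R : Type) [CommRing R] (c : R) :
    (monomial b (monomial e c) : R[X][X]) = C (C c) * monomial b (monomial e 1) := by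
  rw [C_mul_monomial, C_mul_monomial, mul_one]

lemma dx_mono (b e : ℕ) : dx (monomial b (monomial e 1) : ℤ[X][X]) = e := by
  apply le_antisymm
  · rw [dx_le_iff]
    intro j
    rw [coeff_monomial]
    split_ifs
    · exact natDegree_monomial_le _
    · simp
  · have h1 := natDegree_coeff_le_dx (monomial b (monomial e 1) : ℤ[X][X]) b
    rw [coeff_monomial, if_pos rfl, natDegree_monomial, if_neg one_ne_zero] at h1
    exact h1

lemma mono_ne_zero (b e : ℕ) : (monomial b (monomial e 1) : ℤ[X][X]) ≠ 0 := by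
  rw [Ne, monomial_eq_zero_iff, monomial_eq_zero_iff]
  exact one_ne_zero

lemma dx_WW (F : ℤ[X][X]) (hF : F ≠ 0) (a j : ℕ) : dx (WW F a j) = j % a + dx F := by
  unfold WW
  rw [dx_mul _ _ (mono_ne_zero _ _) hF, dx_mono]

lemma natDegree_WW (F : ℤ[X][X]) (hF : F ≠ 0) (a j : ℕ) :
    (WW F a j).natDegree = j / a + F.natDegree := by
  unfold WW
  rw [natDegree_mul (mono_ne_zero _ _) hF, natDegree_monomial, if_neg]
  rw [monomial_eq_zero_iff]
  exact one_ne_zero

lemma lexp_mul_tC (F : ℤ[X][X]) (a : ℕ) {r : ℕ} (c : Fin r → ℝ) (x y : ℕ) :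
    ((lexp a (fun j => (c j : ℂ)) * tC F).coeff y).coeff x =
      ((∑ j : Fin r, c j * (((WW F a j).coeff y).coeff x : ℝ) : ℝ) : ℂ) := by
  unfold lexp
  rw [Finset.sum_mul, finsetSum_coeff, finsetSum_coeff]
  push_cast
  refine Finset.sum_congr rfl fun j _ => ?_
  rw [mono_eq, mul_assoc, coeff_C_mul, coeff_C_mul]
  congr 1
  rw [← coeff_coeff_tC, WW, tC_mul]
  congr 3
  unfold tC
  rw [map_monomial, coe_mapRingHom, map_monomial, (Int.castRingHom ℂ).map_one]

lemma lexp_mul (F : ℤ[X][X]) (a : ℕ) {r : ℕ} (c : Fin r → ℤ) (x y : ℕ) :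
    ((lexp a c * F).coeff y).coeff x = ∑ j : Fin r, c j * ((WW F a j).coeff y).coeff x := by
  unfold lexp
  rw [Finset.sum_mul, finsetSum_coeff, finsetSum_coeff]
  refine Finset.sum_congr rfl fun j _ => ?_
  rw [mono_eq, mul_assoc, coeff_C_mul, coeff_C_mul]
  rfl

lemma eval_box {I J : ℕ} (v : Fin I × Fin J → ℤ) (m : ℕ) (α : ℂ) :
    aeval α ((box v).eval (X ^ m)) = ∑ x, (v x : ℂ) * α ^ ((x.1 : ℕ) + m * (x.2 : ℕ)) := by
  unfold box
  rw [eval_finsetSum, map_sum]
  refine Finset.sum_congr rfl fun x _ => ?_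
  rw [eval_monomial, map_mul, aeval_monomial, ← pow_mul, map_pow, aeval_X, pow_add]
  simp
  ring

lemma box_self {I J : ℕ} (P : ℤ[X][X]) (hI : dx P < I) (hJ : P.natDegree < J) :
    box (fun x : Fin I × Fin J => (P.coeff x.2).coeff x.1) = P := by
  ext j i
  rw [coeff_coeff_box]
  split_ifs with h
  · rfl
  · symm
    by_cases hj : j < J
    · apply coeff_eq_zero_of_natDegree_lt
      have := natDegree_coeff_le_dx P j
      have : ¬ i < I := fun h' => h ⟨h', hj⟩
      omega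
    · rw [coeff_eq_zero_of_natDegree_lt (show P.natDegree < j by omega), coeff_zero]

lemma cs_bound {ι : Type} [Fintype ι] (δ : ι → ℝ) (μ : ι → ℂ) (V B : ℝ) (hB : 0 ≤ B)
    (hV : ∑ x, δ x ^ 2 ≤ V) (hμ : ∀ x, ‖μ x‖ ≤ B) :
    ‖∑ x, (δ x : ℂ) * μ x‖ ≤ √V * √(Fintype.card ι) * B := by
  have h1 : ‖∑ x, (δ x : ℂ) * μ x‖ ≤ ∑ x, |δ x| * ‖μ x‖ := by
    refine (norm_sum_le _ _).trans (le_of_eq ?_)
    refine Finset.sum_congr rfl fun x _ => ?_
    rw [norm_mul, Complex.norm_real, Real.norm_eq_abs]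
  have h2 : (∑ x, |δ x| * ‖μ x‖) ^ 2 ≤ (∑ x, |δ x| ^ 2) * ∑ x, ‖μ x‖ ^ 2 :=
    Finset.sum_mul_sq_le_sq_mul_sq _ _ _
  have h3 : ∑ x, ‖μ x‖ ^ 2 ≤ Fintype.card ι * B ^ 2 := by
    calc ∑ x, ‖μ x‖ ^ 2 ≤ ∑ _x : ι, B ^ 2 :=
          Finset.sum_le_sum fun x _ => pow_le_pow_left₀ (norm_nonneg _) (hμ x) 2
      _ = Fintype.card ι * B ^ 2 := by simp
  have h4 : ∑ x, |δ x| ^ 2 ≤ V := by
    simpa only [sq_abs] using hV
  have hV0 : 0 ≤ V := (Finset.sum_nonneg fun x _ => sq_nonneg (δ x)).trans hV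
  have h5 : (∑ x, |δ x| * ‖μ x‖) ^ 2 ≤ (√V * √(Fintype.card ι) * B) ^ 2 := by
    calc (∑ x, |δ x| * ‖μ x‖) ^ 2 ≤ _ := h2
      _ ≤ V * (Fintype.card ι * B ^ 2) := by
        apply mul_le_mul h4 h3 (Finset.sum_nonneg fun x _ => sq_nonneg _) hV0
      _ = (√V * √(Fintype.card ι) * B) ^ 2 := by
        rw [mul_pow, mul_pow, Real.sq_sqrt hV0, Real.sq_sqrt (Nat.cast_nonneg _)]
        ring
  exact h1.trans ((le_abs_self _).trans (abs_le_of_sq_le_sq h5 (by positivity)))

theorem exists_aux (F : ℤ[X][X]) (hF : Irreducible F) (q l T : ℕ) (hq : F.natDegree = q)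
    (hq0 : 0 < q) (hl : dx F = l) (hl0 : 1 ≤ l) (hT : 1 ≤ T) :
    ∃ A : ℤ[X][X], ¬ F ∣ A ∧ A.natDegree + 1 ≤ q * (T + 1) ∧ dx A + 1 ≤ (T + 2) * l ∧
      ∀ (m : ℕ) (α : ℂ), aeval α (F.eval (X ^ m)) = 0 →
        ‖aeval α (A.eval (X ^ m))‖ ≤
          (2 * Real.exp (-(T / 2 * mm (tC F))) * √(2 * (T + 1) * l * q) *
            √((T + 2) * l * (q * (T + 1)))) *
          (max 1 ‖α‖) ^ ((T + 2) * l - 1 + m * (q * (T + 1) - 1)) := by
  have hF0 : F ≠ 0 := hF.ne_zero
  set a := (T + 1) * l with ha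
  have ha0 : 0 < a := by positivity
  set I := (T + 2) * l with hI
  set J := q * (T + 1) with hJ
  set r := a * (T * q) with hr
  have hI0 : 0 < I := by positivity
  have hJ0 : 0 < J := by positivity
  have hIa : I = a + l := by rw [hI, ha]; ring
  have hJq : J = T * q + q := by rw [hJ]; ring
  have hjlt : ∀ j : Fin r, (j : ℕ) / a < T * q := fun j => Nat.div_lt_of_lt_mul j.2
  have hWI : ∀ j : Fin r, dx (WW F a j) < I := by
    intro j
    rw [dx_WW F hF0, hl, hIa]
    have := Nat.mod_lt (j : ℕ) ha0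
    omega
  have hWJ : ∀ j : Fin r, (WW F a j).natDegree < J := by
    intro j
    rw [natDegree_WW F hF0, hq, hJq]
    have := hjlt j
    omega
  set w : Fin r → Fin I × Fin J → ℤ := fun j x => ((WW F a j).coeff x.2).coeff x.1 with hw
  set κ := Real.exp (mm (tC F)) with hκ
  set ρ := 2 * Real.exp (-(T / 2 * mm (tC F))) with hρ
  have hcard : Fintype.card (Fin I × Fin J) = I * J := by simp
  have hIJ : I * J = r + 2 * (T + 1) * l * q := by
    rw [hI, hJ, hr, ha]; ring
  have hD : Fintype.card (Fin I × Fin J) - r = 2 * (T + 1) * l * q := by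
    rw [hcard, hIJ, Nat.add_sub_cancel_left]
  -- the norm hypothesis
  have hnorm : ∀ (i : Fin r) (c : Fin r → ℝ), c i = 1 → (∀ j, i < j → c j = 0) →
      κ ^ 2 ≤ ∑ x, (∑ j, c j * w j x) ^ 2 := by
    intro i c hci hcj
    have hlc := lexp_leadingCoeff ha0 (fun j => (c j : ℂ)) i (by simp [hci])
      (fun j hj => by simp [hcj j hj])
    have h1 := norm_lower (tC F) (lexp a fun j => (c j : ℂ)) (tC_ne_zero hF0) hlc
    rw [sum_sq_box (I := I) (J := J)] at h1
    · have h2 : κ ^ 2 = Real.exp (2 * mm (tC F)) := by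
        rw [hκ, ← Real.exp_nat_mul]; norm_num
      rw [h2]
      refine h1.trans (le_of_eq (Finset.sum_congr rfl fun x _ => ?_))
      rw [lexp_mul_tC, Complex.norm_real, Real.norm_eq_abs, sq_abs]
    · intro y x hx
      rw [lexp_mul_tC]
      norm_cast
      refine Finset.sum_eq_zero fun j _ => ?_
      rw [coeff_eq_zero_of_natDegree_lt]
      · simp
      · have h3 := natDegree_coeff_le_dx (WW F a j) y
        have h4 := hWI j
        omega
    · intro y hy
      ext x
      rw [lexp_mul_tC, coeff_zero]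
      norm_cast
      refine Finset.sum_eq_zero fun j _ => ?_
      rw [coeff_eq_zero_of_natDegree_lt (show (WW F a j).natDegree < y from
        (hWJ j).trans_le hy)]
      simp
  have hvol : 1 < κ ^ r * ρ ^ (Fintype.card (Fin I × Fin J) - r) := by
    rw [hD, hκ, hρ, mul_pow, ← Real.exp_nat_mul, ← Real.exp_nat_mul]
    have h1 : (r : ℝ) * mm (tC F) +
        ((2 * (T + 1) * l * q : ℕ) : ℝ) * (-(T / 2 * mm (tC F))) = 0 := by
      rw [hr, ha]
      push_cast
      ring
    have h2 : Real.exp ((r : ℝ) * mm (tC F)) * (2 ^ (2 * (T + 1) * l * q) *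
        Real.exp (((2 * (T + 1) * l * q : ℕ) : ℝ) * (-(T / 2 * mm (tC F))))) =
        2 ^ (2 * (T + 1) * l * q) := by
      rw [mul_left_comm, ← Real.exp_add, h1, Real.exp_zero, mul_one]
    rw [h2]
    apply one_lt_pow₀ (by norm_num)
    have : 0 < 2 * (T + 1) * l * q := by positivity
    omega
  obtain ⟨_, A, hA, t, ht⟩ := exists_lattice w κ ρ (Real.exp_pos _) (by positivity) hnorm hvol
  rw [hD] at ht
  refine ⟨box A, ?_, ?_, ?_, ?_⟩
  · rintro ⟨G, hG⟩
    have hA0 : box A ≠ 0 := by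
      intro h0
      apply hA 0
      funext x
      have h1 := coeff_coeff_box A (x.1 : ℕ) (x.2 : ℕ)
      rw [h0, dif_pos ⟨x.1.2, x.2.2⟩] at h1
      simp only [coeff_zero] at h1
      simpa using h1.symm
    have hG0 : G ≠ 0 := by
      rintro rfl
      exact hA0 (by rw [hG, mul_zero])
    have h1 : G.natDegree < T * q := by
      have h2 := natDegree_box_lt hJ0 A
      rw [hG, natDegree_mul hF0 hG0, hq] at h2
      omega
    have h3 : dx G < a := by
      have h2 := dx_box_lt hI0 A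
      rw [hG, dx_mul F G hF0 hG0, hl] at h2
      omega
    have h4 : G = lexp a (fun j : Fin r => (G.coeff ((j : ℕ) / a)).coeff ((j : ℕ) % a)) := by
      ext y x
      rw [coeff_coeff_lexp a ha0]
      split_ifs with h
      · have h5 : (x + a * y) / a = y := by
          rw [Nat.add_mul_div_left _ _ ha0, Nat.div_eq_of_lt h.1, zero_add]
        have h6 : (x + a * y) % a = x := by
          rw [Nat.add_mul_mod_self_left, Nat.mod_eq_of_lt h.1]
        simp only [h5, h6]
      · by_cases hx : x < a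
        · have h5 : ¬ x + a * y < r := fun h' => h ⟨hx, h'⟩
          have h6 : T * q ≤ y := by
            by_contra hcon
            push Not at hcon
            apply h5
            calc x + a * y < a + a * y := by omega
              _ = a * (y + 1) := by ring
              _ ≤ a * (T * q) := Nat.mul_le_mul_left a hcon
          rw [coeff_eq_zero_of_natDegree_lt (h1.trans_le h6), coeff_zero]
        · apply coeff_eq_zero_of_natDegree_lt
          have := natDegree_coeff_le_dx G y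
          omega
    apply hA fun j => (G.coeff ((j : ℕ) / a)).coeff ((j : ℕ) % a)
    funext x
    have h5 := coeff_coeff_box A (x.1 : ℕ) (x.2 : ℕ)
    rw [dif_pos ⟨x.1.2, x.2.2⟩] at h5
    have h6 : A x = ((box A).coeff x.2).coeff x.1 := by rw [h5]
    rw [h6, hG, mul_comm, h4, lexp_mul, ← h4]
  · exact natDegree_box_lt hJ0 A
  · exact dx_box_lt hI0 A
  · intro m α hα
    have hev : ∀ j : Fin r, ∑ x, (w j x : ℂ) * α ^ ((x.1 : ℕ) + m * (x.2 : ℕ)) = 0 := by
      intro j
      rw [← eval_box, hw]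
      simp only
      rw [box_self (WW F a j) (hWI j) (hWJ j), WW, eval_mul, map_mul, hα, mul_zero]
    have h1 : aeval α ((box A).eval (X ^ m)) =
        ∑ x, (((A x : ℝ) - ∑ j, t j * w j x : ℝ) : ℂ) * α ^ ((x.1 : ℕ) + m * (x.2 : ℕ)) := by
      rw [eval_box]
      have h2 : ∑ x : Fin I × Fin J, ((∑ j, t j * w j x : ℝ) : ℂ) *
          α ^ ((x.1 : ℕ) + m * (x.2 : ℕ)) = 0 := by
        have h3 : ∀ x : Fin I × Fin J, ((∑ j, t j * w j x : ℝ) : ℂ) *
            α ^ ((x.1 : ℕ) + m * (x.2 : ℕ)) =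
            ∑ j, (t j : ℂ) * ((w j x : ℂ) * α ^ ((x.1 : ℕ) + m * (x.2 : ℕ))) := by
          intro x
          push_cast
          rw [Finset.sum_mul]
          refine Finset.sum_congr rfl fun j _ => ?_
          ring
        simp only [h3]
        rw [Finset.sum_comm]
        refine Finset.sum_eq_zero fun j _ => ?_
        rw [← Finset.mul_sum, hev j, mul_zero]
      rw [← sub_zero (∑ x, (A x : ℂ) * α ^ ((x.1 : ℕ) + m * (x.2 : ℕ))), ← h2,
        ← Finset.sum_sub_distrib]
      refine Finset.sum_congr rfl fun x _ => ?_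
      push_cast
      ring
    rw [h1]
    have hB : ∀ x : Fin I × Fin J, ‖α ^ ((x.1 : ℕ) + m * (x.2 : ℕ))‖ ≤
        (max 1 ‖α‖) ^ (I - 1 + m * (J - 1)) := by
      intro x
      rw [norm_pow]
      have hx1 := x.1.2
      have hx2 := x.2.2
      calc ‖α‖ ^ ((x.1 : ℕ) + m * (x.2 : ℕ)) ≤ (max 1 ‖α‖) ^ ((x.1 : ℕ) + m * (x.2 : ℕ)) := by
            gcongr; exact le_max_right _ _
        _ ≤ _ := by
            apply pow_le_pow_right₀ (le_max_left _ _)
            apply add_le_add (by omega)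
            exact Nat.mul_le_mul_left m (by omega)
    have h2 := cs_bound (fun x => (A x : ℝ) - ∑ j, t j * w j x) _ _ _ (by positivity) ht hB
    refine h2.trans (le_of_eq ?_)
    rw [hcard, Real.sqrt_mul (by positivity), Real.sqrt_sq (by positivity)]
    push_cast
    rw [hI, hJ]
    push_cast
    rfl

end Pool.Agent.Lib.MP_7ab245_nt.Blk
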