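import Mathlib
import Pool.Agent.Lib.MP_7ab245_nt.Blk.Defs

set_option autoImplicit false

open Polynomial Real MeasureTheory

namespace Pool.Agent.Lib.MP_7ab245_nt.Blk

lemma circleAverage_comp_pow (f : ℂ → ℝ) (hf : CircleIntegrable f 0 1) (m : ℕ) (hm : 0 < m) :
    Real.circleAverage (fun z => f (z ^ m)) 0 1 = Real.circleAverage f 0 1 := by
  have hmR : (0 : ℝ) < m := by exact_mod_cast hm
  rw [Real.circleAverage_def, Real.circleAverage_def]
  congr 1
  set g : ℝ → ℝ := fun θ => f (circleMap 0 1 θ) with hg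
  have hper : Function.Periodic g (2 * π) := by
    intro θ
    simp only [hg]
    rw [periodic_circleMap 0 1 θ]
  have h1 : ∀ θ : ℝ, f ((circleMap 0 1 θ) ^ m) = g (m * θ) := by
    intro θ
    simp only [hg]
    congr 1
    rw [circleMap, circleMap, zero_add, zero_add, mul_pow, ← Complex.exp_nat_mul]
    push_cast
    rw [one_pow]
    ring_nf
  simp only [h1]
  rw [intervalIntegral.integral_comp_mul_left g hmR.ne', mul_zero]
  have hint : ∀ t₁ t₂, IntervalIntegrable g volume t₁ t₂ := by
    intro t₁ t₂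
    exact hper.intervalIntegrable₀ Real.two_pi_pos.ne' hf t₁ t₂
  have h2 := hper.intervalIntegral_add_zsmul_eq (m : ℤ) 0 hint
  rw [zero_add, zero_add, zsmul_eq_mul, zsmul_eq_mul] at h2
  push_cast at h2
  rw [h2, smul_eq_mul, ← mul_assoc, inv_mul_cancel₀ hmR.ne', one_mul]

lemma logMahler_expand (g : ℂ[X]) (m : ℕ) (hm : 0 < m) :
    (expand ℂ m g).logMahlerMeasure = g.logMahlerMeasure := by
  rw [logMahlerMeasure_def, logMahlerMeasure_def]
  have := circleAverage_comp_pow (fun z => Real.log ‖g.eval z‖)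
    g.intervalIntegrable_mahlerMeasure m hm
  rw [← this]
  congr 1
  funext z
  rw [expand_eval]

end Pool.Agent.Lib.MP_7ab245_nt.Blk
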