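import Mathlib
import Pool.Agent.Lib.MP_7ab245_nt.Blk.XDeg
import Pool.Agent.Lib.MP_7ab245_nt.Blk.Factors

set_option autoImplicit false

open Polynomial Real

namespace Pool.Agent.Lib.MP_7ab245_nt.Blk

/-- the derivation `x ∂/∂x + m y ∂/∂y` -/
noncomputable def der (m : ℕ) (F : ℤ[X][X]) : ℤ[X][X] :=
  ∑ j ∈ Finset.range (F.natDegree + 1),
    monomial j (X * derivative (F.coeff j) + C ((m * j : ℕ) : ℤ) * F.coeff j)

lemma coeff_der (m : ℕ) (F : ℤ[X][X]) (j : ℕ) :
    (der m F).coeff j = X * derivative (F.coeff j) + C ((m * j : ℕ) : ℤ) * F.coeff j := by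
  unfold der
  rw [finsetSum_coeff]
  by_cases hj : j ∈ Finset.range (F.natDegree + 1)
  · rw [Finset.sum_eq_single_of_mem j hj]
    · rw [coeff_monomial, if_pos rfl]
    · intro b _ hb
      rw [coeff_monomial, if_neg hb]
  · have h0 : F.coeff j = 0 := by
      apply coeff_eq_zero_of_natDegree_lt
      simp only [Finset.mem_range, not_lt] at hj
      omega
    rw [Finset.sum_eq_zero]
    · rw [h0]; simp
    · intro b hb
      rw [coeff_monomial, if_neg]
      rintro rfl
      exact hj hb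

lemma coeff_coeff_der (m : ℕ) (F : ℤ[X][X]) (i j : ℕ) :
    ((der m F).coeff j).coeff i = ((i : ℤ) + m * j) * (F.coeff j).coeff i := by
  rw [coeff_der, coeff_add, coeff_C_mul]
  cases i with
  | zero => simp
  | succ i =>
    rw [coeff_X_mul, coeff_derivative]
    push_cast
    ring

lemma natDegree_der_le (m : ℕ) (F : ℤ[X][X]) : (der m F).natDegree ≤ F.natDegree := by
  rw [natDegree_le_iff_coeff_eq_zero]
  intro j hj
  rw [coeff_der, coeff_eq_zero_of_natDegree_lt hj]
  simp

lemma dx_der_le (m : ℕ) (F : ℤ[X][X]) : dx (der m F) ≤ dx F := by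
  rw [dx_le_iff]
  intro j
  rw [natDegree_le_iff_coeff_eq_zero]
  intro i hi
  rw [coeff_coeff_der, coeff_eq_zero_of_natDegree_lt ((natDegree_coeff_le_dx F j).trans_lt hi),
    mul_zero]

lemma eval_der (m : ℕ) (F : ℤ[X][X]) :
    (der m F).eval (X ^ m) = X * derivative (F.eval (X ^ m)) := by
  unfold der
  rw [eval_finsetSum]
  conv_rhs => rw [F.eval_eq_sum_range, map_sum, Finset.mul_sum]
  refine Finset.sum_congr rfl fun j _ => ?_
  rw [eval_monomial, derivative_mul, ← pow_mul, derivative_X_pow]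
  rcases Nat.eq_zero_or_pos (m * j) with h | h
  · rw [h]; simp
  · obtain ⟨e, he⟩ : ∃ e, m * j = e + 1 := ⟨m * j - 1, by omega⟩
    rw [he, Nat.add_sub_cancel, pow_succ]
    ring

lemma der_not_dvd (m : ℕ) (F : ℤ[X][X]) (hF : Irreducible F) (hdeg : 0 < F.natDegree)
    (h1 : 1 ≤ dx F) (hm : dx F < m) : ¬ F ∣ der m F := by
  rintro ⟨G, hG⟩
  have hF0 : F ≠ 0 := hF.ne_zero
  obtain ⟨c, hc⟩ : ∃ c : ℤ, ∀ i j : ℕ, ((i : ℤ) + m * j) * (F.coeff j).coeff i =
      c * (F.coeff j).coeff i := by
    by_cases hG0 : G = 0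
    · refine ⟨0, fun i j => ?_⟩
      rw [← coeff_coeff_der, hG, hG0]
      simp
    · have h2 : G.natDegree = 0 := by
        have h3 := natDegree_der_le m F
        rw [hG, natDegree_mul hF0 hG0] at h3
        omega
      have h4 : dx G = 0 := by
        have h3 := dx_der_le m F
        rw [hG, dx_mul F G hF0 hG0] at h3
        omega
      have h5 : G = C (C ((G.coeff 0).coeff 0)) := by
        have h6 : G = C (G.coeff 0) := eq_C_of_natDegree_eq_zero h2
        have h7 : (G.coeff 0).natDegree = 0 := by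
          have := natDegree_coeff_le_dx G 0
          omega
        have h8 : G.coeff 0 = C ((G.coeff 0).coeff 0) := eq_C_of_natDegree_eq_zero h7
        rw [← h8, ← h6]
      refine ⟨(G.coeff 0).coeff 0, fun i j => ?_⟩
      rw [← coeff_coeff_der, hG, h5, mul_comm F, coeff_C_mul, coeff_C_mul]
      simp
  -- all monomials have the same weight
  have hw : ∀ i j : ℕ, (F.coeff j).coeff i ≠ 0 → ((i : ℤ) + m * j) = c := by
    intro i j hij
    exact mul_right_cancel₀ hij (hc i j)
  have hi : ∀ i j : ℕ, (F.coeff j).coeff i ≠ 0 → i < m := by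
    intro i j hij
    have := le_natDegree_of_ne_zero hij
    have := natDegree_coeff_le_dx F j
    omega
  have hlc : F.coeff F.natDegree ≠ 0 := by
    rw [coeff_natDegree]; exact leadingCoeff_ne_zero.mpr hF0
  obtain ⟨i0, hi0⟩ : ∃ i, (F.coeff F.natDegree).coeff i ≠ 0 := by
    by_contra hcon
    push Not at hcon
    exact hlc (Polynomial.ext (by simpa using hcon))
  have huniq : ∀ i j : ℕ, (F.coeff j).coeff i ≠ 0 → j = F.natDegree := by
    intro i j hij
    have h2 := hw i j hij
    have h3 := hw i0 _ hi0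
    have h4 := hi i j hij
    have h5 := hi i0 _ hi0
    have h6 : i + m * j = i0 + m * F.natDegree := by
      have : ((i : ℤ) + m * j) = (i0 : ℤ) + m * F.natDegree := by rw [h2, h3]
      exact_mod_cast this
    have h7 : (i + m * j) / m = j := by
      rw [Nat.add_mul_div_left _ _ (by omega), Nat.div_eq_of_lt h4, zero_add]
    have h8 : (i0 + m * F.natDegree) / m = F.natDegree := by
      rw [Nat.add_mul_div_left _ _ (by omega), Nat.div_eq_of_lt h5, zero_add]
    rw [← h7, h6, h8]
  have h0 : F.coeff 0 = 0 := by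
    ext i
    by_contra hne
    rw [coeff_zero] at hne
    have := huniq i 0 hne
    omega
  have hX : (X : ℤ[X][X]) ∣ F := X_dvd_iff.mpr h0
  have hass : Associated (X : ℤ[X][X]) F :=
    (prime_X.irreducible).associated_of_dvd hF hX
  obtain ⟨u, hu⟩ := hass
  have hu0 : (u : ℤ[X][X]) ≠ 0 := u.ne_zero
  have h9 : (u : ℤ[X][X]).natDegree = 0 := natDegree_eq_zero_of_isUnit u.isUnit
  have h10 : (u : ℤ[X][X]) = C ((u : ℤ[X][X]).coeff 0) := eq_C_of_natDegree_eq_zero h9
  have h11 : IsUnit ((u : ℤ[X][X]).coeff 0) := by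
    rw [← isUnit_C, ← h10]; exact u.isUnit
  have h12 : ((u : ℤ[X][X]).coeff 0).natDegree = 0 := natDegree_eq_zero_of_isUnit h11
  have h13 : dx F ≤ 0 := by
    rw [dx_le_iff]
    intro j
    rw [← hu, h10, mul_comm, coeff_C_mul, coeff_X]
    split_ifs
    · rw [mul_one, h12]
    · simp
  omega

end Pool.Agent.Lib.MP_7ab245_nt.Blk
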