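import Mathlib

/-!
The curve `(z, z^M)` equidistributes in the torus.
-/

set_option autoImplicit false

open Polynomial Filter Topology Real

namespace Pool.Agent.Lib.MP_7ab245_nt.Blk

/-- the function of two angles -/
private noncomputable def equiG (φ : ℂ → ℂ → ℝ) (a b : ℝ) : ℝ :=
  φ (circleMap 0 1 a) (circleMap 0 1 b)

private lemma equiG_cont (φ : ℂ → ℂ → ℝ) (hφ : Continuous fun p : ℂ × ℂ => φ p.1 p.2) :
    Continuous (Function.uncurry (equiG φ)) := by
  have h : Function.uncurry (equiG φ)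
      = (fun p : ℂ × ℂ => φ p.1 p.2) ∘
        (fun q : ℝ × ℝ => (circleMap 0 1 q.1, circleMap 0 1 q.2)) := by
    ext ⟨a, b⟩; rfl
  rw [h]
  exact hφ.comp (((continuous_circleMap 0 1).comp continuous_fst).prodMk
    ((continuous_circleMap 0 1).comp continuous_snd))

private lemma equi_shift (f : ℝ → ℝ) (hf : Function.Periodic f (2 * π)) (a : ℝ) :
    ∫ θ in (0 : ℝ)..(2 * π), f (θ + a) = ∫ θ in (0 : ℝ)..(2 * π), f θ := by
  rw [intervalIntegral.integral_comp_add_right]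
  have := hf.intervalIntegral_add_eq a 0
  rw [zero_add, add_comm (2 * π) a, this]
  simp

/-- The curve `(z, z^M)` equidistributes in the torus. -/
theorem equidist (φ : ℂ → ℂ → ℝ) (hφ : Continuous fun p : ℂ × ℂ => φ p.1 p.2) :
    Tendsto (fun M : ℕ => Real.circleAverage (fun z => φ z (z ^ M)) 0 1) atTop
      (𝓝 (Real.circleAverage (fun z => Real.circleAverage (fun w => φ z w) 0 1) 0 1)) := by
  have hG := equiG_cont φ hφ
  have hpi : (0 : ℝ) < 2 * π := by positivity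
  have hper1 : ∀ b, Function.Periodic (fun a => equiG φ a b) (2 * π) := by
    intro b a
    simp only [equiG]
    rw [periodic_circleMap 0 1 a]
  have hper2 : ∀ a, Function.Periodic (fun b => equiG φ a b) (2 * π) := by
    intro a b
    simp only [equiG]
    rw [periodic_circleMap 0 1 b]
  -- rewriting of the averages
  have hA : ∀ M : ℕ, Real.circleAverage (fun z => φ z (z ^ M)) 0 1
      = (2 * π)⁻¹ * ∫ θ in (0 : ℝ)..(2 * π), equiG φ θ (M * θ) := by
    intro M
    rw [Real.circleAverage, smul_eq_mul]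
    congr 1
    refine intervalIntegral.integral_congr (fun θ _ => ?_)
    simp only [equiG]
    congr 1
    simp only [circleMap, zero_add, Complex.ofReal_one, one_mul]
    rw [← Complex.exp_nat_mul]
    congr 1
    push_cast; ring
  have hB : Real.circleAverage (fun z => Real.circleAverage (fun w => φ z w) 0 1) 0 1
      = (2 * π)⁻¹ * ((2 * π)⁻¹ * ∫ θ in (0 : ℝ)..(2 * π), ∫ ψ in (0 : ℝ)..(2 * π), equiG φ θ ψ) := by
    rw [Real.circleAverage, smul_eq_mul]
    congr 1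
    simp only [Real.circleAverage, smul_eq_mul]
    rw [intervalIntegral.integral_const_mul]
    rfl
  -- the shifted form
  have hA2 : ∀ M : ℕ, 0 < M → ∀ ψ : ℝ, ∫ θ in (0 : ℝ)..(2 * π), equiG φ θ (M * θ)
      = ∫ θ in (0 : ℝ)..(2 * π), equiG φ (θ + ψ / M) (M * θ + ψ) := by
    intro M hM ψ
    have hper : Function.Periodic (fun θ : ℝ => equiG φ θ (M * θ)) (2 * π) := by
      intro θ
      simp only
      have e1 : (M : ℝ) * (θ + 2 * π) = M * θ + M * (2 * π) := by ring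
      rw [e1]
      have e2 := (hper2 (θ + 2 * π)).nat_mul M (M * θ)
      rw [e2]
      exact hper1 (M * θ) θ
    rw [← equi_shift _ hper (ψ / M)]
    refine intervalIntegral.integral_congr (fun θ _ => ?_)
    have hM' : (M : ℝ) ≠ 0 := by positivity
    congr 1
    field_simp
  have hB2 : ∀ M : ℕ, ∫ θ in (0 : ℝ)..(2 * π), ∫ ψ in (0 : ℝ)..(2 * π), equiG φ θ ψ
      = ∫ ψ in (0 : ℝ)..(2 * π), ∫ θ in (0 : ℝ)..(2 * π), equiG φ θ (M * θ + ψ) := by
    intro M
    have h1 : ∫ θ in (0 : ℝ)..(2 * π), ∫ ψ in (0 : ℝ)..(2 * π), equiG φ θ ψ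
        = ∫ θ in (0 : ℝ)..(2 * π), ∫ ψ in (0 : ℝ)..(2 * π), equiG φ θ (M * θ + ψ) := by
      refine intervalIntegral.integral_congr (fun θ _ => ?_)
      rw [← equi_shift _ (hper2 θ) (M * θ)]
      refine intervalIntegral.integral_congr (fun ψ _ => ?_)
      rw [add_comm]
    rw [h1]
    refine MeasureTheory.intervalIntegral_intervalIntegral_swap ?_
    have hc : Continuous (Function.uncurry fun θ ψ : ℝ => equiG φ θ (M * θ + ψ)) := by
      have : (Function.uncurry fun θ ψ : ℝ => equiG φ θ (M * θ + ψ))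
          = (Function.uncurry (equiG φ)) ∘ (fun q : ℝ × ℝ => (q.1, M * q.1 + q.2)) := by
        ext ⟨a, b⟩; rfl
      rw [this]
      exact hG.comp (by fun_prop)
    have hK : IsCompact (Set.Icc (0 : ℝ) (2 * π) ×ˢ Set.Icc (0 : ℝ) (2 * π)) :=
      isCompact_Icc.prod isCompact_Icc
    refine (hc.continuousOn.integrableOn_compact hK).mono_set ?_
    rw [Set.uIoc_of_le hpi.le]
    exact Set.prod_mono Set.Ioc_subset_Icc_self Set.Ioc_subset_Icc_self
  -- uniform continuity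
  rw [Metric.tendsto_atTop]
  intro ε hε
  have hKc : IsCompact (Metric.closedBall (0 : ℂ) 1 ×ˢ Metric.closedBall (0 : ℂ) 1) :=
    (isCompact_closedBall _ _).prod (isCompact_closedBall _ _)
  have huc := hKc.uniformContinuousOn_of_continuous hφ.continuousOn
  rw [Metric.uniformContinuousOn_iff] at huc
  obtain ⟨δ, hδ, huc⟩ := huc (ε / 2) (by positivity)
  obtain ⟨M0, hM0⟩ := exists_nat_gt (2 * π / δ)
  refine ⟨M0 + 1, fun M hM => ?_⟩
  have hMpos : 0 < M := by omega
  have hMr : (0 : ℝ) < M := by exact_mod_cast hMpos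
  have hMδ : 2 * π / M < δ := by
    have h1 : (M0 : ℝ) < M := by exact_mod_cast (by omega : M0 < M)
    rw [div_lt_iff₀ hδ] at hM0
    rw [div_lt_iff₀ hMr]
    nlinarith
  have hclose : ∀ θ ψ b : ℝ, 0 ≤ ψ → ψ ≤ 2 * π →
      |equiG φ (θ + ψ / M) b - equiG φ θ b| ≤ ε / 2 := by
    intro θ ψ b h0 h1
    have hmem : ∀ a b : ℝ, ((circleMap 0 1 a, circleMap 0 1 b) : ℂ × ℂ) ∈
        (Metric.closedBall (0 : ℂ) 1 ×ˢ Metric.closedBall (0 : ℂ) 1) := by
      intro a b
      constructor <;> exact circleMap_mem_closedBall _ (by norm_num) _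
    have hd : dist ((circleMap 0 1 (θ + ψ / M), circleMap 0 1 b) : ℂ × ℂ)
        (circleMap 0 1 θ, circleMap 0 1 b) < δ := by
      rw [Prod.dist_eq, max_lt_iff]
      refine ⟨?_, by rw [dist_self]; exact hδ⟩
      have hl := (lipschitzWith_circleMap 0 1).dist_le_mul (θ + ψ / M) θ
      have hr : ((Real.nnabs 1 : NNReal) : ℝ) = 1 := by simp
      rw [hr, one_mul] at hl
      refine lt_of_le_of_lt hl ?_
      rw [Real.dist_eq, add_sub_cancel_left, abs_of_nonneg (by positivity)]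
      refine lt_of_le_of_lt ?_ hMδ
      gcongr
    have h2 := huc _ (hmem (θ + ψ / M) b) _ (hmem θ b) hd
    rw [Real.dist_eq] at h2
    exact h2.le
  rw [hA, hB, hB2 M]
  -- 2π A = ∫ψ ∫θ ...
  have hA3 : (2 * π) * ∫ θ in (0 : ℝ)..(2 * π), equiG φ θ (M * θ)
      = ∫ ψ in (0 : ℝ)..(2 * π), ∫ θ in (0 : ℝ)..(2 * π), equiG φ (θ + ψ / M) (M * θ + ψ) := by
    rw [← intervalIntegral.integral_congr (fun ψ _ => hA2 M hMpos ψ)]
    simp
  have hc1 : Continuous (fun q : ℝ × ℝ => equiG φ (q.2 + q.1 / M) (M * q.2 + q.1)) := by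
    have : (fun q : ℝ × ℝ => equiG φ (q.2 + q.1 / M) (M * q.2 + q.1))
        = (Function.uncurry (equiG φ)) ∘ (fun q : ℝ × ℝ => (q.2 + q.1 / M, M * q.2 + q.1)) := by
      ext ⟨a, b⟩; rfl
    rw [this]
    exact hG.comp (by fun_prop)
  have hc2 : Continuous (fun q : ℝ × ℝ => equiG φ q.2 (M * q.2 + q.1)) := by
    have : (fun q : ℝ × ℝ => equiG φ q.2 (M * q.2 + q.1))
        = (Function.uncurry (equiG φ)) ∘ (fun q : ℝ × ℝ => (q.2, M * q.2 + q.1)) := by
      ext ⟨a, b⟩; rfl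
    rw [this]
    exact hG.comp (by fun_prop)
  have hI1 : Continuous (fun ψ : ℝ => ∫ θ in (0 : ℝ)..(2 * π),
      equiG φ (θ + ψ / M) (M * θ + ψ)) :=
    intervalIntegral.continuous_parametric_intervalIntegral_of_continuous' (f := fun ψ θ =>
      equiG φ (θ + ψ / M) (M * θ + ψ)) hc1 0 (2 * π)
  have hI2 : Continuous (fun ψ : ℝ => ∫ θ in (0 : ℝ)..(2 * π), equiG φ θ (M * θ + ψ)) :=
    intervalIntegral.continuous_parametric_intervalIntegral_of_continuous' (f := fun ψ θ =>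
      equiG φ θ (M * θ + ψ)) hc2 0 (2 * π)
  have hdiff : |(∫ ψ in (0 : ℝ)..(2 * π), ∫ θ in (0 : ℝ)..(2 * π),
        equiG φ (θ + ψ / M) (M * θ + ψ))
      - ∫ ψ in (0 : ℝ)..(2 * π), ∫ θ in (0 : ℝ)..(2 * π), equiG φ θ (M * θ + ψ)|
      ≤ (ε / 2 * (2 * π)) * (2 * π) := by
    rw [← intervalIntegral.integral_sub (hI1.intervalIntegrable _ _) (hI2.intervalIntegrable _ _)]
    have h := intervalIntegral.norm_integral_le_of_norm_le_const (a := 0) (b := 2 * π)
      (C := ε / 2 * (2 * π)) (f := fun ψ => (∫ θ in (0 : ℝ)..(2 * π),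
        equiG φ (θ + ψ / M) (M * θ + ψ)) - ∫ θ in (0 : ℝ)..(2 * π), equiG φ θ (M * θ + ψ)) ?_
    · rw [Real.norm_eq_abs, sub_zero, abs_of_pos hpi] at h
      exact h
    · intro ψ hψ
      rw [Set.uIoc_of_le hpi.le] at hψ
      have e1 : Continuous (fun θ : ℝ => equiG φ (θ + ψ / M) (M * θ + ψ)) :=
        hc1.comp (by fun_prop : Continuous fun θ : ℝ => (ψ, θ))
      have e2 : Continuous (fun θ : ℝ => equiG φ θ (M * θ + ψ)) :=
        hc2.comp (by fun_prop : Continuous fun θ : ℝ => (ψ, θ))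
      rw [← intervalIntegral.integral_sub (e1.intervalIntegrable _ _) (e2.intervalIntegrable _ _)]
      have h := intervalIntegral.norm_integral_le_of_norm_le_const (a := 0) (b := 2 * π)
        (C := ε / 2) (f := fun θ => equiG φ (θ + ψ / M) (M * θ + ψ) - equiG φ θ (M * θ + ψ)) ?_
      · rw [sub_zero, abs_of_pos hpi] at h
        exact h
      · intro θ _
        rw [Real.norm_eq_abs]
        exact hclose θ ψ _ hψ.1.le hψ.2
  rw [Real.dist_eq]
  set A := ∫ θ in (0 : ℝ)..(2 * π), equiG φ θ (M * θ)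
  set B := ∫ ψ in (0 : ℝ)..(2 * π), ∫ θ in (0 : ℝ)..(2 * π), equiG φ θ (M * θ + ψ)
  rw [← hA3] at hdiff
  have e : (2 * π)⁻¹ * A - (2 * π)⁻¹ * ((2 * π)⁻¹ * B)
      = (2 * π)⁻¹ * (2 * π)⁻¹ * ((2 * π) * A - B) := by
    field_simp
  rw [e, abs_mul, abs_of_pos (by positivity)]
  calc (2 * π)⁻¹ * (2 * π)⁻¹ * |2 * π * A - B|
      ≤ (2 * π)⁻¹ * (2 * π)⁻¹ * ((ε / 2 * (2 * π)) * (2 * π)) :=
        mul_le_mul_of_nonneg_left hdiff (by positivity)
    _ = ε / 2 := by field_simp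
    _ < ε := by linarith

end Pool.Agent.Lib.MP_7ab245_nt.Blk
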