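import Mathlib
import Pool.Agent.Lib.MP_7ab245_nt.LogVar.Var
import Pool.Agent.Lib.MP_7ab245_nt.Blk.Defs

/-!
Small values of complex polynomials with few terms on the unit circle (from `LogVar.Var`).
-/

set_option autoImplicit false

open MeasureTheory Real Polynomial

namespace Pool.Agent.Lib.MP_7ab245_nt.Blk

open Pool.Agent.Lib.MP_7ab245_nt.Mono
open Pool.Agent.Lib.MP_7ab245_nt.LogVar

/-- the scaled coefficients of a polynomial -/
noncomputable def smC (P : ℂ[X]) (lam : ℝ) : P.support → ℂ :=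
  fun j => (lam : ℂ) * P.coeff (j : ℕ)

/-- the exponents of a polynomial -/
noncomputable def smE (P : ℂ[X]) : P.support → ℤ := fun j => ((j : ℕ) : ℤ)

lemma smE_inj (P : ℂ[X]) : Function.Injective (smE P) := by
  intro i j h
  unfold smE at h
  exact Subtype.ext (by exact_mod_cast h)

lemma sm_ls (P : ℂ[X]) (lam : ℝ) (z : ℂ) : ls (smC P lam) (smE P) z = lam * P.eval z := by
  unfold ls smC smE
  rw [Polynomial.eval_eq_sum, Polynomial.sum, Finset.mul_sum,
    ← Finset.sum_coe_sort P.support (fun n => (lam : ℂ) * (P.coeff n * z ^ n))]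
  refine Finset.sum_congr rfl (fun j _ => ?_)
  rw [zpow_natCast, mul_assoc]

lemma sm_hh (P : ℂ[X]) (lam : ℝ) (hlam : 0 < lam) (θ : ℝ) :
    hh (smC P lam) (smE P) θ = lam * ‖P.eval (circleMap 0 1 θ)‖ := by
  unfold hh
  rw [sm_ls, norm_mul, Complex.norm_real, Real.norm_of_nonneg hlam.le]

lemma sm_card (P : ℂ[X]) : Fintype.card P.support = P.support.card := Fintype.card_coe _

lemma sm_sum (P : ℂ[X]) (lam : ℝ) (hlam : 0 < lam) :
    ∑ j, ‖smC P lam j‖ = lam * ∑ j ∈ P.support, ‖P.coeff j‖ := by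
  unfold smC
  rw [Finset.mul_sum, ← Finset.sum_coe_sort P.support (fun n => lam * ‖P.coeff n‖)]
  refine Finset.sum_congr rfl (fun j _ => ?_)
  rw [norm_mul, Complex.norm_real, Real.norm_of_nonneg hlam.le]

/-- a largest coefficient -/
lemma sm_max (P : ℂ[X]) (hP : P ≠ 0) : ∃ m ∈ P.support, 0 < ‖P.coeff m‖ ∧
    ∀ j ∈ P.support, ‖P.coeff j‖ ≤ ‖P.coeff m‖ := by
  have hne : P.support.Nonempty := Polynomial.support_nonempty.mpr hP
  obtain ⟨m, hm, hmax⟩ := Finset.exists_max_image P.support (fun j => ‖P.coeff j‖) hne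
  exact ⟨m, hm, norm_pos_iff.mpr (Polynomial.mem_support_iff.mp hm), hmax⟩

lemma sm_zero (P : ℂ[X]) (hP : P ≠ 0) : ∀ᵐ θ ∂mu, 0 < ‖P.eval (circleMap 0 1 θ)‖ := by
  obtain ⟨m, hm, hpos, -⟩ := sm_max P hP
  have hk : 1 ≤ P.support.card := Finset.card_pos.mpr ⟨m, hm⟩
  have hlam : 0 < ‖P.coeff m‖⁻¹ := inv_pos.mpr hpos
  have h1 : 1 ≤ ‖smC P ‖P.coeff m‖⁻¹ ⟨m, hm⟩‖ := by
    unfold smC
    rw [norm_mul, Complex.norm_real, Real.norm_of_nonneg hlam.le, inv_mul_cancel₀ hpos.ne']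
  have h2 := mu_zero P.support.card hk (sm_card P).le (smC P ‖P.coeff m‖⁻¹) (smE P) (smE_inj P)
    ⟨m, hm⟩ h1
  filter_upwards [h2] with θ hθ
  rw [sm_hh P _ hlam] at hθ
  exact pos_of_mul_pos_right hθ hlam.le

lemma sm_log_integrable (P : ℂ[X]) :
    Integrable (fun θ => Real.log ‖P.eval (circleMap 0 1 θ)‖) mu := by
  have h := log_integrable (smC P 1) (smE P)
  simpa only [sm_hh P 1 one_pos, one_mul] using h

lemma sm_sq_integrable (P : ℂ[X]) (hP : P ≠ 0) :
    Integrable (fun θ => Real.log ‖P.eval (circleMap 0 1 θ)‖ ^ 2) mu := by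
  obtain ⟨m, hm, hpos, -⟩ := sm_max P hP
  have hk : 1 ≤ P.support.card := Finset.card_pos.mpr ⟨m, hm⟩
  set lam : ℝ := ‖P.coeff m‖⁻¹ with hlamdef
  have hlam : 0 < lam := inv_pos.mpr hpos
  have h1 : 1 ≤ ‖smC P lam ⟨m, hm⟩‖ := by
    unfold smC
    rw [norm_mul, Complex.norm_real, Real.norm_of_nonneg hlam.le, inv_mul_cancel₀ hpos.ne']
  have h2 := log_sq_integrable P.support.card hk (sm_card P).le (smC P lam) (smE P) (smE_inj P)
    ⟨m, hm⟩ h1
  have h3 : Integrable (fun θ => Real.log (hh (smC P lam) (smE P) θ) ^ 2 -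
      2 * Real.log lam * Real.log ‖P.eval (circleMap 0 1 θ)‖ - Real.log lam ^ 2) mu :=
    (h2.sub ((sm_log_integrable P).const_mul _)).sub (integrable_const _)
  refine h3.congr ?_
  filter_upwards [sm_zero P hP] with θ hθ
  rw [sm_hh P lam hlam, Real.log_mul hlam.ne' hθ.ne']
  ring

theorem log_sq_circleIntegrable (P : ℂ[X]) (hP : P ≠ 0) :
    CircleIntegrable (fun z => Real.log ‖P.eval z‖ ^ 2) 0 1 :=
  (circleIntegrable_iff _).mpr (sm_sq_integrable P hP)

lemma sm_log15 (k : ℕ) (hk : 1 ≤ k) : Real.log (15 * k) ≤ 5 * Real.log (k + 1) := by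
  have hk0 : (0 : ℝ) < k := by exact_mod_cast hk
  have hk1 : (1 : ℝ) ≤ k := by exact_mod_cast hk
  have h1 : Real.log (15 * k) = Real.log 15 + Real.log k := Real.log_mul (by norm_num) hk0.ne'
  have h2 : Real.log k ≤ Real.log (k + 1) := Real.log_le_log hk0 (by linarith)
  have h3 : Real.log 15 ≤ 4 * Real.log 2 := by
    have : Real.log 15 ≤ Real.log (2 ^ 4) := Real.log_le_log (by norm_num) (by norm_num)
    rwa [Real.log_pow] at this
  have h4 : Real.log 2 ≤ Real.log (k + 1) := Real.log_le_log (by norm_num) (by linarith)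
  linarith

theorem fiber_sq : ∃ C : ℝ, 0 < C ∧ ∀ (k : ℕ) (P : ℂ[X]), P ≠ 0 → P.support.card ≤ k →
    Real.circleAverage (fun z => (Real.log ‖P.eval z‖ -
      Real.log (∑ j ∈ P.support, ‖P.coeff j‖)) ^ 2) 0 1 ≤ C * k ^ 2 * Real.log (k + 1) ^ 2 := by
  refine ⟨1700, by norm_num, fun k P hP hcard => ?_⟩
  obtain ⟨m, hm, hpos, hmax⟩ := sm_max P hP
  have hk : 1 ≤ k := (Finset.card_pos.mpr ⟨m, hm⟩ : 0 < P.support.card).trans_le hcard
  have hk0 : (0 : ℝ) < k := by exact_mod_cast hk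
  have hk1 : (1 : ℝ) ≤ k := by exact_mod_cast hk
  set ℓ := Real.log (15 * k) with hℓ
  have hℓ1 : 1 ≤ ℓ := by
    rw [hℓ, Real.le_log_iff_exp_le (by positivity)]
    have := Real.exp_one_lt_three
    linarith
  set A := ∑ j ∈ P.support, ‖P.coeff j‖ with hA
  have hA1 : ‖P.coeff m‖ ≤ A := Finset.single_le_sum (fun j _ => norm_nonneg (P.coeff j)) hm
  have hA0 : 0 < A := hpos.trans_le hA1
  have hA2 : A ≤ k * ‖P.coeff m‖ := by
    calc A ≤ ∑ j ∈ P.support, ‖P.coeff m‖ := Finset.sum_le_sum hmax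
      _ = P.support.card * ‖P.coeff m‖ := by rw [Finset.sum_const, nsmul_eq_mul]
      _ ≤ k * ‖P.coeff m‖ := by
          apply mul_le_mul_of_nonneg_right _ hpos.le
          exact_mod_cast hcard
  set lam : ℝ := Real.exp (2 * k * ℓ) * ‖P.coeff m‖⁻¹ with hlamdef
  have hlam : 0 < lam := by positivity
  have hcm : ‖smC P lam ⟨m, hm⟩‖ = Real.exp (2 * k * ℓ) := by
    unfold smC
    rw [norm_mul, Complex.norm_real, Real.norm_of_nonneg hlam.le, hlamdef]
    field_simp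
  have h1 : 1 ≤ ‖smC P lam ⟨m, hm⟩‖ := by
    rw [hcm]
    exact Real.one_le_exp (by positivity)
  have hcard' : Fintype.card P.support ≤ k := (sm_card P).le.trans hcard
  have hheight := height_bound k hk hcard' (smC P lam) (smE P) (smE_inj P) ⟨m, hm⟩
    (norm_pos_iff.mp (one_pos.trans_le h1))
  rw [hcm, Real.log_exp] at hheight
  have hpos' : 0 ≤ ∫ θ, Real.log (hh (smC P lam) (smE P) θ) ∂mu := by
    rw [circleAverage_eq] at hheight
    have h2 : 0 ≤ (2 * π)⁻¹ * ∫ θ, Real.log (hh (smC P lam) (smE P) θ) ∂mu := by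
      have : (2 * π)⁻¹ * ∫ θ, Real.log (hh (smC P lam) (smE P) θ) ∂mu =
        (2 * π)⁻¹ * ∫ θ, Real.log ‖ls (smC P lam) (smE P) (circleMap 0 1 θ)‖ ∂mu := rfl
      rw [this]
      linarith
    exact nonneg_of_mul_nonneg_right h2 (by positivity)
  have hvar := var_bound k hk hcard' (smC P lam) (smE P) (smE_inj P) ⟨m, hm⟩ h1 hpos'
  rw [sm_sum P lam hlam, ← hA, ← hℓ] at hvar
  -- the size of `log (lam A)`
  have hB1 : 1 ≤ lam * A := by
    have h2 : ‖P.coeff m‖⁻¹ * ‖P.coeff m‖ ≤ ‖P.coeff m‖⁻¹ * A :=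
      mul_le_mul_of_nonneg_left hA1 (by positivity)
    rw [inv_mul_cancel₀ hpos.ne'] at h2
    have h3 : 1 ≤ Real.exp (2 * k * ℓ) := Real.one_le_exp (by positivity)
    calc (1 : ℝ) = 1 * 1 := by ring
      _ ≤ Real.exp (2 * k * ℓ) * (‖P.coeff m‖⁻¹ * A) := mul_le_mul h3 h2 (by norm_num) (by positivity)
      _ = lam * A := by rw [hlamdef]; ring
  have hB2 : Real.log (lam * A) ≤ 3 * (k * ℓ) := by
    have h2 : lam * A ≤ Real.exp (2 * k * ℓ) * k := by
      calc lam * A ≤ lam * (k * ‖P.coeff m‖) := mul_le_mul_of_nonneg_left hA2 hlam.le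
        _ = Real.exp (2 * k * ℓ) * k := by rw [hlamdef]; field_simp
    have h3 : Real.log (lam * A) ≤ Real.log (Real.exp (2 * k * ℓ) * k) :=
      Real.log_le_log (by positivity) h2
    rw [Real.log_mul (Real.exp_pos _).ne' hk0.ne', Real.log_exp] at h3
    have h4 : Real.log k ≤ ℓ := Real.log_le_log hk0 (by linarith)
    have h5 : ℓ ≤ k * ℓ := by nlinarith
    linarith
  have hB0 : 0 ≤ Real.log (lam * A) := Real.log_nonneg hB1
  set B := Real.log (lam * A) with hB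
  have hkl : 1 ≤ k * ℓ := by nlinarith
  have hvar2 : ∫ θ, Real.log (hh (smC P lam) (smE P) θ) ^ 2 ∂mu ≤ 2 * π * (25 * (k * ℓ) ^ 2) := by
    refine hvar.trans ?_
    apply mul_le_mul_of_nonneg_left _ (by positivity)
    have h2 : B ^ 2 ≤ (3 * (k * ℓ)) ^ 2 := pow_le_pow_left₀ hB0 hB2 2
    have h3 : 4 * k * ℓ * (B + 1) ≤ 4 * (k * ℓ) * (4 * (k * ℓ)) := by
      have : 4 * k * ℓ * (B + 1) = 4 * (k * ℓ) * (B + 1) := by ring
      rw [this]
      apply mul_le_mul_of_nonneg_left _ (by positivity)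
      linarith
    nlinarith
  -- conclusion
  have hint := log_sq_integrable k hk hcard' (smC P lam) (smE P) (smE_inj P) ⟨m, hm⟩ h1
  rw [circleAverage_eq]
  have hmain : ∫ θ, (Real.log ‖P.eval (circleMap 0 1 θ)‖ - Real.log A) ^ 2 ∂mu ≤
      ∫ θ, (2 * Real.log (hh (smC P lam) (smE P) θ) ^ 2 + 2 * B ^ 2) ∂mu := by
    refine integral_mono_ae ?_ ((hint.const_mul 2).add (integrable_const _)) ?_
    · have h3 : Integrable (fun θ => Real.log ‖P.eval (circleMap 0 1 θ)‖ ^ 2 -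
        2 * Real.log A * Real.log ‖P.eval (circleMap 0 1 θ)‖ + Real.log A ^ 2) mu :=
        ((sm_sq_integrable P hP).sub ((sm_log_integrable P).const_mul _)).add (integrable_const _)
      refine h3.congr (Filter.Eventually.of_forall fun θ => ?_)
      ring
    · filter_upwards [sm_zero P hP] with θ hθ
      rw [sm_hh P lam hlam, Real.log_mul hlam.ne' hθ.ne', hB, Real.log_mul hlam.ne' hA0.ne']
      nlinarith [sq_nonneg (Real.log lam + Real.log ‖P.eval (circleMap 0 1 θ)‖ +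
        (Real.log lam + Real.log A))]
  rw [integral_add (hint.const_mul 2) (integrable_const _), integral_const_mul, integral_const,
    mu_real_univ, smul_eq_mul] at hmain
  have hB3 : B ^ 2 ≤ 9 * (k * ℓ) ^ 2 := by
    have h2 : B ^ 2 ≤ (3 * (k * ℓ)) ^ 2 := pow_le_pow_left₀ hB0 hB2 2
    nlinarith
  have hfin : ∫ θ, (Real.log ‖P.eval (circleMap 0 1 θ)‖ - Real.log A) ^ 2 ∂mu ≤
      2 * π * (68 * (k * ℓ) ^ 2) := by
    have hpi : (0 : ℝ) ≤ 2 * π := by positivity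
    have h3 := mul_le_mul_of_nonneg_left hB3 hpi
    calc _ ≤ _ := hmain
      _ ≤ 2 * (2 * π * (25 * (k * ℓ) ^ 2)) + 2 * (2 * π * (9 * (k * ℓ) ^ 2)) := by linarith
      _ = _ := by ring
  have hl5 := sm_log15 k hk
  rw [← hℓ] at hl5
  have hlog0 : 0 ≤ Real.log (k + 1) := Real.log_nonneg (by linarith)
  calc (2 * π)⁻¹ * ∫ θ, (Real.log ‖P.eval (circleMap 0 1 θ)‖ - Real.log A) ^ 2 ∂mu
      ≤ (2 * π)⁻¹ * (2 * π * (68 * (k * ℓ) ^ 2)) :=
        mul_le_mul_of_nonneg_left hfin (by positivity)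
    _ = 68 * (k ^ 2 * ℓ ^ 2) := by field_simp
    _ ≤ 68 * (k ^ 2 * (5 * Real.log (k + 1)) ^ 2) := by
        apply mul_le_mul_of_nonneg_left _ (by norm_num)
        apply mul_le_mul_of_nonneg_left _ (by positivity)
        exact pow_le_pow_left₀ (by linarith) hl5 2
    _ = 1700 * k ^ 2 * Real.log (k + 1) ^ 2 := by ring

/-- pointwise tail bounds -/
lemma sm_tail_pt (κ : ℝ) (hκ : 1 ≤ κ) (h δ : ℝ) (hh0 : 0 < h) (hδ : 0 < δ) :
    (Real.log (max h δ) - Real.log h) ^ 2 ≤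
      8 * κ ^ 2 * (δ ^ (1 / (2 * κ)) * h ^ (-(1 / (2 * κ)))) ∧
    Real.log (max h δ) ≤ Real.log h +
      8 * κ ^ 2 * (δ ^ (1 / (2 * κ)) * h ^ (-(1 / (2 * κ)))) := by
  have hκ0 : 0 < κ := by linarith
  have hp1 : 0 < δ ^ (1 / (2 * κ)) := Real.rpow_pos_of_pos hδ _
  have hp2 : 0 < h ^ (-(1 / (2 * κ))) := Real.rpow_pos_of_pos hh0 _
  rcases le_total δ h with hle | hle
  · rw [max_eq_left hle, sub_self]
    constructor
    · have : 0 ≤ 8 * κ ^ 2 * (δ ^ (1 / (2 * κ)) * h ^ (-(1 / (2 * κ)))) := by positivity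
      simpa using this
    · have : 0 ≤ 8 * κ ^ 2 * (δ ^ (1 / (2 * κ)) * h ^ (-(1 / (2 * κ)))) := by positivity
      linarith
  · rw [max_eq_right hle]
    set v := Real.log δ - Real.log h with hv
    have hv0 : 0 ≤ v := by
      have := Real.log_le_log hh0 hle
      linarith
    set t := v / (2 * κ) with ht
    have ht0 : 0 ≤ t := div_nonneg hv0 (by linarith)
    have hvt : v = 2 * κ * t := by rw [ht]; field_simp
    have he : δ ^ (1 / (2 * κ)) * h ^ (-(1 / (2 * κ))) = Real.exp t := by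
      rw [Real.rpow_def_of_pos hδ, Real.rpow_def_of_pos hh0, ← Real.exp_add]
      congr 1
      rw [ht, hv]
      field_simp
      ring
    rw [he]
    have hex : 0 < Real.exp t := Real.exp_pos _
    have h1 : t ≤ Real.exp t := by linarith [Real.add_one_le_exp t]
    have h2 : t ^ 2 ≤ 2 * Real.exp t := by
      have := Real.quadratic_le_exp_of_nonneg ht0
      nlinarith
    constructor
    · rw [hvt]
      have : (2 * κ * t) ^ 2 = 4 * κ ^ 2 * t ^ 2 := by ring
      rw [this]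
      have h3 : 4 * κ ^ 2 * t ^ 2 ≤ 4 * κ ^ 2 * (2 * Real.exp t) :=
        mul_le_mul_of_nonneg_left h2 (by positivity)
      linarith
    · have h3 : v ≤ 2 * κ * Real.exp t := by
        rw [hvt]
        exact mul_le_mul_of_nonneg_left h1 (by positivity)
      have h4 : 2 * κ * Real.exp t ≤ 8 * κ ^ 2 * Real.exp t := by
        apply mul_le_mul_of_nonneg_right _ hex.le
        nlinarith
      linarith

theorem tail (K : ℕ) (ε : ℝ) (hε : 0 < ε) : ∃ δ0 : ℝ, 0 < δ0 ∧ δ0 ≤ 1 ∧ ∀ δ : ℝ, 0 < δ → δ ≤ δ0 →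
    ∀ P : ℂ[X], P.support.card ≤ K → (∃ j, 1 ≤ ‖P.coeff j‖) →
      Real.circleAverage (fun z => (Real.log (max ‖P.eval z‖ δ) -
        Real.log ‖P.eval z‖) ^ 2) 0 1 ≤ ε ∧
      Real.circleAverage (fun z => Real.log (max ‖P.eval z‖ δ)) 0 1 ≤
        P.logMahlerMeasure + ε := by
  rcases Nat.eq_zero_or_pos K with hK | hK
  · refine ⟨1, one_pos, le_rfl, fun δ _ _ P hP hj => ?_⟩
    exfalso
    obtain ⟨j, hj⟩ := hj
    rw [hK, Nat.le_zero, Finset.card_eq_zero, Polynomial.support_eq_empty] at hP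
    rw [hP] at hj
    simp at hj
    linarith
  have hK0 : (0 : ℝ) < K := by exact_mod_cast hK
  have hK1 : (1 : ℝ) ≤ K := by exact_mod_cast hK
  set D : ℝ := 8 * K ^ 2 * (1 + 14 * K) with hD
  have hD0 : 0 < D := by positivity
  set α : ℝ := 1 / (2 * (K : ℝ)) with hα
  have hα0 : 0 < α := by positivity
  refine ⟨min 1 ((ε / D) ^ (1 / α)), ?_, min_le_left _ _, ?_⟩
  · exact lt_min one_pos (Real.rpow_pos_of_pos (by positivity) _)
  intro δ hδ hδle P hcard ⟨j, hj⟩
  have hδα : δ ^ α ≤ ε / D := by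
    calc δ ^ α ≤ ((ε / D) ^ (1 / α)) ^ α :=
          Real.rpow_le_rpow hδ.le (hδle.trans (min_le_right _ _)) hα0.le
      _ = ε / D := by
          rw [← Real.rpow_mul (by positivity), one_div, inv_mul_cancel₀ hα0.ne', Real.rpow_one]
  have hjs : j ∈ P.support := by
    rw [Polynomial.mem_support_iff]
    intro h0
    rw [h0, norm_zero] at hj
    linarith
  have hP : P ≠ 0 := by
    rintro rfl
    simp at hjs
  have hcard' : Fintype.card P.support ≤ K := (sm_card P).le.trans hcard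
  have h1 : 1 ≤ ‖smC P 1 ⟨j, hjs⟩‖ := by
    unfold smC
    simpa using hj
  obtain ⟨hint, hle⟩ := neg_moment K hK hcard' (smC P 1) (smE P) (smE_inj P) ⟨j, hjs⟩ h1
  simp only [sm_hh P 1 one_pos, one_mul] at hint hle
  rw [← hα] at hint hle
  have hbd : 8 * (K : ℝ) ^ 2 * δ ^ α * ∫ θ, ‖P.eval (circleMap 0 1 θ)‖ ^ (-α) ∂mu ≤ 2 * π * ε := by
    have hp1 : 0 < δ ^ α := Real.rpow_pos_of_pos hδ _
    calc 8 * (K : ℝ) ^ 2 * δ ^ α * ∫ θ, ‖P.eval (circleMap 0 1 θ)‖ ^ (-α) ∂mu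
        ≤ 8 * (K : ℝ) ^ 2 * δ ^ α * (2 * π * (1 + 14 * K)) :=
          mul_le_mul_of_nonneg_left hle (by positivity)
      _ = 2 * π * (D * δ ^ α) := by rw [hD]; ring
      _ ≤ 2 * π * (D * (ε / D)) := by
          apply mul_le_mul_of_nonneg_left _ (by positivity)
          exact mul_le_mul_of_nonneg_left hδα hD0.le
      _ = 2 * π * ε := by field_simp
  have hmaxc : Continuous (fun θ : ℝ => Real.log (max ‖P.eval (circleMap 0 1 θ)‖ δ)) := by
    refine Continuous.log ?_ ?_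
    · exact ((P.continuous.comp (continuous_circleMap 0 1)).norm).max continuous_const
    · intro θ
      exact (hδ.trans_le (le_max_right _ _)).ne'
  have hmaxi := cont_integrable _ hmaxc
  constructor
  · rw [circleAverage_eq]
    have hkey : ∫ θ, (Real.log (max ‖P.eval (circleMap 0 1 θ)‖ δ) -
        Real.log ‖P.eval (circleMap 0 1 θ)‖) ^ 2 ∂mu ≤
        ∫ θ, 8 * (K : ℝ) ^ 2 * δ ^ α * ‖P.eval (circleMap 0 1 θ)‖ ^ (-α) ∂mu := by
      have hae : ∀ᵐ θ ∂mu, (Real.log (max ‖P.eval (circleMap 0 1 θ)‖ δ) -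
          Real.log ‖P.eval (circleMap 0 1 θ)‖) ^ 2 ≤
          8 * (K : ℝ) ^ 2 * δ ^ α * ‖P.eval (circleMap 0 1 θ)‖ ^ (-α) := by
        filter_upwards [sm_zero P hP] with θ hθ
        have := (sm_tail_pt K hK1 _ δ hθ hδ).1
        rw [← hα] at this
        linarith
      refine integral_mono_ae ?_ (hint.const_mul _) hae
      refine (hint.const_mul (8 * (K : ℝ) ^ 2 * δ ^ α)).mono' ?_ ?_
      · exact ((hmaxi.sub (sm_log_integrable P)).aestronglyMeasurable).pow 2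
      · filter_upwards [hae] with θ hθ
        rw [Real.norm_eq_abs, abs_of_nonneg (by positivity)]
        exact hθ
    rw [integral_const_mul] at hkey
    calc _ ≤ (2 * π)⁻¹ * (2 * π * ε) :=
          mul_le_mul_of_nonneg_left (hkey.trans hbd) (by positivity)
      _ = ε := by field_simp
  · rw [Polynomial.logMahlerMeasure_def, circleAverage_eq, circleAverage_eq]
    have hkey : ∫ θ, Real.log (max ‖P.eval (circleMap 0 1 θ)‖ δ) ∂mu ≤
        ∫ θ, (Real.log ‖P.eval (circleMap 0 1 θ)‖ +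
          8 * (K : ℝ) ^ 2 * δ ^ α * ‖P.eval (circleMap 0 1 θ)‖ ^ (-α)) ∂mu := by
      refine integral_mono_ae hmaxi ((sm_log_integrable P).add (hint.const_mul _)) ?_
      filter_upwards [sm_zero P hP] with θ hθ
      have := (sm_tail_pt K hK1 _ δ hθ hδ).2
      rw [← hα] at this
      linarith
    rw [integral_add (sm_log_integrable P) (hint.const_mul _), integral_const_mul] at hkey
    calc _ ≤ (2 * π)⁻¹ * (∫ θ, Real.log ‖P.eval (circleMap 0 1 θ)‖ ∂mu + 2 * π * ε) :=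
          mul_le_mul_of_nonneg_left (hkey.trans (by linarith)) (by positivity)
      _ = _ := by field_simp

end Pool.Agent.Lib.MP_7ab245_nt.Blk
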