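import Mathlib
import Pool.Agent.Lib.MP_7ab245_nt.Blk.Defs
import Pool.Agent.Lib.MP_7ab245_nt.Blk.Small
import Pool.Agent.Lib.MP_7ab245_nt.Blk.Equi
import Pool.Agent.Lib.MP_7ab245_nt.Blk.Mu
import Pool.Agent.Lib.MP_7ab245_nt.Blk.XDeg

/-!
Block theorem (MP_7ab245_nt): the limit of `F(x, x^M)` as `M → ∞` for a fixed `F`.
-/

set_option autoImplicit false

open Polynomial Filter Topology Real MeasureTheory

namespace Pool.Agent.Lib.MP_7ab245_nt.Blk

/-! ### Averages -/

/-- comparison of averages without integrability of the smaller function -/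
lemma li_avg_mono {f g : ℂ → ℝ} (hg : CircleIntegrable g 0 1) (hf : ∀ z, 0 ≤ f z)
    (h : ∀ᵐ θ ∂(volume.restrict (Set.uIoc 0 (2 * π))),
      f (circleMap 0 1 θ) ≤ g (circleMap 0 1 θ)) :
    circleAverage f 0 1 ≤ circleAverage g 0 1 := by
  by_cases hfi : CircleIntegrable f 0 1
  · exact mu_avg_mono hfi hg h
  · rw [circleAverage.integral_undef hfi]
    have h1 : circleAverage (fun _ : ℂ => (0 : ℝ)) 0 1 ≤ circleAverage g 0 1 :=
      mu_avg_mono (circleIntegrable_const 0 0 1) hg (h.mono fun θ hθ => (hf _).trans hθ)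
    rwa [circleAverage_const] at h1

lemma li_log_integrable (P : ℂ[X]) : CircleIntegrable (fun z => Real.log ‖P.eval z‖) 0 1 := by
  exact P.intervalIntegrable_mahlerMeasure

lemma li_cont_integrable {g : ℂ → ℝ} (hg : Continuous g) : CircleIntegrable g 0 1 :=
  hg.continuousOn.circleIntegrable'

/-- square integrability of `g - log|P|`, `g` continuous -/
lemma li_sq_integrable (P : ℂ[X]) (hP : P ≠ 0) {g : ℂ → ℝ} (hg : Continuous g) :
    CircleIntegrable (fun z => (g z - Real.log ‖P.eval z‖) ^ 2) 0 1 := by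
  have h1 : CircleIntegrable (fun z => g z ^ 2) 0 1 := li_cont_integrable (hg.pow 2)
  have h2 := log_sq_circleIntegrable P hP
  have h3 : CircleIntegrable (fun z => g z * Real.log ‖P.eval z‖) 0 1 := by
    have h4 := li_log_integrable P
    unfold CircleIntegrable at h4 ⊢
    exact h4.continuousOn_mul (hg.comp (continuous_circleMap 0 1)).continuousOn
  have h5 : (fun z => (g z - Real.log ‖P.eval z‖) ^ 2) =
      fun z => (g z ^ 2 + (-2 : ℝ) • (g z * Real.log ‖P.eval z‖)) + Real.log ‖P.eval z‖ ^ 2 := by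
    ext z
    simp only [smul_eq_mul]
    ring
  rw [h5]
  exact (h1.add (h3.const_fun_smul)).add h2

/-! ### The two-variable function -/

lemma li_eval (F : ℤ[X][X]) (M : ℕ) (z : ℂ) :
    ((F.eval (X ^ M)).map (Int.castRingHom ℂ)).eval z = (sl (tC F) z).eval (z ^ M) := by
  have h1 : ((F.eval (X ^ M)).map (Int.castRingHom ℂ)).eval z =
      ((evalRingHom z).comp (mapRingHom (Int.castRingHom ℂ))) (F.eval (X ^ M)) := rfl
  rw [h1, eval, hom_eval₂]
  unfold sl tC
  rw [Polynomial.map_map, eval_map]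
  simp

lemma li_cont (F : ℤ[X][X]) : Continuous fun p : ℂ × ℂ => (sl (tC F) p.1).eval p.2 := by
  simp_rw [mu_sl_eval]
  refine continuous_finsetSum _ fun j _ => ?_
  exact (((tC F).coeff j).continuous.comp continuous_fst).mul (continuous_snd.pow j)

/-- the sum of the moduli of the coefficients of the slice -/
noncomputable def liS (F : ℤ[X][X]) (z : ℂ) : ℝ := ∑ j ∈ (tC F).support, ‖((tC F).coeff j).eval z‖

lemma li_S_cont (F : ℤ[X][X]) : Continuous (liS F) := by
  unfold liS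
  exact continuous_finsetSum _ fun j _ => ((tC F).coeff j).continuous.norm

lemma li_support (F : ℤ[X][X]) : (tC F).support = F.support := by
  unfold tC
  apply support_map_of_injective
  intro a b hab
  exact map_injective _ (Int.castRingHom ℂ).injective_int hab

lemma li_sl_support (F : ℤ[X][X]) (z : ℂ) : (sl (tC F) z).support ⊆ (tC F).support := by
  intro j hj
  rw [mem_support_iff, mu_sl_coeff] at hj
  rw [mem_support_iff]
  intro h
  rw [h, eval_zero] at hj
  exact hj rfl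

lemma li_sl_card (F : ℤ[X][X]) (z : ℂ) : (sl (tC F) z).support.card ≤ F.support.card := by
  rw [← li_support F]
  exact Finset.card_le_card (li_sl_support F z)

lemma li_S_eq (F : ℤ[X][X]) (z : ℂ) :
    ∑ j ∈ (sl (tC F) z).support, ‖(sl (tC F) z).coeff j‖ = liS F z := by
  unfold liS
  have h1 : ∑ j ∈ (tC F).support, ‖((tC F).coeff j).eval z‖ =
      ∑ j ∈ (tC F).support, ‖(sl (tC F) z).coeff j‖ :=
    Finset.sum_congr rfl fun j _ => by rw [mu_sl_coeff]
  rw [h1]
  refine Finset.sum_subset (li_sl_support F z) fun j _ hj => ?_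
  rw [notMem_support_iff.mp hj, norm_zero]

lemma li_norm_le (F : ℤ[X][X]) (z w : ℂ) (hw : ‖w‖ = 1) :
    ‖(sl (tC F) z).eval w‖ ≤ liS F z := by
  rw [mu_sl_eval]
  unfold liS
  refine norm_sum_le_of_le _ fun j _ => ?_
  rw [norm_mul, norm_pow, hw, one_pow, mul_one]

lemma li_ne_zero (F : ℤ[X][X]) (hF : ∀ z : ℂ, ‖z‖ = 1 → sl (tC F) z ≠ 0) : F ≠ 0 := by
  rintro rfl
  apply hF 1 (by simp)
  simp [sl, tC]

/-- compactness -/
lemma li_nu (F : ℤ[X][X]) (hF : ∀ z : ℂ, ‖z‖ = 1 → sl (tC F) z ≠ 0) :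
    ∃ ν : ℝ, 0 < ν ∧ ∀ z : ℂ, ‖z‖ = 1 → ν ≤ liS F z ∧ ∃ j, ν ≤ ‖(sl (tC F) z).coeff j‖ := by
  have hF0 := li_ne_zero F hF
  obtain ⟨z0, hz0, hmin⟩ := (isCompact_sphere (0 : ℂ) 1).exists_isMinOn ⟨1, by simp⟩
    (li_S_cont F).continuousOn
  have hz0' : ‖z0‖ = 1 := by simpa using hz0
  have hpos : 0 < liS F z0 := by
    rw [← li_S_eq]
    have h1 := hF z0 hz0'
    refine Finset.sum_pos (fun j hj => ?_) (support_nonempty.mpr h1)
    exact norm_pos_iff.mpr (mem_support_iff.mp hj)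
  have hcard : 0 < F.support.card := Finset.card_pos.mpr (support_nonempty.mpr hF0)
  have hcR : (1 : ℝ) ≤ F.support.card := by exact_mod_cast hcard
  refine ⟨liS F z0 / F.support.card, by positivity, ?_⟩
  intro z hz
  have h1 : liS F z0 ≤ liS F z := by
    have := hmin (a := z) (by simpa using hz)
    simpa using this
  have h2 : liS F z0 / F.support.card ≤ liS F z0 := div_le_self hpos.le hcR
  refine ⟨h2.trans h1, ?_⟩
  by_contra hcon
  push Not at hcon
  have h3 : liS F z < ∑ j ∈ (tC F).support, liS F z0 / F.support.card := by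
    unfold liS
    refine Finset.sum_lt_sum_of_nonempty ?_ fun j _ => ?_
    · rw [li_support]; exact support_nonempty.mpr hF0
    · have := hcon j
      rw [mu_sl_coeff] at this
      exact this
  rw [Finset.sum_const, li_support, nsmul_eq_mul, mul_div_cancel₀ _ (by positivity)] at h3
  linarith

/-- the truncated logarithm is continuous -/
lemma li_phi_cont (F : ℤ[X][X]) {δ : ℝ} (hδ : 0 < δ) :
    Continuous fun p : ℂ × ℂ => Real.log (max ‖(sl (tC F) p.1).eval p.2‖ δ) :=
  (((li_cont F).norm).max continuous_const).log fun _ => (lt_max_of_lt_right hδ).ne'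

/-- one variable version -/
lemma li_trunc_cont (P : ℂ[X]) {δ : ℝ} (hδ : 0 < δ) :
    Continuous fun z : ℂ => Real.log (max ‖P.eval z‖ δ) :=
  ((P.continuous.norm).max continuous_const).log fun _ => (lt_max_of_lt_right hδ).ne'

lemma li_log_le_trunc (P : ℂ[X]) (hP : P ≠ 0) {δ : ℝ} (hδ : 0 < δ) :
    P.logMahlerMeasure ≤ circleAverage (fun z => Real.log (max ‖P.eval z‖ δ)) 0 1 := by
  rw [logMahlerMeasure_def]
  refine mu_avg_mono (li_log_integrable P) (li_cont_integrable (li_trunc_cont P hδ)) ?_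
  filter_upwards [mu_ae_ne P hP] with θ hθ
  exact Real.log_le_log (norm_pos_iff.mpr hθ) (le_max_left _ _)

/-- the iterated average of a continuous function is an average of a continuous function -/
lemma li_param_cont {φ : ℂ → ℂ → ℝ} (hφ : Continuous fun p : ℂ × ℂ => φ p.1 p.2) :
    Continuous fun z => circleAverage (fun w => φ z w) 0 1 := by
  have h : Continuous fun q : ℂ × ℝ => (q.1, circleMap 0 1 q.2) :=
    continuous_fst.prodMk ((continuous_circleMap 0 1).comp continuous_snd)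
  have h2 : Continuous (Function.uncurry fun (z : ℂ) (θ : ℝ) => φ z (circleMap 0 1 θ)) :=
    hφ.comp h
  have h3 : Continuous fun z => (2 * π)⁻¹ • ∫ θ in (0 : ℝ)..(2 * π), φ z (circleMap 0 1 θ) :=
    (intervalIntegral.continuous_parametric_intervalIntegral_of_continuous' h2 0
      (2 * π)).const_smul (2 * π)⁻¹
  exact h3

/-- polynomials `F(x, x^M)` -/
lemma li_fM (F : ℤ[X][X]) (hF : F ≠ 0) (M : ℕ) (hM : dx F < M) :
    (F.eval (X ^ M)).map (Int.castRingHom ℂ) ≠ 0 ∧
    ((F.eval (X ^ M)).map (Int.castRingHom ℂ)).support.card ≤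
      ∑ j ∈ F.support, (F.coeff j).support.card ∧
    ∃ j, 1 ≤ ‖((F.eval (X ^ M)).map (Int.castRingHom ℂ)).coeff j‖ := by
  have h1 := eval_ne_zero F hF M hM
  have h2 : (F.eval (X ^ M)).map (Int.castRingHom ℂ) ≠ 0 := by
    rw [Ne, Polynomial.map_eq_zero_iff (Int.castRingHom ℂ).injective_int]
    exact h1
  refine ⟨h2, ?_, ?_⟩
  · rw [support_map_of_injective _ (Int.castRingHom ℂ).injective_int]
    exact card_support_eval_le F M
  · refine ⟨(F.eval (X ^ M)).natDegree, ?_⟩
    rw [coeff_map]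
    have h3 : (F.eval (X ^ M)).coeff (F.eval (X ^ M)).natDegree ≠ 0 :=
      leadingCoeff_ne_zero.mpr h1
    have h4 := Int.one_le_abs h3
    rw [eq_intCast, Complex.norm_intCast]
    exact_mod_cast h4

/-- the slices -/
lemma li_slice {K : ℕ} {ε δ0 δ ν : ℝ} (hν : 0 < ν) (hδ : 0 < δ) (hδν : δ ≤ ν * δ0)
    (htail : ∀ δ : ℝ, 0 < δ → δ ≤ δ0 →
    ∀ P : ℂ[X], P.support.card ≤ K → (∃ j, 1 ≤ ‖P.coeff j‖) →
      Real.circleAverage (fun z => Real.log (max ‖P.eval z‖ δ)) 0 1 ≤
        P.logMahlerMeasure + ε) (P : ℂ[X]) (hP : P.support.card ≤ K) (hPν : ∃ j, ν ≤ ‖P.coeff j‖) :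
    Real.circleAverage (fun z => Real.log (max ‖P.eval z‖ δ)) 0 1 ≤ P.logMahlerMeasure + ε := by
  obtain ⟨j, hj⟩ := hPν
  have hP0 : P ≠ 0 := by
    rintro rfl
    rw [coeff_zero, norm_zero] at hj
    linarith
  have hνC : ((ν⁻¹ : ℝ) : ℂ) ≠ 0 := by
    rw [Ne, Complex.ofReal_eq_zero]
    positivity
  have h1 := htail (δ / ν) (by positivity) (by
    rw [div_le_iff₀ hν]; linarith) (C ((ν⁻¹ : ℝ) : ℂ) * P) (by
      refine le_trans ?_ hP
      rw [← smul_eq_C_mul]
      exact Finset.card_le_card (support_smul _ _)) ⟨j, by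
      rw [coeff_C_mul, norm_mul, Complex.norm_real, norm_inv, Real.norm_eq_abs, abs_of_pos hν,
        inv_mul_eq_div, le_div_iff₀ hν]
      linarith⟩
  rw [logMahlerMeasure_C_mul hνC hP0, Complex.norm_real, norm_inv, Real.norm_eq_abs,
    abs_of_pos hν, Real.log_inv] at h1
  have h2 : (fun z : ℂ => Real.log (max ‖(C ((ν⁻¹ : ℝ) : ℂ) * P).eval z‖ (δ / ν))) =
      fun z => Real.log (max ‖P.eval z‖ δ) - Real.log ν := by
    ext z
    rw [eval_mul, eval_C, norm_mul, Complex.norm_real, norm_inv, Real.norm_eq_abs,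
      abs_of_pos hν, inv_mul_eq_div, max_div_div_right hν.le, Real.log_div _ hν.ne']
    exact (lt_max_of_lt_right hδ).ne'
  rw [h2, circleAverage_fun_sub (li_cont_integrable (li_trunc_cont P hδ))
    (circleIntegrable_const _ 0 1), circleAverage_const] at h1
  linarith

theorem limit_log (F : ℤ[X][X]) (hF : ∀ z : ℂ, ‖z‖ = 1 → sl (tC F) z ≠ 0) :
    Tendsto (fun M : ℕ => lM (F.eval (X ^ M))) atTop (𝓝 (mm (tC F))) := by
  have hF0 := li_ne_zero F hF
  have htC0 : tC F ≠ 0 := by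
    rw [← support_nonempty, li_support, support_nonempty]
    exact hF0
  obtain ⟨ν, hν, hνF⟩ := li_nu F hF
  rw [Metric.tendsto_atTop]
  intro ε hε
  set K := max (∑ j ∈ F.support, (F.coeff j).support.card) F.support.card with hK
  obtain ⟨δ0, hδ0, _, htail⟩ := tail K (ε / 4) (by positivity)
  set δ := min δ0 (ν * δ0) with hδdef
  have hδ : 0 < δ := lt_min hδ0 (by positivity)
  set φ : ℂ → ℂ → ℝ := fun z w => Real.log (max ‖(sl (tC F) z).eval w‖ δ) with hφ
  have hφc : Continuous fun p : ℂ × ℂ => φ p.1 p.2 := li_phi_cont F hδ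
  have hpar := li_param_cont hφc
  set L := circleAverage (fun z => circleAverage (fun w => φ z w) 0 1) 0 1 with hL
  -- the slices
  have hB : ∀ z : ℂ, ‖z‖ = 1 → (sl (tC F) z).logMahlerMeasure ≤
      circleAverage (fun w => φ z w) 0 1 ∧
      circleAverage (fun w => φ z w) 0 1 ≤ (sl (tC F) z).logMahlerMeasure + ε / 4 := by
    intro z hz
    refine ⟨li_log_le_trunc _ (hF z hz) hδ, ?_⟩
    exact li_slice hν hδ (min_le_right _ _) (fun δ h1 h2 P h3 h4 => (htail δ h1 h2 P h3 h4).2) _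
      ((li_sl_card F z).trans (le_max_right _ _)) (hνF z hz).2
  have hint := sl_integrable (tC F) htC0
  have hcirc : ∀ θ : ℝ, ‖circleMap 0 1 θ‖ = 1 := fun θ => by simp
  have hL1 : mm (tC F) ≤ L :=
    mu_avg_mono hint (li_cont_integrable hpar)
      (Filter.Eventually.of_forall fun θ => (hB _ (hcirc θ)).1)
  have hL2 : L ≤ mm (tC F) + ε / 4 := by
    have h1 : L ≤ circleAverage (fun z => (sl (tC F) z).logMahlerMeasure + ε / 4) 0 1 :=
      mu_avg_mono (li_cont_integrable hpar) (hint.add (circleIntegrable_const _ 0 1))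
        (Filter.Eventually.of_forall fun θ => (hB _ (hcirc θ)).2)
    rw [circleAverage_fun_add hint (circleIntegrable_const _ 0 1), circleAverage_const] at h1
    exact h1
  -- convergence
  have hequi := equidist φ hφc
  rw [Metric.tendsto_atTop] at hequi
  obtain ⟨M0, hM0⟩ := hequi (ε / 4) (by positivity)
  refine ⟨max M0 (dx F + 1), fun M hM => ?_⟩
  have hM1 : M0 ≤ M := (le_max_left _ _).trans hM
  have hM2 : dx F < M := (le_max_right _ _).trans hM
  obtain ⟨hf0, hfc, hfj⟩ := li_fM F hF0 M hM2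
  have h1 := hM0 M hM1
  have h2 : circleAverage (fun z => φ z (z ^ M)) 0 1 = circleAverage (fun z =>
      Real.log (max ‖((F.eval (X ^ M)).map (Int.castRingHom ℂ)).eval z‖ δ)) 0 1 := by
    congr 1
    ext z
    rw [li_eval]
  rw [h2, Real.dist_eq, abs_lt] at h1
  have h3 := li_log_le_trunc _ hf0 hδ
  have h4 := (htail δ hδ (min_le_left _ _) _ (hfc.trans (le_max_left _ _)) hfj).2
  rw [Real.dist_eq, abs_lt]
  unfold lM
  constructor <;> linarith [h1.1, h1.2]

/-- slices, squares -/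
lemma li_slice_sq {C ν δ : ℝ} {k : ℕ} (hδ : 0 < δ) (hδν : δ ≤ ν)
    (hfib : ∀ P : ℂ[X], P ≠ 0 → P.support.card ≤ k →
      Real.circleAverage (fun z => (Real.log ‖P.eval z‖ -
        Real.log (∑ j ∈ P.support, ‖P.coeff j‖)) ^ 2) 0 1 ≤ C)
    (F : ℤ[X][X]) (hk : F.support.card ≤ k) (z : ℂ) (hz : sl (tC F) z ≠ 0)
    (hνF : ν ≤ liS F z) :
    circleAverage (fun w => (Real.log (max ‖(sl (tC F) z).eval w‖ δ) -
      Real.log (max (liS F z) ν)) ^ 2) 0 1 ≤ C := by
  have h1 := hfib _ hz ((li_sl_card F z).trans hk)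
  rw [li_S_eq] at h1
  refine le_trans ?_ h1
  have h2 : CircleIntegrable (fun w => (Real.log ‖(sl (tC F) z).eval w‖ -
      Real.log (liS F z)) ^ 2) 0 1 := by
    have h3 := li_sq_integrable (sl (tC F) z) hz (g := fun _ => Real.log (liS F z))
      continuous_const
    refine (iff_of_eq (congrArg (fun f => CircleIntegrable f 0 1) ?_)).mp h3
    ext w; ring
  refine li_avg_mono h2 (fun _ => sq_nonneg _) ?_
  filter_upwards [mu_ae_ne _ hz] with θ hθ
  have h4 : ‖circleMap 0 1 θ‖ = 1 := by simp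
  have h5 := li_norm_le F z (circleMap 0 1 θ) h4
  rw [max_eq_left hνF]
  have h6 : Real.log ‖(sl (tC F) z).eval (circleMap 0 1 θ)‖ ≤
      Real.log (max ‖(sl (tC F) z).eval (circleMap 0 1 θ)‖ δ) :=
    Real.log_le_log (norm_pos_iff.mpr hθ) (le_max_left _ _)
  have h7 : Real.log (max ‖(sl (tC F) z).eval (circleMap 0 1 θ)‖ δ) ≤ Real.log (liS F z) :=
    Real.log_le_log (lt_max_of_lt_right hδ) (max_le h5 (hδν.trans hνF))
  nlinarith

theorem limit_sq : ∃ C : ℝ, 0 < C ∧ ∀ (k : ℕ) (F : ℤ[X][X]), F.support.card ≤ k →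
    (∀ z : ℂ, ‖z‖ = 1 → sl (tC F) z ≠ 0) → ∃ M0 : ℕ, ∀ M ≥ M0, ∀ N ≥ M0,
      Real.circleAverage (fun z =>
        (Real.log ‖((F.eval (X ^ M)).map (Int.castRingHom ℂ)).eval z‖ -
          Real.log ‖((F.eval (X ^ N)).map (Int.castRingHom ℂ)).eval z‖) ^ 2) 0 1 ≤
      C * k ^ 2 * Real.log (k + 1) ^ 2 := by
  obtain ⟨C, hC, hfib⟩ := fiber_sq
  refine ⟨8 * C + 1, by positivity, ?_⟩
  intro k F hk hF
  have hF0 := li_ne_zero F hF
  obtain ⟨ν, hν, hνF⟩ := li_nu F hF
  have hk1 : 1 ≤ k := (Finset.card_pos.mpr (support_nonempty.mpr hF0)).trans_le hk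
  set Q : ℝ := C * k ^ 2 * Real.log (k + 1) ^ 2 with hQ
  set K := ∑ j ∈ F.support, (F.coeff j).support.card with hK
  obtain ⟨δ0, hδ0, _, htail⟩ := tail K (1 / 100) (by norm_num)
  set δ := min δ0 ν with hδdef
  have hδ : 0 < δ := lt_min hδ0 hν
  set H : ℂ → ℝ := fun z => Real.log (max (liS F z) ν) with hH
  have hHc : Continuous H :=
    ((li_S_cont F).max continuous_const).log fun _ => (lt_max_of_lt_right hν).ne'
  set ψ : ℂ → ℂ → ℝ := fun z w => (Real.log (max ‖(sl (tC F) z).eval w‖ δ) - H z) ^ 2 with hψ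
  have hψc : Continuous fun p : ℂ × ℂ => ψ p.1 p.2 :=
    ((li_phi_cont F hδ).sub (hHc.comp continuous_fst)).pow 2
  have hpar := li_param_cont hψc
  set L := circleAverage (fun z => circleAverage (fun w => ψ z w) 0 1) 0 1 with hL
  have hLQ : L ≤ Q := by
    have h1 : L ≤ circleAverage (fun _ : ℂ => Q) 0 1 :=
      mu_avg_mono (li_cont_integrable hpar) (circleIntegrable_const _ 0 1)
        (Filter.Eventually.of_forall fun θ => by
          have hθ : ‖circleMap 0 1 θ‖ = 1 := by simp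
          exact li_slice_sq hδ (min_le_right _ _) (hfib k) F hk _ (hF _ hθ) (hνF _ hθ).1)
    rwa [circleAverage_const] at h1
  have hequi := equidist ψ hψc
  rw [Metric.tendsto_atTop] at hequi
  obtain ⟨M0, hM0⟩ := hequi (1 / 100) (by norm_num)
  -- the estimate of `E_M`
  have hE : ∀ M : ℕ, max M0 (dx F + 1) ≤ M →
      circleAverage (fun z => (H z -
        Real.log ‖((F.eval (X ^ M)).map (Int.castRingHom ℂ)).eval z‖) ^ 2) 0 1 ≤
        2 * (1 / 100) + 2 * (Q + 1 / 100) := by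
    intro M hM
    have hM1 : M0 ≤ M := (le_max_left _ _).trans hM
    have hM2 : dx F < M := (le_max_right _ _).trans hM
    obtain ⟨hf0, hfc, hfj⟩ := li_fM F hF0 M hM2
    set P := (F.eval (X ^ M)).map (Int.castRingHom ℂ) with hP
    have h1 := hM0 M hM1
    have h2 : (fun z => ψ z (z ^ M)) = fun z => (Real.log (max ‖P.eval z‖ δ) - H z) ^ 2 := by
      ext z
      rw [hP, li_eval]
    rw [h2, Real.dist_eq, abs_lt] at h1
    have h3 := (htail δ hδ (min_le_left _ _) P hfc hfj).1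
    have hi1 : CircleIntegrable (fun z => (Real.log (max ‖P.eval z‖ δ) -
        Real.log ‖P.eval z‖) ^ 2) 0 1 := li_sq_integrable P hf0 (li_trunc_cont P hδ)
    have hi2 : CircleIntegrable (fun z => (Real.log (max ‖P.eval z‖ δ) - H z) ^ 2) 0 1 :=
      li_cont_integrable (((li_trunc_cont P hδ).sub hHc).pow 2)
    have h4 : circleAverage (fun z => (H z - Real.log ‖P.eval z‖) ^ 2) 0 1 ≤
        circleAverage (fun z => (2 : ℝ) • ((Real.log (max ‖P.eval z‖ δ) -
          Real.log ‖P.eval z‖) ^ 2) + (2 : ℝ) • ((Real.log (max ‖P.eval z‖ δ) - H z) ^ 2))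
          0 1 := by
      refine mu_avg_mono (li_sq_integrable P hf0 hHc)
        (hi1.const_fun_smul.add hi2.const_fun_smul) (Filter.Eventually.of_forall fun θ => ?_)
      simp only [smul_eq_mul]
      nlinarith [sq_nonneg ((Real.log (max ‖P.eval (circleMap 0 1 θ)‖ δ) -
          Real.log ‖P.eval (circleMap 0 1 θ)‖) +
          (Real.log (max ‖P.eval (circleMap 0 1 θ)‖ δ) - H (circleMap 0 1 θ)))]
    rw [circleAverage_fun_add hi1.const_fun_smul hi2.const_fun_smul,
      circleAverage_fun_smul, circleAverage_fun_smul, smul_eq_mul, smul_eq_mul] at h4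
    linarith [h1.1, h1.2]
  refine ⟨max M0 (dx F + 1), fun M hM N hN => ?_⟩
  obtain ⟨hf0, _, _⟩ := li_fM F hF0 M ((le_max_right _ _).trans hM)
  obtain ⟨hg0, _, _⟩ := li_fM F hF0 N ((le_max_right _ _).trans hN)
  have hEM := hE M hM
  have hEN := hE N hN
  have hiM := li_sq_integrable _ hf0 hHc
  have hiN := li_sq_integrable _ hg0 hHc
  have h5 : circleAverage (fun z =>
        (Real.log ‖((F.eval (X ^ M)).map (Int.castRingHom ℂ)).eval z‖ -
          Real.log ‖((F.eval (X ^ N)).map (Int.castRingHom ℂ)).eval z‖) ^ 2) 0 1 ≤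
      circleAverage (fun z => (2 : ℝ) • ((H z -
        Real.log ‖((F.eval (X ^ M)).map (Int.castRingHom ℂ)).eval z‖) ^ 2) +
        (2 : ℝ) • ((H z -
        Real.log ‖((F.eval (X ^ N)).map (Int.castRingHom ℂ)).eval z‖) ^ 2)) 0 1 := by
    refine li_avg_mono (hiM.const_fun_smul.add hiN.const_fun_smul) (fun _ => sq_nonneg _)
      (Filter.Eventually.of_forall fun θ => ?_)
    simp only [smul_eq_mul]
    nlinarith [sq_nonneg ((H (circleMap 0 1 θ) -
        Real.log ‖((F.eval (X ^ M)).map (Int.castRingHom ℂ)).eval (circleMap 0 1 θ)‖) +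
        (H (circleMap 0 1 θ) -
        Real.log ‖((F.eval (X ^ N)).map (Int.castRingHom ℂ)).eval (circleMap 0 1 θ)‖))]
  rw [circleAverage_fun_add hiM.const_fun_smul hiN.const_fun_smul,
    circleAverage_fun_smul, circleAverage_fun_smul, smul_eq_mul, smul_eq_mul] at h5
  have hkR : (1 : ℝ) ≤ k := by exact_mod_cast hk1
  have hlog : 0.69 ≤ Real.log (k + 1) := by
    have h6 := Real.log_two_gt_d9
    have h7 : Real.log 2 ≤ Real.log (k + 1) := Real.log_le_log (by norm_num) (by linarith)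
    linarith
  have h8 : (0.4 : ℝ) ≤ k ^ 2 * Real.log (k + 1) ^ 2 := by
    have h9 : (1 : ℝ) ≤ (k : ℝ) ^ 2 := one_le_pow₀ hkR
    have h10 : (0.4 : ℝ) ≤ Real.log (k + 1) ^ 2 := by nlinarith
    nlinarith
  have h11 : (8 * C + 1) * k ^ 2 * Real.log (k + 1) ^ 2 =
      8 * Q + k ^ 2 * Real.log (k + 1) ^ 2 := by rw [hQ]; ring
  rw [h11]
  linarith

end Pool.Agent.Lib.MP_7ab245_nt.Blk
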