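import Mathlib
import Pool.Agent.Lib.MP_7ab245_nt.Blk.Defs
import Pool.Agent.Lib.MP_7ab245_nt.Blk.XDeg
import Pool.Agent.Lib.MP_7ab245_nt.Blk.Limit
import Pool.Agent.Lib.MP_7ab245_nt.LogVar.Rigidity

/-!
Block theorem (MP_7ab245_nt): a primitive integer polynomial in two variables with at most `k`
powers of `y` has Mahler measure one or bounded below in terms of `k`.
-/

set_option autoImplicit false

open Polynomial Filter Topology Real

namespace Pool.Agent.Lib.MP_7ab245_nt.Blk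

/-! ### Irreducible integer polynomials and common roots -/

theorem gap_dvd (h g : ℤ[X]) (hirr : Irreducible h) (α : ℂ)
    (h1 : (h.map (Int.castRingHom ℂ)).eval α = 0) (h2 : (g.map (Int.castRingHom ℂ)).eval α = 0) :
    h ∣ g := by
  have hdeg : h.natDegree ≠ 0 := by
    intro h0
    rw [eq_C_of_natDegree_eq_zero h0, map_C, eval_C, eq_intCast] at h1
    have h3 : h.coeff 0 = 0 := by exact_mod_cast h1
    apply hirr.ne_zero
    rw [eq_C_of_natDegree_eq_zero h0, h3, map_zero]
  have hprim : h.IsPrimitive := hirr.isPrimitive hdeg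
  have hQ : Irreducible (h.map (Int.castRingHom ℚ)) :=
    (IsPrimitive.Int.irreducible_iff_irreducible_map_cast hprim).mp hirr
  rw [IsPrimitive.Int.dvd_iff_map_cast_dvd_map_cast h g hprim]
  by_contra hnd
  obtain ⟨a, b, hab⟩ := (hQ.coprime_iff_not_dvd).mpr hnd
  have hc : (algebraMap ℚ ℂ).comp (Int.castRingHom ℚ) = Int.castRingHom ℂ :=
    RingHom.ext_int _ _
  have h3 := congrArg (fun p : ℚ[X] => (p.map (algebraMap ℚ ℂ)).eval α) hab
  simp only [Polynomial.map_add, Polynomial.map_mul, Polynomial.map_map, hc, eval_add, eval_mul,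
    h1, h2, mul_zero, add_zero, Polynomial.map_one, eval_one] at h3
  exact zero_ne_one h3

theorem gap_irr_factor (g : ℤ[X]) (hg : g ≠ 0) (z : ℂ)
    (hz : (g.map (Int.castRingHom ℂ)).eval z = 0) :
    ∃ h : ℤ[X], Irreducible h ∧ (h.map (Int.castRingHom ℂ)).eval z = 0 := by
  revert hg hz
  induction g using WfDvdMonoid.induction_on_irreducible with
  | zero => intro h; exact absurd rfl h
  | unit u hu =>
    intro _ hz
    exfalso
    obtain ⟨v, hv⟩ := hu.exists_right_inv
    have h3 := congrArg (fun p : ℤ[X] => (p.map (Int.castRingHom ℂ)).eval z) hv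
    simp only [Polynomial.map_mul, eval_mul, hz, zero_mul, Polynomial.map_one, eval_one] at h3
    exact zero_ne_one h3
  | mul a i ha hi ih =>
    intro _ hz
    rw [Polynomial.map_mul, eval_mul, mul_eq_zero] at hz
    rcases hz with hz | hz
    · exact ⟨i, hi, hz⟩
    · exact ih ha hz

theorem gap_sl_coeff (F : ℤ[X][X]) (z : ℂ) (j : ℕ) :
    (sl (tC F) z).coeff j = ((F.coeff j).map (Int.castRingHom ℂ)).eval z := by
  unfold sl tC
  rw [coeff_map, coeff_map]
  rfl

theorem gap_prim_ne (F : ℤ[X][X]) (hF : F.IsPrimitive) : F ≠ 0 := hF.ne_zero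

theorem sl_ne_zero (F : ℤ[X][X]) (hF : F.IsPrimitive) (z : ℂ) : sl (tC F) z ≠ 0 := by
  intro h0
  have hall : ∀ j, ((F.coeff j).map (Int.castRingHom ℂ)).eval z = 0 := by
    intro j
    rw [← gap_sl_coeff, h0, coeff_zero]
  have hlc : F.leadingCoeff ≠ 0 := leadingCoeff_ne_zero.mpr hF.ne_zero
  obtain ⟨h, hirr, hz⟩ := gap_irr_factor F.leadingCoeff hlc z (hall _)
  have hd : C h ∣ F := by
    rw [C_dvd_iff_dvd_coeff]
    intro j
    exact gap_dvd h _ hirr z hz (hall j)
  exact hirr.not_isUnit (hF h hd)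

/-! ### Mahler measures of integer polynomials -/

theorem gap_MM_unit (u : ℤ[X]) (hu : IsUnit u) :
    (u.map (Int.castRingHom ℂ)).mahlerMeasure = 1 := by
  obtain ⟨v, hv⟩ := hu.exists_right_inv
  have hu0 : u ≠ 0 := hu.ne_zero
  have hv0 : v ≠ 0 := by
    rintro rfl
    rw [mul_zero] at hv
    exact zero_ne_one hv
  have h1 := Polynomial.one_le_mahlerMeasure_of_ne_zero hu0
  have h2 := Polynomial.one_le_mahlerMeasure_of_ne_zero hv0
  have h3 := congrArg (fun p : ℤ[X] => (p.map (Int.castRingHom ℂ)).mahlerMeasure) hv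
  simp only [Polynomial.map_mul, mahlerMeasure_mul, Polynomial.map_one, mahlerMeasure_one] at h3
  nlinarith

theorem gap_MM_dvd (u v : ℤ[X]) (hv : v ≠ 0) (h : u ∣ v)
    (h1 : (v.map (Int.castRingHom ℂ)).mahlerMeasure = 1) :
    (u.map (Int.castRingHom ℂ)).mahlerMeasure = 1 := by
  obtain ⟨w, rfl⟩ := h
  have h2 := Polynomial.one_le_mahlerMeasure_of_ne_zero (left_ne_zero_of_mul hv)
  have h3 := Polynomial.one_le_mahlerMeasure_of_ne_zero (right_ne_zero_of_mul hv)
  rw [Polynomial.map_mul, mahlerMeasure_mul] at h1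
  nlinarith

theorem gap_MM_factors (f : ℤ[X]) (hf : f ≠ 0)
    (h : ∀ g : ℤ[X], Irreducible g → g ∣ f → (g.map (Int.castRingHom ℂ)).mahlerMeasure = 1) :
    (f.map (Int.castRingHom ℂ)).mahlerMeasure = 1 := by
  revert hf h
  induction f using WfDvdMonoid.induction_on_irreducible with
  | zero => intro h; exact absurd rfl h
  | unit u hu =>
    intro _ _
    exact gap_MM_unit u hu
  | mul a i ha hi ih =>
    intro _ h
    rw [Polynomial.map_mul, mahlerMeasure_mul, h i hi (dvd_mul_right _ _),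
      ih ha fun g hg hga => h g hg (hga.trans (dvd_mul_left _ _)), one_mul]

theorem gap_MM_pow_sub (a b : ℕ) (hab : a < b) :
    (((X : ℤ[X]) ^ b - X ^ a).map (Int.castRingHom ℂ)).mahlerMeasure = 1 := by
  rw [Polynomial.map_sub, Polynomial.map_pow, Polynomial.map_pow, map_X]
  have hmon : ((X : ℂ[X]) ^ b - X ^ a).Monic := by
    apply monic_X_pow_sub
    rw [degree_X_pow]
    exact_mod_cast hab
  rw [mahlerMeasure_eq_leadingCoeff_mul_prod_roots, hmon.leadingCoeff, norm_one, one_mul]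
  apply Multiset.prod_eq_one
  intro x hx
  rw [Multiset.mem_map] at hx
  obtain ⟨α, hα, rfl⟩ := hx
  rw [mem_roots hmon.ne_zero, IsRoot.def, eval_sub, eval_pow, eval_pow, eval_X] at hα
  apply max_eq_left
  by_contra hlt
  push Not at hlt
  have h1 : ‖α‖ ^ b = ‖α‖ ^ a := by
    rw [← norm_pow, ← norm_pow, sub_eq_zero.mp hα]
  have h2 : ‖α‖ ^ a < ‖α‖ ^ b := pow_lt_pow_right₀ hlt hab
  linarith

/-! ### The gap -/

theorem gap_eval_root (F : ℤ[X][X]) (α : ℂ) (N : ℕ) :
    ((F.eval (X ^ N)).map (Int.castRingHom ℂ)).eval α = (sl (tC F) α).eval (α ^ N) := by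
  have h1 : ((F.eval (X ^ N)).map (Int.castRingHom ℂ)).eval α =
      ((evalRingHom α).comp (mapRingHom (Int.castRingHom ℂ))) (F.eval (X ^ N)) := rfl
  have h2 : ((evalRingHom α).comp (mapRingHom (Int.castRingHom ℂ))) (X ^ N) = α ^ N := by
    simp
  unfold sl tC
  rw [Polynomial.map_map, h1, ← eval₂_at_apply, h2, eval_map]

theorem gap_core (F : ℤ[X][X]) (hF : F.IsPrimitive) (M1 : ℕ) (hM1 : dx F < M1)
    (h : ∀ M ≥ M1, ∀ N ≥ M1, ∃ P Q : ℤ[X], (P.map (Int.castRingHom ℂ)).mahlerMeasure = 1 ∧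
      (Q.map (Int.castRingHom ℂ)).mahlerMeasure = 1 ∧ F.eval (X ^ M) * P = F.eval (X ^ N) * Q) :
    ∀ M ≥ M1, lM (F.eval (X ^ M)) = 0 := by
  intro M hM
  have hF0 : F ≠ 0 := hF.ne_zero
  have hne : F.eval (X ^ M) ≠ 0 := eval_ne_zero F hF0 M (by omega)
  unfold lM
  rw [logMahlerMeasure_eq_log_MahlerMeasure, gap_MM_factors _ hne, log_one]
  intro g hg hgd
  by_contra hMg
  -- `g` divides all `F.eval (X ^ N)`
  have hall : ∀ N ≥ M1, g ∣ F.eval (X ^ N) := by
    intro N hN
    obtain ⟨P, Q, _, hQ, hPQ⟩ := h M hM N hN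
    have h1 : g ∣ F.eval (X ^ N) * Q := by
      rw [← hPQ]
      exact hgd.trans (dvd_mul_right _ _)
    rcases hg.prime.dvd_or_dvd h1 with h2 | h2
    · exact h2
    · exfalso
      have hQ0 : Q ≠ 0 := by
        rintro rfl
        simp at hQ
      exact hMg (gap_MM_dvd g Q hQ0 h2 hQ)
  by_cases hdeg : g.natDegree = 0
  · -- a constant
    rw [eq_C_of_natDegree_eq_zero hdeg] at hall hg
    set a := g.coeff 0 with ha
    have hd : C (C a) ∣ F := by
      rw [C_dvd_iff_dvd_coeff]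
      intro j
      rw [C_dvd_iff_dvd_coeff]
      intro i
      rcases lt_or_ge i M1 with hi | hi
      · rw [← coeff_eval F M1 hM1 i j hi]
        exact (C_dvd_iff_dvd_coeff _ _).mp (hall M1 le_rfl) _
      · have h1 : (F.coeff j).natDegree ≤ dx F := natDegree_coeff_le_dx F j
        rw [coeff_eq_zero_of_natDegree_lt (by omega)]
        exact dvd_zero _
    exact hg.not_isUnit (hF _ hd)
  · -- a root
    have hdegC : (g.map (Int.castRingHom ℂ)).degree ≠ 0 := by
      rw [degree_map_eq_of_injective (RingHom.injective_int _)]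
      intro h0
      exact hdeg (natDegree_eq_of_degree_eq_some h0)
    obtain ⟨α, hα⟩ := Complex.exists_root (f := g.map (Int.castRingHom ℂ)) (by
      rw [degree_map_eq_of_injective (RingHom.injective_int _)]
      exact natDegree_pos_iff_degree_pos.mp (Nat.pos_of_ne_zero hdeg))
    have hα' : (g.map (Int.castRingHom ℂ)).eval α = 0 := hα
    have hroot : ∀ N ≥ M1, (sl (tC F) α).eval (α ^ N) = 0 := by
      intro N hN
      rw [← gap_eval_root]
      obtain ⟨w, hw⟩ := hall N hN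
      rw [hw, Polynomial.map_mul, eval_mul, hα', zero_mul]
    have hsl := sl_ne_zero F hF α
    -- pigeonhole
    have hfin : Set.Finite {x : ℂ | (sl (tC F) α).eval x = 0} := by
      refine ((sl (tC F) α).roots.toFinset.finite_toSet).subset ?_
      intro x hx
      rw [Finset.mem_coe, Multiset.mem_toFinset, mem_roots hsl]
      exact hx
    have hmaps : Set.MapsTo (fun n : ℕ => α ^ n) (Set.Ici M1)
        {x : ℂ | (sl (tC F) α).eval x = 0} := fun n hn => hroot n hn
    obtain ⟨a, ha, b, hb, hab, heq⟩ :=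
      Set.Infinite.exists_lt_map_eq_of_mapsTo (Set.Ici_infinite M1) hmaps hfin
    have hd : g ∣ (X : ℤ[X]) ^ b - X ^ a := by
      apply gap_dvd g _ hg α hα'
      rw [Polynomial.map_sub, Polynomial.map_pow, Polynomial.map_pow, map_X, eval_sub, eval_pow,
        eval_pow, eval_X, sub_eq_zero]
      exact heq.symm
    have hne2 : (X : ℤ[X]) ^ b - X ^ a ≠ 0 := by
      have hmon : ((X : ℤ[X]) ^ b - X ^ a).Monic := by
        apply monic_X_pow_sub
        rw [degree_X_pow]
        exact_mod_cast hab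
      exact hmon.ne_zero
    exact hMg (gap_MM_dvd g _ hne2 hd (gap_MM_pow_sub a b hab))

/-- numerics: the threshold of the rigidity theorem -/
theorem gap_numeric (C c0 : ℝ) (hC : 0 < C) (hc0 : 0 < c0) : ∃ c : ℝ, 0 < c ∧
    ∀ k : ℕ, 1 ≤ k → ∀ D : ℝ, 0 ≤ D → D ≤ C * k ^ 2 * Real.log (k + 1) ^ 2 →
      c / (k ^ 2 * Real.log (k + 1) ^ 7) ≤ c0 / ((1 + D) * Real.log (2 + D) ^ 5) := by
  have hl2 : 0 < Real.log 2 := Real.log_pos (by norm_num)
  set A := 1 / Real.log 2 ^ 2 + C with hA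
  have hApos : 0 < A := by positivity
  set B := Real.log (2 + C) / Real.log 2 + 4 with hB
  have hlC : 0 < Real.log (2 + C) := Real.log_pos (by linarith)
  have hBpos : 0 < B := by positivity
  refine ⟨c0 / (A * B ^ 5), by positivity, ?_⟩
  intro k hk D hD0 hD
  have hk1 : (1 : ℝ) ≤ k := by exact_mod_cast hk
  have hL2 : Real.log 2 ≤ Real.log (k + 1) := Real.log_le_log (by norm_num) (by linarith)
  have hLpos : 0 < Real.log (k + 1) := lt_of_lt_of_le hl2 hL2
  set L := Real.log ((k : ℝ) + 1) with hL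
  have hk2 : (1 : ℝ) ≤ (k : ℝ) ^ 2 := one_le_pow₀ hk1
  have h1 : 1 + D ≤ A * (k ^ 2 * L ^ 2) := by
    have h2 : 1 ≤ 1 / Real.log 2 ^ 2 * (k ^ 2 * L ^ 2) := by
      rw [one_div, ← div_eq_inv_mul, le_div_iff₀ (by positivity), one_mul]
      have h3 : Real.log 2 ^ 2 ≤ L ^ 2 := pow_le_pow_left₀ hl2.le hL2 2
      nlinarith [sq_nonneg L]
    calc 1 + D ≤ 1 / Real.log 2 ^ 2 * (k ^ 2 * L ^ 2) + C * k ^ 2 * L ^ 2 := by linarith
      _ = A * (k ^ 2 * L ^ 2) := by rw [hA]; ring
  have hLk : L ≤ k := by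
    have := Real.log_le_sub_one_of_pos (show (0 : ℝ) < (k : ℝ) + 1 by linarith)
    linarith
  have h2 : Real.log (2 + D) ≤ B * L := by
    have h3 : 2 + D ≤ (2 + C) * ((k : ℝ) + 1) ^ 4 := by
      have h4 : D ≤ C * ((k : ℝ) + 1) ^ 4 := by
        refine hD.trans ?_
        have h5 : (k : ℝ) ^ 2 * L ^ 2 ≤ ((k : ℝ) + 1) ^ 4 := by
          calc (k : ℝ) ^ 2 * L ^ 2 ≤ (k + 1) ^ 2 * (k + 1) ^ 2 := by
                apply mul_le_mul
                · exact pow_le_pow_left₀ (by linarith) (by linarith) 2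
                · exact pow_le_pow_left₀ hLpos.le (by linarith) 2
                · positivity
                · positivity
            _ = _ := by ring
        calc C * k ^ 2 * L ^ 2 = C * ((k : ℝ) ^ 2 * L ^ 2) := by ring
          _ ≤ _ := mul_le_mul_of_nonneg_left h5 hC.le
      have h6 : (1 : ℝ) ≤ ((k : ℝ) + 1) ^ 4 := one_le_pow₀ (by linarith)
      nlinarith
    calc Real.log (2 + D) ≤ Real.log ((2 + C) * ((k : ℝ) + 1) ^ 4) :=
          Real.log_le_log (by linarith) h3
      _ = Real.log (2 + C) + 4 * L := by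
          rw [Real.log_mul (by positivity) (by positivity), Real.log_pow, hL]
          norm_num
      _ ≤ B * L := by
          rw [hB, add_mul]
          have : Real.log (2 + C) ≤ Real.log (2 + C) / Real.log 2 * L := by
            rw [div_mul_eq_mul_div, le_div_iff₀ hl2]
            exact mul_le_mul_of_nonneg_left hL2 hlC.le
          linarith
  have h2pos : 0 < Real.log (2 + D) := Real.log_pos (by linarith)
  rw [div_div, div_le_div_iff_of_pos_left hc0 (by positivity) (by positivity)]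
  calc (1 + D) * Real.log (2 + D) ^ 5 ≤ (A * (k ^ 2 * L ^ 2)) * (B * L) ^ 5 := by
        apply mul_le_mul h1 (pow_le_pow_left₀ h2pos.le h2 5) (by positivity) (by positivity)
    _ = A * B ^ 5 * (k ^ 2 * L ^ 7) := by ring

theorem mm_gap : ∃ c : ℝ, 0 < c ∧ ∀ (k : ℕ) (F : ℤ[X][X]), F.IsPrimitive →
    F.support.card ≤ k → mm (tC F) < c / (k ^ 2 * Real.log (k + 1) ^ 7) → mm (tC F) = 0 := by
  obtain ⟨C, hC, hsq⟩ := limit_sq
  obtain ⟨c, hc, hnum⟩ := gap_numeric C LogVar.c0 hC LogVar.c0_pos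
  refine ⟨c / 2, by positivity, ?_⟩
  intro k F hF hk hlt
  have hF0 : F ≠ 0 := hF.ne_zero
  have hk1 : 1 ≤ k := by
    have : 0 < F.support.card := Finset.card_pos.mpr (nonempty_support_iff.mpr hF0)
    omega
  have hsl : ∀ z : ℂ, ‖z‖ = 1 → sl (tC F) z ≠ 0 := fun z _ => sl_ne_zero F hF z
  have hlim := limit_log F hsl
  obtain ⟨M0, hM0⟩ := hsq k F hk hsl
  have hev := hlim.eventually (gt_mem_nhds hlt)
  obtain ⟨M2, hM2⟩ := eventually_atTop.mp hev
  set M1 := max (max M0 M2) (dx F + 1) with hM1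
  have hcore := gap_core F hF M1 (by omega) (by
    intro M hM N hN
    have hMne : F.eval (X ^ M) ≠ 0 := eval_ne_zero F hF0 M (by omega)
    have hNne : F.eval (X ^ N) ≠ 0 := eval_ne_zero F hF0 N (by omega)
    rcases LogVar.rigidity _ _ hMne hNne with ⟨P, Q, hP, hQ, hPQ⟩ | hr
    · exact ⟨P, Q, hP, hQ, hPQ⟩
    · exfalso
      have hD0 := LogVar.DD_nonneg (F.eval (X ^ M)) (F.eval (X ^ N))
      have hD : LogVar.DD (F.eval (X ^ M)) (F.eval (X ^ N)) ≤
          C * k ^ 2 * Real.log (k + 1) ^ 2 := hM0 M (by omega) N (by omega)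
      have h1 := hnum k hk1 _ hD0 hD
      have h2 := hM2 M (by omega)
      have h3 := hM2 N (by omega)
      unfold lM at h2 h3
      rw [logMahlerMeasure_eq_log_MahlerMeasure] at h2 h3
      unfold LogVar.cx at hr
      have h4 : c / 2 / (k ^ 2 * Real.log (k + 1) ^ 7) =
          (c / (k ^ 2 * Real.log (k + 1) ^ 7)) / 2 := by ring
      rw [h4] at h2 h3
      linarith)
  have hlim0 : Tendsto (fun M : ℕ => lM (F.eval (X ^ M))) atTop (𝓝 0) := by
    refine tendsto_const_nhds.congr' ?_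
    filter_upwards [eventually_ge_atTop M1] with M hM
    exact (hcore M hM).symm
  exact tendsto_nhds_unique hlim hlim0

end Pool.Agent.Lib.MP_7ab245_nt.Blk
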