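import Mathlib
import Pool.Agent.Lib.MP_7ab245_nt.Blk.Defs
import Pool.Agent.Lib.MP_7ab245_nt.Blk.Mu

/-!
The `p`-adic argument for the block theorem: elimination of `y` between `F(x, y)` and
`F(x^p, y^p)`.
-/

set_option autoImplicit false

open Polynomial MeasureTheory Real

namespace Pool.Agent.Lib.MP_7ab245_nt.Blk

/-- the evaluation homomorphism `ℤ[x] → ℂ` at `z` -/
private noncomputable def evz (z : ℂ) : ℤ[X] →+* ℂ :=
  (evalRingHom z).comp (mapRingHom (Int.castRingHom ℂ))

private theorem evz_apply (z : ℂ) (f : ℤ[X]) :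
    evz z f = (f.map (Int.castRingHom ℂ)).eval z := rfl

private theorem sl_tC (F : ℤ[X][X]) (z : ℂ) : sl (tC F) z = F.map (evz z) := by
  unfold sl tC evz
  rw [Polynomial.map_map]

private theorem evz_expand (p : ℕ) (z : ℂ) :
    (evz z).comp ((expand ℤ p : ℤ[X] →ₐ[ℤ] ℤ[X]) : ℤ[X] →+* ℤ[X]) = evz (z ^ p) := by
  ext f
  · simp
  · simp [evz_apply]

private theorem frob_map_evz (p : ℕ) (F : ℤ[X][X]) (z : ℂ) :
    (frob p F).map (evz z) = expand ℂ p (sl (tC F) (z ^ p)) := by
  unfold frob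
  rw [map_expand, Polynomial.map_map, evz_expand, sl_tC]

private theorem natDegree_frob (p : ℕ) (hp : 0 < p) (F : ℤ[X][X]) :
    (frob p F).natDegree = p * F.natDegree := by
  unfold frob
  rw [natDegree_expand, mul_comm, natDegree_map_eq_of_injective]
  exact expand_injective hp

/-- freshman's dream -/
private theorem frob_eq (p : ℕ) (hp : p.Prime) (F : ℤ[X][X]) :
    ∃ B : ℤ[X][X], frob p F = C (C (p : ℤ)) * B + F ^ p ∧ B.natDegree ≤ p * F.natDegree := by
  have := Fact.mk hp
  have hD : C (C (p : ℤ)) ∣ frob p F - F ^ p := by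
    rw [C_dvd_iff_dvd_coeff]
    intro i
    rw [C_dvd_iff_dvd_coeff]
    intro j
    have hmap : (frob p F - F ^ p).map (mapRingHom (Int.castRingHom (ZMod p))) = 0 := by
      rw [Polynomial.map_sub, Polynomial.map_pow, sub_eq_zero]
      unfold frob
      rw [map_expand, Polynomial.map_map]
      have hcomm : (mapRingHom (Int.castRingHom (ZMod p))).comp
          ((expand ℤ p : ℤ[X] →ₐ[ℤ] ℤ[X]) : ℤ[X] →+* ℤ[X]) =
          (frobenius (ZMod p)[X] p).comp (mapRingHom (Int.castRingHom (ZMod p))) := by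
        ext f
        · simp
        · simp [frobenius_def]
      rw [hcomm, ← Polynomial.map_map, ← map_expand]
      exact map_frobenius_expand (R := (ZMod p)[X]) p _
    have h2 : (((frob p F - F ^ p).map (mapRingHom (Int.castRingHom (ZMod p)))).coeff i).coeff j
        = 0 := by rw [hmap]; simp
    rw [coeff_map, coe_mapRingHom, coeff_map, eq_intCast] at h2
    exact (ZMod.intCast_zmod_eq_zero_iff_dvd _ p).mp h2
  obtain ⟨B, hB⟩ := hD
  refine ⟨B, by rw [← hB]; ring, ?_⟩
  have hdeg : (C (C (p : ℤ)) * B).natDegree = B.natDegree := by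
    apply natDegree_C_mul
    simpa using hp.ne_zero
  rw [← hdeg, ← hB]
  refine (natDegree_sub_le _ _).trans (max_le ?_ ?_)
  · rw [natDegree_frob p hp.pos]
  · exact natDegree_pow_le

private theorem coprime_map (F A : ℤ[X][X]) (hF : Irreducible F) (hdeg : 0 < F.natDegree)
    (hA : ¬ F ∣ A) :
    IsCoprime (F.map (algebraMap ℤ[X] (FractionRing ℤ[X])))
      (A.map (algebraMap ℤ[X] (FractionRing ℤ[X]))) := by
  have hprim : F.IsPrimitive := hF.isPrimitive hdeg.ne'
  have hirr : Irreducible (F.map (algebraMap ℤ[X] (FractionRing ℤ[X]))) :=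
    hprim.irreducible_iff_irreducible_map_fraction_map.mp hF
  rw [hirr.coprime_iff_not_dvd]
  intro h
  exact hA (hprim.dvd_of_fraction_map_dvd_fraction_map h)

private theorem norm_eval_le (G : ℂ[X]) (n : ℕ) (hG : G.natDegree ≤ n) (y : ℂ) :
    ‖G.eval y‖ ≤ (∑ j ∈ G.support, ‖G.coeff j‖) * max 1 ‖y‖ ^ n := by
  rw [eval_eq_sum, Polynomial.sum, Finset.sum_mul]
  refine (norm_sum_le _ _).trans (Finset.sum_le_sum fun j hj => ?_)
  rw [norm_mul, norm_pow]
  refine mul_le_mul_of_nonneg_left ?_ (norm_nonneg _)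
  have hjn : j ≤ n := (le_natDegree_of_mem_supp j hj).trans hG
  calc ‖y‖ ^ j ≤ max 1 ‖y‖ ^ j := pow_le_pow_left₀ (norm_nonneg _) (le_max_right _ _) _
    _ ≤ max 1 ‖y‖ ^ n := pow_le_pow_right₀ (le_max_left _ _) hjn

private theorem prod_le_aux (s : Multiset ℂ) (f : ℂ → ℂ) (A : ℝ) (hA : 0 ≤ A) (k : ℕ)
    (h : ∀ y, ‖f y‖ ≤ A * max 1 ‖y‖ ^ k) :
    ‖(s.map f).prod‖ ≤ A ^ s.card * (s.map (fun a => max 1 ‖a‖)).prod ^ k := by
  induction s using Multiset.induction_on with
  | empty => simp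
  | cons a s ih =>
    rw [Multiset.map_cons, Multiset.prod_cons, norm_mul, Multiset.card_cons, Multiset.map_cons,
      Multiset.prod_cons, mul_pow, pow_succ]
    calc ‖f a‖ * ‖(s.map f).prod‖
        ≤ (A * max 1 ‖a‖ ^ k) * (A ^ s.card * (s.map (fun a => max 1 ‖a‖)).prod ^ k) := by
          apply mul_le_mul (h a) ih (norm_nonneg _)
          positivity
      _ = _ := by ring

theorem exists_res_prime (F : ℤ[X][X]) (hF : Irreducible F) (hdeg : 0 < F.natDegree)
    (p : ℕ) (hp : p.Prime) (hnd : ¬ F ∣ frob p F) :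
    ∃ N : ℤ[X], N ≠ 0 ∧ C ((p : ℤ) ^ F.natDegree) ∣ N ∧
      ∀ z : ℂ, ‖z‖ = 1 → (F.leadingCoeff.map (Int.castRingHom ℂ)).eval z ≠ 0 →
        ‖(N.map (Int.castRingHom ℂ)).eval z‖ ≤
          (∑ j ∈ (sl (tC F) (z ^ p)).support, ‖(sl (tC F) (z ^ p)).coeff j‖) ^ F.natDegree *
            (sl (tC F) z).mahlerMeasure ^ (p * F.natDegree) := by
  refine ⟨resultant F (frob p F) F.natDegree (p * F.natDegree), ?_, ?_, ?_⟩
  · intro h0
    have h1 := congrArg (algebraMap ℤ[X] (FractionRing ℤ[X])) h0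
    rw [map_zero, ← resultant_map_map] at h1
    have hinj : Function.Injective (algebraMap ℤ[X] (FractionRing ℤ[X])) :=
      IsFractionRing.injective _ _
    have hd1 : F.natDegree = (F.map (algebraMap ℤ[X] (FractionRing ℤ[X]))).natDegree :=
      (natDegree_map_eq_of_injective hinj F).symm
    have hd2 : p * F.natDegree =
        ((frob p F).map (algebraMap ℤ[X] (FractionRing ℤ[X]))).natDegree := by
      rw [natDegree_map_eq_of_injective hinj, natDegree_frob p hp.pos]
    rw [hd2] at h1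
    rw [hd1] at h1
    rw [resultant_eq_zero_iff] at h1
    exact h1.2 (coprime_map F _ hF hdeg hnd)
  · obtain ⟨B, hB, hBd⟩ := frob_eq p hp F
    have hFp : F ^ p = F * F ^ (p - 1) := by
      rw [← pow_succ', Nat.sub_add_cancel hp.one_le]
    rw [hB, hFp, resultant_add_mul_right _ _ _ _ _ _ le_rfl, resultant_C_mul_right]
    · rw [C_pow]
      exact dvd_mul_right _ _
    · calc (F ^ (p - 1)).natDegree + F.natDegree ≤ (p - 1) * F.natDegree + F.natDegree :=
            Nat.add_le_add_right natDegree_pow_le _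
        _ = p * F.natDegree := by
            rw [← Nat.succ_mul, Nat.succ_eq_add_one, Nat.sub_add_cancel hp.one_le]
  · intro z hz hlc
    rw [← evz_apply] at hlc
    rw [← evz_apply, ← resultant_map_map, frob_map_evz, ← sl_tC]
    have hd : F.natDegree = (sl (tC F) z).natDegree := by
      rw [sl_tC, natDegree_map_of_leadingCoeff_ne_zero _ hlc]
    have hdp : (sl (tC F) (z ^ p)).natDegree ≤ F.natDegree := by
      rw [sl_tC]; exact natDegree_map_le
    have hsplit : (sl (tC F) z).Splits := IsAlgClosed.splits _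
    have hle : (expand ℂ p (sl (tC F) (z ^ p))).natDegree ≤ p * F.natDegree := by
      rw [natDegree_expand, mul_comm]
      exact Nat.mul_le_mul_left _ hdp
    have key := resultant_eq_prod_eval (sl (tC F) z) (expand ℂ p (sl (tC F) (z ^ p)))
      (p * F.natDegree) hle hsplit
    rw [← hd] at key
    rw [key, norm_mul, norm_pow, mahlerMeasure_eq_leadingCoeff_mul_prod_roots, mul_pow]
    have hA : 0 ≤ ∑ j ∈ (sl (tC F) (z ^ p)).support, ‖(sl (tC F) (z ^ p)).coeff j‖ :=
      Finset.sum_nonneg fun _ _ => norm_nonneg _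
    have hb := prod_le_aux (sl (tC F) z).roots
      (fun y => (expand ℂ p (sl (tC F) (z ^ p))).eval y) _ hA (p * F.natDegree) (by
        intro y
        simp only [expand_eval]
        refine (norm_eval_le _ _ hdp (y ^ p)).trans (mul_le_mul_of_nonneg_left ?_ hA)
        rw [norm_pow, pow_mul]
        refine pow_le_pow_left₀ (by positivity) ?_ _
        rcases le_total ‖y‖ 1 with h | h
        · rw [max_eq_left h, one_pow, max_eq_left (pow_le_one₀ (norm_nonneg _) h)]
        · rw [max_eq_right h, max_eq_right (one_le_pow₀ h)])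
    have hcard : Multiset.card (sl (tC F) z).roots = F.natDegree := by
      rw [hd]; exact hsplit.natDegree_eq_card_roots.symm
    rw [hcard] at hb
    calc ‖(sl (tC F) z).leadingCoeff‖ ^ (p * F.natDegree) *
          ‖((sl (tC F) z).roots.map
            (fun y => (expand ℂ p (sl (tC F) (z ^ p))).eval y)).prod‖
        ≤ ‖(sl (tC F) z).leadingCoeff‖ ^ (p * F.natDegree) *
          ((∑ j ∈ (sl (tC F) (z ^ p)).support, ‖(sl (tC F) (z ^ p)).coeff j‖) ^ F.natDegree *
          ((sl (tC F) z).roots.map (fun a => max 1 ‖a‖)).prod ^ (p * F.natDegree)) :=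
          mul_le_mul_of_nonneg_left hb (by positivity)
      _ = _ := by ring

private theorem natDegree_coeff_le (F : ℤ[X][X]) (j : ℕ) : (F.coeff j).natDegree ≤ dx F := by
  by_cases hj : j ∈ F.support
  · exact Finset.le_sup (f := fun j => (F.coeff j).natDegree) hj
  · rw [notMem_support_iff] at hj
    rw [hj, natDegree_zero]
    exact Nat.zero_le _

private theorem coeff_eval_pow (F : ℤ[X][X]) (m : ℕ) (hm : dx F < m) (a b : ℕ) (ha : a < m) :
    (F.eval (X ^ m)).coeff (a + m * b) = (F.coeff b).coeff a := by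
  rw [eval_eq_sum, Polynomial.sum, finsetSum_coeff]
  have hterm : ∀ j, (F.coeff j * (X ^ m) ^ j).coeff (a + m * b) =
      if j = b then (F.coeff b).coeff a else 0 := by
    intro j
    rw [← pow_mul, coeff_mul_X_pow']
    rcases lt_trichotomy j b with h | h | h
    · rw [if_neg h.ne]
      split_ifs with h1
      · apply coeff_eq_zero_of_natDegree_lt
        refine (natDegree_coeff_le F j).trans_lt (hm.trans_le ?_)
        have : m * (j + 1) ≤ m * b := Nat.mul_le_mul_left _ h
        rw [mul_add, mul_one] at this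
        omega
      · rfl
    · subst h
      rw [if_pos rfl, if_pos (by omega)]
      congr 1
      omega
    · rw [if_neg h.ne']
      split_ifs with h1
      · exfalso
        have : m * (b + 1) ≤ m * j := Nat.mul_le_mul_left _ h
        rw [mul_add, mul_one] at this
        omega
      · rfl
  rw [Finset.sum_congr rfl fun j _ => hterm j, Finset.sum_ite_eq']
  split_ifs with h
  · rfl
  · rw [notMem_support_iff] at h
    rw [h, coeff_zero]

private theorem isPrimitive_eval (F : ℤ[X][X]) (hF : F.IsPrimitive) (m : ℕ) (hm : dx F < m) :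
    (F.eval (X ^ m)).IsPrimitive := by
  intro d hd
  have h1 : C (C d) ∣ F := by
    rw [C_dvd_iff_dvd_coeff]
    intro b
    rw [C_dvd_iff_dvd_coeff]
    intro a
    by_cases ha : a < m
    · rw [← coeff_eval_pow F m hm a b ha]
      exact (C_dvd_iff_dvd_coeff _ _).mp hd _
    · rw [coeff_eq_zero_of_natDegree_lt]
      · exact dvd_zero _
      · exact (natDegree_coeff_le F b).trans_lt (hm.trans_le (not_lt.mp ha))
  exact isUnit_C.mp (hF _ h1)

private theorem frob_eval (p m : ℕ) (F : ℤ[X][X]) :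
    (frob p F).eval (X ^ m) = expand ℤ p (F.eval (X ^ m)) := by
  unfold frob
  rw [expand_eval, eval_map, eval₂_eq_eval_map]
  have h : (X ^ m : ℤ[X]) ^ p = ((expand ℤ p : ℤ[X] →ₐ[ℤ] ℤ[X]) : ℤ[X] →+* ℤ[X]) (X ^ m) := by
    simp [← pow_mul, mul_comm]
  rw [h, eval_map, eval₂_at_apply]
  rfl

private theorem exists_pow_eq (S : Finset ℂ) (p : ℕ) (hp : 1 < p) (hS : ∀ z ∈ S, z ^ p ∈ S)
    (z : ℂ) (hz : z ∈ S) : ∃ n : ℕ, 0 < n ∧ z ^ (n + 1) = z := by
  rcases eq_or_ne z 0 with h0 | h0
  · exact ⟨1, one_pos, by rw [h0]; simp⟩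
  have hmem : ∀ i : ℕ, z ^ p ^ i ∈ S := by
    intro i
    induction i with
    | zero => simpa using hz
    | succ i ih =>
      rw [pow_succ, pow_mul]
      exact hS _ ih
  obtain ⟨i, j, hij, h⟩ := Finite.exists_ne_map_eq_of_infinite
    (fun i : ℕ => (⟨z ^ p ^ i, hmem i⟩ : S))
  have h1 : z ^ p ^ i = z ^ p ^ j := congrArg Subtype.val h
  wlog hlt : i < j generalizing i j
  · exact this j i hij.symm h.symm h1.symm (lt_of_le_of_ne (not_lt.mp hlt) hij.symm)
  have h2 : p ^ i < p ^ j := Nat.pow_lt_pow_right hp hlt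
  refine ⟨p ^ j - p ^ i, Nat.sub_pos_of_lt h2, ?_⟩
  have h3 : z ^ p ^ j = z ^ p ^ i * z ^ (p ^ j - p ^ i) := by
    rw [← pow_add]
    congr 1
    omega
  have h4 : z ^ (p ^ j - p ^ i) = 1 := by
    have h5 : z ^ p ^ i * z ^ (p ^ j - p ^ i) = z ^ p ^ i * 1 := by
      rw [← h3, mul_one, h1]
    exact mul_left_cancel₀ (pow_ne_zero _ h0) h5
  rw [pow_succ, h4, one_mul]

private theorem lM_eq_zero_aux (f : ℤ[X]) (hf : f.IsPrimitive) (p : ℕ) (hp : 1 < p)
    (h : f ∣ expand ℤ p f) : lM f = 0 := by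
  classical
  set g : ℂ[X] := f.map (Int.castRingHom ℂ) with hg
  have hinj : Function.Injective (Int.castRingHom ℂ) := (Int.castRingHom ℂ).injective_int
  have hf0 : f ≠ 0 := hf.ne_zero
  have hg0 : g ≠ 0 := (Polynomial.map_ne_zero_iff hinj).mpr hf0
  have hroot : ∀ z ∈ g.roots, ∃ n : ℕ, 0 < n ∧ z ^ (n + 1) = z := by
    intro z hz
    apply exists_pow_eq g.roots.toFinset p hp _ z (Multiset.mem_toFinset.mpr hz)
    intro w hw
    rw [Multiset.mem_toFinset, mem_roots hg0] at hw ⊢
    have h1 : g ∣ expand ℂ p g := by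
      rw [hg, ← map_expand]
      exact Polynomial.map_dvd _ h
    have h2 := eval_dvd (x := w) h1
    rw [expand_eval] at h2
    rw [IsRoot.def] at hw ⊢
    rw [hw] at h2
    exact zero_dvd_iff.mp h2
  choose! n hn using hroot
  -- the monic polynomial `Q`
  set Q : ℤ[X] := (g.roots.map fun z => (X ^ (n z + 1) - X : ℤ[X])).prod with hQ
  have hmon : ∀ k : ℕ, 0 < k → (X ^ (k + 1) - X : ℤ[X]).Monic := by
    intro k hk
    apply monic_X_pow_sub
    rw [degree_X]
    exact_mod_cast Nat.succ_lt_succ hk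
  have hQmon : Q.Monic := by
    rw [hQ]
    apply monic_multiset_prod_of_monic
    intro z hz
    exact hmon _ (hn z hz).1
  have hQdvd : g ∣ Q.map (Int.castRingHom ℂ) := by
    have hsplit : g.Splits := IsAlgClosed.splits _
    rw [hsplit.eq_prod_roots, hQ, Polynomial.map_multiset_prod, Multiset.map_map]
    have hu : IsUnit (C g.leadingCoeff) := isUnit_C.mpr (leadingCoeff_ne_zero.mpr hg0).isUnit
    rw [hu.mul_left_dvd]
    apply Multiset.prod_dvd_prod_of_dvd
    intro z hz
    simp only [Function.comp_apply, Polynomial.map_sub, Polynomial.map_pow, map_X]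
    rw [dvd_iff_isRoot, IsRoot.def]
    simp [(hn z hz).2]
  have hfQ : f ∣ Q := by
    have h1 : f.map (Int.castRingHom ℚ) ∣ Q.map (Int.castRingHom ℚ) := by
      rw [← Polynomial.map_dvd_map' (algebraMap ℚ ℂ), Polynomial.map_map, Polynomial.map_map]
      have : (algebraMap ℚ ℂ).comp (Int.castRingHom ℚ) = Int.castRingHom ℂ := by
        ext; simp
      rw [this]
      exact hQdvd
    exact (IsPrimitive.Int.dvd_iff_map_cast_dvd_map_cast _ _ hf).mpr h1
  have hlc : IsUnit f.leadingCoeff := by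
    obtain ⟨r, hr⟩ := hfQ
    have := congrArg leadingCoeff hr
    rw [leadingCoeff_mul, hQmon.leadingCoeff] at this
    exact IsUnit.of_mul_eq_one _ this.symm
  have hM : g.mahlerMeasure = 1 := by
    rw [mahlerMeasure_eq_leadingCoeff_mul_prod_roots]
    have h1 : ‖g.leadingCoeff‖ = 1 := by
      rw [hg, leadingCoeff_map_of_injective hinj]
      rcases Int.isUnit_iff.mp hlc with h | h <;> rw [h] <;> simp
    have h2 : (g.roots.map (fun a => max 1 ‖a‖)).prod = 1 := by
      apply Multiset.prod_eq_one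
      intro x hx
      obtain ⟨z, hz, rfl⟩ := Multiset.mem_map.mp hx
      apply max_eq_left
      obtain ⟨hn0, hnz⟩ := hn z hz
      have h3 : ‖z‖ ^ (n z + 1) = ‖z‖ := by rw [← norm_pow, hnz]
      by_contra hlt
      rw [not_le] at hlt
      have h4 : ‖z‖ ^ 1 < ‖z‖ ^ (n z + 1) := pow_lt_pow_right₀ hlt (by omega)
      rw [h3, pow_one] at h4
      exact lt_irrefl _ h4
    rw [h1, h2, one_mul]
  unfold lM
  rw [← hg, logMahlerMeasure_eq_log_MahlerMeasure, hM, Real.log_one]

/-- if `F(x,y)` divides `F(x^p,y^p)` then `F(x,x^m)` has Mahler measure one -/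
theorem lM_eq_zero_of_frob (F : ℤ[X][X]) (hF : Irreducible F) (hdeg : 0 < F.natDegree)
    (m : ℕ) (hm : dx F < m) (p : ℕ) (hp : 1 < p) (h : F ∣ frob p F) :
    lM (F.eval (X ^ m)) = 0 := by
  refine lM_eq_zero_aux _ (isPrimitive_eval F (hF.isPrimitive hdeg.ne') m hm) p hp ?_
  rw [← frob_eval]
  exact eval_dvd h

private theorem sum_sl_le (G : ℂ[X][X]) (w : ℂ) (hw : ‖w‖ = 1) :
    ∑ j ∈ (sl G w).support, ‖(sl G w).coeff j‖ ≤
      ∑ j ∈ G.support, ∑ i ∈ (G.coeff j).support, ‖(G.coeff j).coeff i‖ := by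
  have hsub : (sl G w).support ⊆ G.support := support_map_subset _ _
  calc ∑ j ∈ (sl G w).support, ‖(sl G w).coeff j‖
      ≤ ∑ j ∈ (sl G w).support, ∑ i ∈ (G.coeff j).support, ‖(G.coeff j).coeff i‖ := by
        refine Finset.sum_le_sum fun j _ => ?_
        rw [mu_sl_coeff, eval_eq_sum, Polynomial.sum]
        refine (norm_sum_le _ _).trans (Finset.sum_le_sum fun i _ => ?_)
        rw [norm_mul, norm_pow, hw, one_pow, mul_one]
    _ ≤ _ := Finset.sum_le_sum_of_subset_of_nonneg hsub fun _ _ _ =>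
        Finset.sum_nonneg fun _ _ => norm_nonneg _

theorem lM_eq_zero_of_mm (F : ℤ[X][X]) (hF : Irreducible F) (hdeg : 0 < F.natDegree)
    (h : mm (tC F) ≤ 0) (m : ℕ) (hm : dx F < m) : lM (F.eval (X ^ m)) = 0 := by
  by_contra hne
  have hinj : Function.Injective (Int.castRingHom ℂ) := RingHom.injective_int _
  have hinj2 : Function.Injective (mapRingHom (Int.castRingHom ℂ)) := map_injective _ hinj
  have hT0 : tC F ≠ 0 := by
    unfold tC
    rw [Ne, Polynomial.map_eq_zero_iff hinj2]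
    exact hF.ne_zero
  obtain ⟨A, hAdef⟩ : ∃ A : ℝ, A = ∑ j ∈ (tC F).support, ∑ i ∈ ((tC F).coeff j).support,
    ‖((tC F).coeff j).coeff i‖ := ⟨_, rfl⟩
  have hA0 : 0 ≤ A := by
    rw [hAdef]
    exact Finset.sum_nonneg fun _ _ => Finset.sum_nonneg fun _ _ => norm_nonneg _
  obtain ⟨p, hpA, hp⟩ := Nat.exists_infinite_primes (⌈A⌉₊ + 1)
  have hpA' : A < p := by
    have h1 := Nat.le_ceil A
    have h2 : ((⌈A⌉₊ + 1 : ℕ) : ℝ) ≤ p := by exact_mod_cast hpA
    push_cast at h2
    linarith
  have hnd : ¬ F ∣ frob p F := fun hd => hne (lM_eq_zero_of_frob F hF hdeg m hm p hp.one_lt hd)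
  obtain ⟨N, hN0, hNdvd, hNb⟩ := exists_res_prime F hF hdeg p hp hnd
  obtain ⟨q, hq⟩ : ∃ q, q = F.natDegree := ⟨_, rfl⟩
  rw [← hq] at hNb hNdvd hdeg
  have hp1 : (1 : ℝ) < p := by exact_mod_cast hp.one_lt
  have hNC0 : N.map (Int.castRingHom ℂ) ≠ 0 := (Polynomial.map_ne_zero_iff hinj).mpr hN0
  -- lower bound
  have hlow : q * log p ≤ (N.map (Int.castRingHom ℂ)).logMahlerMeasure := by
    obtain ⟨N', rfl⟩ := hNdvd
    have hN'0 : N' ≠ 0 := right_ne_zero_of_mul hN0
    have hN'C0 : N'.map (Int.castRingHom ℂ) ≠ 0 := (Polynomial.map_ne_zero_iff hinj).mpr hN'0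
    have hpq : ((p : ℂ) ^ q) ≠ 0 := pow_ne_zero _ (by exact_mod_cast hp.ne_zero)
    have h1 : (C ((p : ℤ) ^ q) * N').map (Int.castRingHom ℂ) =
        C ((p : ℂ) ^ q) * N'.map (Int.castRingHom ℂ) := by
      rw [Polynomial.map_mul, map_C]
      simp
    rw [h1, logMahlerMeasure_C_mul hpq hN'C0, norm_pow, Complex.norm_natCast, log_pow]
    have h2 : 0 ≤ (N'.map (Int.castRingHom ℂ)).logMahlerMeasure := by
      rw [logMahlerMeasure_eq_log_MahlerMeasure]
      exact log_nonneg (one_le_mahlerMeasure_of_ne_zero hN'0)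
    linarith
  -- upper bound
  have hint := sl_integrable (tC F) hT0
  have hup : (N.map (Int.castRingHom ℂ)).logMahlerMeasure ≤
      q * log A + (p * q : ℕ) * mm (tC F) := by
    have hR : q * log A + (p * q : ℕ) * mm (tC F) =
        circleAverage (fun z => q * log A + ((p * q : ℕ) : ℝ) • (sl (tC F) z).logMahlerMeasure)
          0 1 := by
      have hcs : CircleIntegrable (fun z => ((p * q : ℕ) : ℝ) •
        (sl (tC F) z).logMahlerMeasure) 0 1 := CircleIntegrable.const_smul hint
      rw [circleAverage_fun_add (circleIntegrable_const _ 0 1) hcs, circleAverage_const,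
        circleAverage_fun_smul]
      rfl
    rw [hR, logMahlerMeasure_def]
    refine mu_avg_mono (N.map (Int.castRingHom ℂ)).intervalIntegrable_mahlerMeasure ?_ ?_
    · exact (circleIntegrable_const _ 0 1).add (CircleIntegrable.const_smul hint)
    · filter_upwards [mu_ae_ne _ hNC0, mu_ae_lc _ hT0] with θ h1 h2
      have hz : ‖circleMap 0 1 θ‖ = 1 := by simp
      have hlc : (tC F).leadingCoeff = F.leadingCoeff.map (Int.castRingHom ℂ) := by
        unfold tC
        rw [leadingCoeff_map_of_injective hinj2]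
        rfl
      have h3 := hNb (circleMap 0 1 θ) hz (by rw [← hlc]; exact h2)
      have hsl0 := mu_sl_ne (tC F) _ h2
      have hM : 0 < (sl (tC F) (circleMap 0 1 θ)).mahlerMeasure :=
        mahlerMeasure_pos_of_ne_zero hsl0
      have h4 : ∑ j ∈ (sl (tC F) (circleMap 0 1 θ ^ p)).support,
          ‖(sl (tC F) (circleMap 0 1 θ ^ p)).coeff j‖ ≤ A := by
        rw [hAdef]
        apply sum_sl_le
        rw [norm_pow, hz, one_pow]
      have h5 : ‖(N.map (Int.castRingHom ℂ)).eval (circleMap 0 1 θ)‖ ≤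
          A ^ q * (sl (tC F) (circleMap 0 1 θ)).mahlerMeasure ^ (p * q) :=
        h3.trans (mul_le_mul_of_nonneg_right
          (pow_le_pow_left₀ (Finset.sum_nonneg fun _ _ => norm_nonneg _) h4 _) (by positivity))
      have h6 : 0 < ‖(N.map (Int.castRingHom ℂ)).eval (circleMap 0 1 θ)‖ := norm_pos_iff.mpr h1
      have hA1 : 0 < A := by
        rcases hA0.lt_or_eq with h | h
        · exact h
        · rw [← h, zero_pow hdeg.ne', zero_mul] at h5
          linarith
      have h7 := log_le_log h6 h5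
      rw [log_mul (by positivity) (by positivity), log_pow, log_pow,
        ← logMahlerMeasure_eq_log_MahlerMeasure] at h7
      simpa using h7
  have hq0 : (0 : ℝ) < q := by exact_mod_cast hdeg
  have h8 : ((p * q : ℕ) : ℝ) * mm (tC F) ≤ 0 :=
    mul_nonpos_of_nonneg_of_nonpos (Nat.cast_nonneg _) h
  have h9 : (q : ℝ) * log p ≤ q * log A := by linarith
  have h10 : log p ≤ log A := le_of_mul_le_mul_left h9 hq0
  rcases hA0.lt_or_eq with h' | h'
  · have := (log_le_log_iff (by positivity) h').mp h10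
    linarith
  · rw [← h', log_zero] at h10
    have := log_pos hp1
    linarith

end Pool.Agent.Lib.MP_7ab245_nt.Blk
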