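import Mathlib
import Pool.Agent.Lib.MP_7ab245_nt.Blk.Defs

/-! Elimination of `y` by the resultant over `ℤ[X]`. -/

set_option autoImplicit false

open Polynomial

namespace Pool.Agent.Lib.MP_7ab245_nt.Blk

lemma resxy_natDegree_coeff_le {R : Type} [Semiring R] (F : R[X][X]) (j : ℕ) :
    (F.coeff j).natDegree ≤ dx F := by
  by_cases h : F.coeff j = 0
  · simp [h]
  · exact Finset.le_sup (f := fun j => (F.coeff j).natDegree) (mem_support_iff.mpr h)

/-- degree of the resultant -/
lemma resxy_natDegree_resultant_le (F A : ℤ[X][X]) (m n : ℕ) :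
    (resultant F A m n).natDegree ≤ dx F * n + dx A * m := by
  rw [resultant, Matrix.det_apply]
  refine natDegree_sum_le_of_forall_le _ _ fun σ _ => ?_
  refine (natDegree_smul_le _ _).trans ?_
  refine (natDegree_prod_le _ _).trans ?_
  rw [Fin.sum_univ_add]
  have h1 : ∑ i : Fin m, (sylvester F A m n (σ (Fin.castAdd n i)) (Fin.castAdd n i)).natDegree ≤
      dx A * m := by
    calc _ ≤ ∑ i : Fin m, dx A := by
          refine Finset.sum_le_sum fun i _ => ?_
          simp only [sylvester, Matrix.of_apply, Fin.addCases_left]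
          split_ifs
          · exact resxy_natDegree_coeff_le _ _
          · simp
      _ = dx A * m := by simp [mul_comm]
  have h2 : ∑ i : Fin n, (sylvester F A m n (σ (Fin.natAdd m i)) (Fin.natAdd m i)).natDegree ≤
      dx F * n := by
    calc _ ≤ ∑ i : Fin n, dx F := by
          refine Finset.sum_le_sum fun i _ => ?_
          simp only [sylvester, Matrix.of_apply, Fin.addCases_right]
          split_ifs
          · exact resxy_natDegree_coeff_le _ _
          · simp
      _ = dx F * n := by simp [mul_comm]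
  omega

/-- the resultant does not vanish -/
lemma resxy_resultant_ne_zero (F A : ℤ[X][X]) (hF : Irreducible F) (hdeg : 0 < F.natDegree)
    (hA : ¬ F ∣ A) : resultant F A ≠ 0 := by
  have hprim : F.IsPrimitive := hF.isPrimitive hdeg.ne'
  let K := FractionRing ℤ[X]
  have hinj : Function.Injective (algebraMap ℤ[X] K) := IsFractionRing.injective _ _
  have hirr : Irreducible (F.map (algebraMap ℤ[X] K)) :=
    hprim.irreducible_iff_irreducible_map_fraction_map.mp hF
  have hnd : ¬ F.map (algebraMap ℤ[X] K) ∣ A.map (algebraMap ℤ[X] K) := fun h =>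
    hA (hprim.dvd_of_fraction_map_dvd_fraction_map h)
  have hcop : IsCoprime (F.map (algebraMap ℤ[X] K)) (A.map (algebraMap ℤ[X] K)) :=
    hirr.coprime_iff_not_dvd.mpr hnd
  have h1 : resultant (F.map (algebraMap ℤ[X] K)) (A.map (algebraMap ℤ[X] K)) ≠ 0 := by
    rw [Ne, resultant_eq_zero_iff]
    tauto
  rw [natDegree_map_eq_of_injective hinj, natDegree_map_eq_of_injective hinj,
    resultant_map_map] at h1
  intro h
  exact h1 (by rw [h, map_zero])

theorem exists_res (F A : ℤ[X][X]) (hF : Irreducible F) (hdeg : 0 < F.natDegree)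
    (hA : ¬ F ∣ A) :
    ∃ R : ℤ[X], R ≠ 0 ∧ R.natDegree ≤ dx F * A.natDegree + dx A * F.natDegree ∧
      ∃ P Q : ℤ[X][X], P * F + Q * A = C R := by
  obtain ⟨p, q, -, -, h⟩ := exists_mul_add_mul_eq_C_resultant F A le_rfl le_rfl
    (Or.inl hdeg.ne')
  exact ⟨resultant F A, resxy_resultant_ne_zero F A hF hdeg hA,
    resxy_natDegree_resultant_le F A _ _, p, q, by rw [← h]; ring⟩

end Pool.Agent.Lib.MP_7ab245_nt.Blk
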