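import Mathlib
import Pool.Agent.Lib.MP_7ab245_nt.Blk.Deriv
import Pool.Agent.Lib.MP_7ab245_nt.Blk.ResXY
import Pool.Agent.Lib.MP_7ab245_nt.Blk.Aux2

set_option autoImplicit false

open Polynomial Real

namespace Pool.Agent.Lib.MP_7ab245_nt.Blk

lemma log_c_bound (T l q m : ℕ) (μ : ℝ) (hTR : (1 : ℝ) ≤ T) (hqR : (1 : ℝ) ≤ q)
    (hlR : (1 : ℝ) ≤ l) (hmR : 8 * (((T : ℝ) + 2) * l) ≤ m) :
    Real.log (2 * Real.exp (-(T / 2 * μ)) * √(2 * (T + 1) * l * q) *
            √((T + 2) * l * (q * (T + 1)))) ≤ -(T / 2 * μ) + 2 * Real.log (m * q) := by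
  have hN0 : (0 : ℝ) < 2 * (T + 1) * l * q := by positivity
  have hN1 : (0 : ℝ) < (T + 2) * l * (q * (T + 1)) := by positivity
  have hTl : (T : ℝ) ≤ T * l := le_mul_of_one_le_right (by linarith) hlR
  have hm1 : (24 : ℝ) ≤ m := by linarith
  have hmq : (24 : ℝ) ≤ m * q := by nlinarith
  have hmle : (m : ℝ) ≤ m * q := le_mul_of_one_le_right (by linarith) hqR
  have h2 : √(2 * (T + 1) * l * q) * √((T + 2) * l * (q * (T + 1))) ≤ ((m : ℝ) * q) ^ 2 / 2 := by
    rw [← Real.sqrt_mul hN0.le]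
    rw [Real.sqrt_le_left (by positivity)]
    have h3 : (2 * ((T : ℝ) + 1) * l * q) ≤ m * q := by
      have : 2 * ((T : ℝ) + 1) * l ≤ m := by linarith
      gcongr
    have h4 : (((T : ℝ) + 2) * l * (q * (T + 1))) ≤ m * q * (m * q) := by
      have h5 : ((T : ℝ) + 2) * l ≤ m := by linarith
      have h6 : (q * ((T : ℝ) + 1)) ≤ q * (m * q) := by
        have : ((T : ℝ) + 1) ≤ m * q := by linarith
        gcongr
      calc (((T : ℝ) + 2) * l * (q * (T + 1))) ≤ m * (q * (m * q)) := by gcongr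
        _ = _ := by ring
    obtain ⟨z, hz⟩ : ∃ z : ℝ, z = m * q := ⟨_, rfl⟩
    rw [← hz] at h3 h4 hmq ⊢
    calc (2 * ((T : ℝ) + 1) * l * q) * (((T : ℝ) + 2) * l * (q * (T + 1)))
        ≤ z * (z * z) := by gcongr
      _ = z ^ 3 := by ring
      _ ≤ (z ^ 2 / 2) ^ 2 := by
        have : (0 : ℝ) ≤ z ^ 3 * (z - 4) := by
          have : (0 : ℝ) ≤ z - 4 := by linarith
          positivity
        have e : (z ^ 2 / 2) ^ 2 - z ^ 3 = z ^ 3 * (z - 4) / 4 := by ring
        linarith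
  have hcpos : 0 < 2 * Real.exp (-(T / 2 * μ)) * √(2 * (T + 1) * l * q) *
            √((T + 2) * l * (q * (T + 1))) := by positivity
  have h1 : 2 * Real.exp (-(T / 2 * μ)) * √(2 * (T + 1) * l * q) *
            √((T + 2) * l * (q * (T + 1))) ≤ Real.exp (-(T / 2 * μ)) * (m * q) ^ 2 := by
    calc 2 * Real.exp (-(T / 2 * μ)) * √(2 * (T + 1) * l * q) *
            √((T + 2) * l * (q * (T + 1))) = Real.exp (-(T / 2 * μ)) *
          (2 * (√(2 * (T + 1) * l * q) * √((T + 2) * l * (q * (T + 1))))) := by ring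
      _ ≤ Real.exp (-(T / 2 * μ)) * (2 * ((m * q) ^ 2 / 2)) := by gcongr
      _ = _ := by ring
  refine (Real.log_le_log hcpos h1).trans (le_of_eq ?_)
  rw [Real.log_mul (Real.exp_pos _).ne' (by positivity), Real.log_exp, Real.log_pow]
  norm_num

/-- the inequality with the parameter `T` -/
theorem transfer_core (F : ℤ[X][X]) (hF : Irreducible F) (hdeg : 0 < F.natDegree)
    (hl0 : 1 ≤ dx F) (m T : ℕ) (hT : 1 ≤ T) (hm : 8 * ((T + 2) * dx F) ≤ m) :
    mm (tC F) / 8 - Real.log (m * F.natDegree) / (T + 1) ≤ lM (F.eval (X ^ m)) := by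
  obtain ⟨q, hq⟩ : ∃ q, q = F.natDegree := ⟨_, rfl⟩
  obtain ⟨l, hl⟩ : ∃ l, l = dx F := ⟨_, rfl⟩
  rw [← hq] at hdeg ⊢
  rw [← hl] at hl0 hm
  have hF0 : F ≠ 0 := hF.ne_zero
  have hlm : l < m := by nlinarith
  obtain ⟨A, hFA, hAd, hAx, hAe⟩ := exists_aux F hF q l T hq.symm hdeg hl.symm hl0 hT
  set φ := F.eval (X ^ m) with hφ
  set ψ := A.eval (X ^ m) with hψ
  have hφ0 : φ ≠ 0 := eval_ne_zero F hF0 m (by omega)
  obtain ⟨R1, hR1, hR1d, P1, Q1, hPQ1⟩ := exists_res F A hF (by omega) hFA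
  obtain ⟨R2, hR2, hR2d, P2, Q2, hPQ2⟩ := exists_res F (der m F) hF (by omega)
    (der_not_dvd m F hF (by omega) (by omega) (by omega))
  have hR1e : P1.eval (X ^ m) * φ + Q1.eval (X ^ m) * ψ = R1 := by
    have := congrArg (fun G => G.eval (X ^ m)) hPQ1
    simpa using this
  have hR2e : P2.eval (X ^ m) * φ + Q2.eval (X ^ m) * (X * derivative φ) = R2 := by
    have := congrArg (fun G => G.eval (X ^ m)) hPQ2
    simpa [eval_der] using this
  obtain ⟨s, hs, hsdeg, hslM⟩ := good_factors φ ψ R1 R2 hφ0 hR1 hR2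
    (fun g h1 h2 => by
      rw [← hR1e]
      exact dvd_add (h1.mul_left _) (h2.mul_left _))
    (fun g h1 h2 => by
      rw [← hR2e]
      exact dvd_add (h1.mul_left _) ((h2.mul_left _).mul_left _))
  -- degrees
  have hAd' : A.natDegree ≤ q * (T + 1) - 1 := by omega
  have hAx' : dx A ≤ (T + 2) * l - 1 := by omega
  have hR1d' : R1.natDegree ≤ l * (q * (T + 1)) + ((T + 2) * l) * q := by
    rw [← hl, ← hq] at hR1d
    refine hR1d.trans (add_le_add (Nat.mul_le_mul_left l (by omega)) (Nat.mul_le_mul_right q (by omega)))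
  have hR2d' : R2.natDegree ≤ 2 * (l * q) := by
    have h1 := natDegree_der_le m F
    have h2 := dx_der_le m F
    rw [← hl] at h2
    rw [← hq] at h1
    rw [← hl, ← hq] at hR2d
    have h3 : l * (der m F).natDegree ≤ l * q := Nat.mul_le_mul_left l h1
    have h4 : dx (der m F) * q ≤ l * q := Nat.mul_le_mul_right q h2
    omega
  have hφd : m * q ≤ φ.natDegree := by
    have := le_natDegree_eval F hF0 m (by omega)
    rwa [← hq] at this
  set E := (T + 2) * l - 1 + m * (q * (T + 1) - 1) with hE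
  have hψd : ψ.natDegree ≤ E := by
    refine (natDegree_eval_le A m).trans (add_le_add hAx' (Nat.mul_le_mul_left m hAd'))
  have hEm : E ≤ m * (q * (T + 1)) := by
    have h1 : (T + 2) * l - 1 ≤ m := by omega
    have h2 : 1 ≤ q * (T + 1) := Nat.one_le_iff_ne_zero.mpr (by positivity)
    calc E ≤ m + m * (q * (T + 1) - 1) := by omega
      _ = m * (q * (T + 1) - 1 + 1) := by ring
      _ = m * (q * (T + 1)) := by rw [Nat.sub_add_cancel h2]
  set c := 2 * Real.exp (-(T / 2 * mm (tC F))) * √(2 * (T + 1) * l * q) *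
            √((T + 2) * l * (q * (T + 1))) with hc
  have hTR : (1 : ℝ) ≤ T := by exact_mod_cast hT
  have hqR : (1 : ℝ) ≤ q := by exact_mod_cast hdeg
  have hlR : (1 : ℝ) ≤ l := by exact_mod_cast hl0
  have hmR : 8 * (((T : ℝ) + 2) * l) ≤ m := by exact_mod_cast hm
  have hcpos : 0 < c := by positivity
  -- each good factor
  have hfac : ∀ p ∈ s, -(p.natDegree * Real.log c) ≤ E * lM p := by
    intro p hp
    obtain ⟨h1, h2, h3⟩ := hs p hp
    refine prime_eval_bound p ψ h1 h2 E hψd c hcpos ?_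
    intro α hα
    apply hAe m α
    obtain ⟨u, hu⟩ := h3
    rw [← hφ, hu, map_mul, hα, zero_mul]
  have hsum : -((∑ p ∈ s, (p.natDegree : ℝ)) * Real.log c) ≤ E * lM φ := by
    calc -((∑ p ∈ s, (p.natDegree : ℝ)) * Real.log c) = ∑ p ∈ s, -(p.natDegree * Real.log c) := by
          rw [Finset.sum_neg_distrib, Finset.sum_mul]
      _ ≤ ∑ p ∈ s, E * lM p := Finset.sum_le_sum hfac
      _ = E * ∑ p ∈ s, lM p := by rw [Finset.mul_sum]
      _ ≤ E * lM φ := by gcongr
  -- bound for log c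
  have hN0 : (0 : ℝ) < 2 * (T + 1) * l * q := by positivity
  have hN1 : (0 : ℝ) < (T + 2) * l * (q * (T + 1)) := by positivity
  have hmpos : (0 : ℝ) < m := by
    have : (0 : ℝ) < 8 * (((T : ℝ) + 2) * l) := by positivity
    linarith
  have hm1 : (24 : ℝ) ≤ m := by nlinarith
  have hmq : (24 : ℝ) ≤ m * q := by nlinarith
  have hlogc : Real.log c ≤ -(T / 2 * mm (tC F)) + 2 * Real.log (m * q) :=
    log_c_bound T l q m _ hTR hqR hlR hmR
  -- the degree of the good part
  have hgood : ((m : ℝ) * q) / 2 ≤ ∑ p ∈ s, (p.natDegree : ℝ) := by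
    have h1 : m * q ≤ l * (q * (T + 1)) + ((T + 2) * l) * q + 2 * (l * q) + ∑ p ∈ s, p.natDegree := by
      omega
    have h2 : ((m : ℝ) * q) ≤ l * (q * (T + 1)) + ((T + 2) * l) * q + 2 * (l * q) +
        ∑ p ∈ s, (p.natDegree : ℝ) := by exact_mod_cast h1
    have h3 : (l : ℝ) * (q * (T + 1)) + ((T + 2) * l) * q + 2 * (l * q) ≤ (m * q) / 2 := by
      have h4 : (l : ℝ) * (q * (T + 1)) + ((T + 2) * l) * q + 2 * (l * q) =
          ((2 * T + 5) * l) * q := by ring
      have h5 : (2 * (T : ℝ) + 5) * l ≤ m / 2 := by nlinarith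
      rw [h4]
      calc ((2 * (T : ℝ) + 5) * l) * q ≤ (m / 2) * q := by gcongr
        _ = _ := by ring
    linarith
  have hlMφ := lM_nonneg φ
  set G := T / 2 * mm (tC F) - 2 * Real.log (m * q) with hG
  have hlogmq : 0 ≤ Real.log (m * q) := Real.log_nonneg (by linarith)
  have hmm : 0 ≤ mm (tC F) := mm_nonneg F hF0
  have hT1 : (0 : ℝ) < T + 1 := by positivity
  have hmain : G / (2 * (T + 1)) ≤ lM φ := by
    rcases le_total G 0 with h | h
    · exact (div_nonpos_of_nonpos_of_nonneg h (by positivity)).trans hlMφ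
    · have h1 : (m * q) / 2 * G ≤ m * (q * (T + 1)) * lM φ := by
        calc (m * q) / 2 * G ≤ (∑ p ∈ s, (p.natDegree : ℝ)) * G := by gcongr
          _ ≤ (∑ p ∈ s, (p.natDegree : ℝ)) * (-Real.log c) := by
            apply mul_le_mul_of_nonneg_left _ (Finset.sum_nonneg fun p _ => Nat.cast_nonneg _)
            rw [hG]; linarith
          _ = -((∑ p ∈ s, (p.natDegree : ℝ)) * Real.log c) := by ring
          _ ≤ E * lM φ := hsum
          _ ≤ m * (q * (T + 1)) * lM φ := by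
            have : (E : ℝ) ≤ m * (q * (T + 1)) := by exact_mod_cast hEm
            gcongr
      rw [div_le_iff₀ (by positivity)]
      have h2 : (0 : ℝ) < m * q / 2 := by positivity
      have h3 : (m * q) / 2 * G ≤ (m * q) / 2 * (lM φ * (2 * (T + 1))) := by
        calc (m * q) / 2 * G ≤ _ := h1
          _ = _ := by ring
      exact le_of_mul_le_mul_left h3 h2
  refine le_trans ?_ hmain
  rw [hG]
  have h1 : (T / 2 * mm (tC F) - 2 * Real.log (m * q)) / (2 * (T + 1)) =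
      T / (4 * (T + 1)) * mm (tC F) - Real.log (m * q) / (T + 1) := by
    field_simp
    ring
  rw [h1]
  have h2 : (1 : ℝ) / 8 ≤ T / (4 * (T + 1)) := by
    rw [div_le_div_iff₀ (by norm_num) (by positivity)]
    linarith
  have h3 : mm (tC F) / 8 ≤ T / (4 * (T + 1)) * mm (tC F) := by
    calc mm (tC F) / 8 = 1 / 8 * mm (tC F) := by ring
      _ ≤ _ := by gcongr
  linarith

end Pool.Agent.Lib.MP_7ab245_nt.Blk
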