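import Mathlib
import Pool.Agent.Lib.MP_7ab245_nt.Blk.TransferCore
import Pool.Agent.Lib.MP_7ab245_nt.Blk.CircPow
import Pool.Agent.Lib.MP_7ab245_nt.Blk.ResP

/-!
Uniform lower bound in the Boyd-Lawton limit: `M(F(x, x^m))` is bounded from below in terms of the
Mahler measure of `F` as soon as `m` is large compared with the degree of `F` in `x` times the
logarithm of the degree of `F(x, x^m)`.
-/

set_option autoImplicit false

open Polynomial Real

namespace Pool.Agent.Lib.MP_7ab245_nt.Blk

lemma eq_map_C_of_dx (F : ℤ[X][X]) (h : dx F = 0) :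
    F = (F.map (constantCoeff : ℤ[X] →+* ℤ)).map (C : ℤ →+* ℤ[X]) := by
  ext j i
  rw [coeff_map, coeff_map]
  have h1 : F.coeff j = C ((F.coeff j).coeff 0) := by
    apply eq_C_of_natDegree_eq_zero
    have := natDegree_coeff_le_dx F j
    omega
  conv_lhs => rw [h1]
  rfl

lemma transfer_y (g : ℤ[X]) (m : ℕ) (hm : 0 < m) :
    mm (tC (g.map (C : ℤ →+* ℤ[X]))) = lM ((g.map (C : ℤ →+* ℤ[X])).eval (X ^ m)) := by
  have h1 : (g.map (C : ℤ →+* ℤ[X])).eval (X ^ m) = expand ℤ m g := by
    rw [eval_map, expand_eq_sum, eval₂_eq_sum]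
  rw [h1, lM, map_expand, logMahler_expand _ m hm, mm]
  have h2 : ∀ z : ℂ, sl (tC (g.map (C : ℤ →+* ℤ[X]))) z = g.map (Int.castRingHom ℂ) := by
    intro z
    unfold sl tC
    rw [map_map, map_map]
    congr 1
    ext
    simp
  simp only [h2]
  rw [Real.circleAverage_const]

lemma transfer_const (F : ℤ[X][X]) (hF : F ≠ 0) (hdeg : F.natDegree = 0) (m : ℕ) :
    mm (tC F) = lM (F.eval (X ^ m)) := by
  obtain ⟨g, hg⟩ : ∃ g, F = C g := ⟨_, eq_C_of_natDegree_eq_zero hdeg⟩
  subst hg
  have hg0 : g ≠ 0 := by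
    rintro rfl; exact hF (by simp)
  rw [eval_C, lM, ← mm_C _ (map_ne_zero_of_ne hg0)]
  congr 1
  unfold tC
  rw [map_C, coe_mapRingHom]

theorem transfer_irr (F : ℤ[X][X]) (hF : Irreducible F) (hdeg : 0 < F.natDegree) (m : ℕ)
    (hm : 24 * (dx F + 1) ≤ m) :
    mm (tC F) / 8 - 24 * dx F / m * Real.log (m * F.natDegree) ≤ lM (F.eval (X ^ m)) := by
  have hmm : 0 ≤ mm (tC F) := mm_nonneg F hF.ne_zero
  have hmpos : 0 < m := by omega
  have hmR : (0 : ℝ) < m := by exact_mod_cast hmpos
  rcases Nat.eq_zero_or_pos (dx F) with h0 | hl0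
  · have h1 := transfer_y (F.map (constantCoeff : ℤ[X] →+* ℤ)) m hmpos
    rw [← eq_map_C_of_dx F h0] at h1
    rw [← h1, h0]
    simp
    linarith
  · obtain ⟨l, hl⟩ : ∃ l, l = dx F := ⟨_, rfl⟩
    obtain ⟨T, hT⟩ : ∃ T, T = m / (8 * l) - 2 := ⟨_, rfl⟩
    rw [← hl] at hm hl0
    have h3 : 3 ≤ m / (8 * l) := by
      rw [Nat.le_div_iff_mul_le (by positivity)]
      omega
    have hT1 : 1 ≤ T := by omega
    have hT2 : T + 2 = m / (8 * l) := by omega
    have hm1 : 8 * ((T + 2) * l) ≤ m := by
      rw [hT2]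
      have := Nat.div_mul_le_self m (8 * l)
      calc 8 * (m / (8 * l) * l) = m / (8 * l) * (8 * l) := by ring
        _ ≤ m := this
    have hm2 : m < 8 * l * (T + 3) := by
      have := Nat.lt_mul_div_succ m (show 0 < 8 * l by positivity)
      rw [← hT2] at this
      exact this
    have h4 := transfer_core F hF hdeg (by omega) m T hT1 (by rw [← hl]; exact hm1)
    refine le_trans ?_ h4
    have hlog : 0 ≤ Real.log (m * F.natDegree) := by
      apply Real.log_nonneg
      have h5 : (1 : ℝ) ≤ m := by exact_mod_cast hmpos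
      have h6 : (1 : ℝ) ≤ F.natDegree := by exact_mod_cast hdeg
      nlinarith
    have h5 : Real.log (m * F.natDegree) / (T + 1) ≤
        24 * dx F / m * Real.log (m * F.natDegree) := by
      rw [div_eq_mul_inv, mul_comm]
      apply mul_le_mul_of_nonneg_right _ hlog
      rw [inv_le_iff_one_le_mul₀ (by positivity), ← hl]
      have h6 : (m : ℝ) ≤ 24 * l * (T + 1) := by
        have : m ≤ 24 * l * (T + 1) := by nlinarith
        exact_mod_cast this
      rw [div_mul_eq_mul_div, le_div_iff₀ hmR, one_mul]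
      linarith
    linarith

/-- general version, `q` an upper bound for the degree in `y` -/
theorem transfer_aux (m q : ℕ) (hq : 1 ≤ q) (F : ℤ[X][X]) : F ≠ 0 → F.natDegree ≤ q →
    24 * (dx F + 1) ≤ m →
    mm (tC F) / 8 - 24 * dx F / m * Real.log (m * q) ≤ lM (F.eval (X ^ m)) := by
  induction F using WfDvdMonoid.induction_on_irreducible with
  | zero => intro h; exact absurd rfl h
  | unit u hu =>
    intro h1 _ h3
    have h4 := transfer_const u h1 (natDegree_eq_zero_of_isUnit hu) m
    have hmm : 0 ≤ mm (tC u) := mm_nonneg u h1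
    have hmR : (1 : ℝ) ≤ m := by
      have : 1 ≤ m := by omega
      exact_mod_cast this
    have hqR : (1 : ℝ) ≤ q := by exact_mod_cast hq
    have hlog : 0 ≤ Real.log (m * q) := Real.log_nonneg (by nlinarith)
    have : 0 ≤ 24 * (dx u : ℝ) / m * Real.log (m * q) := by positivity
    rw [← h4]
    linarith
  | mul a i ha hi ih =>
    intro h1 h2 h3
    have hi0 : i ≠ 0 := hi.ne_zero
    rw [natDegree_mul hi0 ha] at h2
    rw [dx_mul i a hi0 ha] at h3
    have h4 := ih ha (by omega) (by omega)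
    have hmR : (1 : ℝ) ≤ m := by
      have : 1 ≤ m := by omega
      exact_mod_cast this
    have hqR : (1 : ℝ) ≤ q := by exact_mod_cast hq
    have hlog : 0 ≤ Real.log (m * q) := Real.log_nonneg (by nlinarith)
    have h5 : mm (tC i) / 8 - 24 * dx i / m * Real.log (m * q) ≤ lM (i.eval (X ^ m)) := by
      rcases Nat.eq_zero_or_pos i.natDegree with h0 | hpos
      · have h6 := transfer_const i hi0 h0 m
        have hmm : 0 ≤ mm (tC i) := mm_nonneg i hi0
        have : 0 ≤ 24 * (dx i : ℝ) / m * Real.log (m * q) := by positivity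
        rw [← h6]
        linarith
      · refine le_trans ?_ (transfer_irr i hi hpos m (by omega))
        have h7 : Real.log (m * i.natDegree) ≤ Real.log (m * q) := by
          apply Real.log_le_log
          · have : (0 : ℝ) < i.natDegree := by exact_mod_cast hpos
            positivity
          · have : (i.natDegree : ℝ) ≤ q := by exact_mod_cast (by omega : i.natDegree ≤ q)
            gcongr
        have h8 : 24 * (dx i : ℝ) / m * Real.log (m * i.natDegree) ≤
            24 * (dx i : ℝ) / m * Real.log (m * q) := by gcongr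
        linarith
    have h6 : mm (tC (i * a)) = mm (tC i) + mm (tC a) := by
      rw [tC_mul, mm_mul _ _ (tC_ne_zero hi0) (tC_ne_zero ha)]
    have h7 : lM ((i * a).eval (X ^ m)) = lM (i.eval (X ^ m)) + lM (a.eval (X ^ m)) := by
      rw [eval_mul, lM_mul (eval_ne_zero i hi0 m (by omega)) (eval_ne_zero a ha m (by omega))]
    rw [h6, h7, dx_mul i a hi0 ha]
    have h8 : 24 * ((dx i + dx a : ℕ) : ℝ) / m * Real.log (m * q) =
        24 * (dx i : ℝ) / m * Real.log (m * q) + 24 * (dx a : ℝ) / m * Real.log (m * q) := by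
      push_cast; ring
    rw [h8]
    linarith

theorem transfer (F : ℤ[X][X]) (hF : F ≠ 0) (hdeg : 0 < F.natDegree) (m : ℕ)
    (hm : 24 * (dx F + 1) ≤ m) :
    mm (tC F) / 8 - 24 * dx F / m * Real.log (m * F.natDegree) ≤ lM (F.eval (X ^ m)) :=
  transfer_aux m F.natDegree hdeg F hF le_rfl hm

lemma lM_unit {u : ℤ[X]} (hu : IsUnit u) : lM u = 0 := by
  obtain ⟨v, hv⟩ := hu.exists_right_inv
  have hu0 : u ≠ 0 := hu.ne_zero
  have hv0 : v ≠ 0 := by
    rintro rfl; rw [mul_zero] at hv; exact zero_ne_one hv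
  have h1 := lM_mul hu0 hv0
  rw [hv, lM_one] at h1
  linarith [lM_nonneg u, lM_nonneg v]

/-- a primitive polynomial of Mahler measure one -/
theorem lM_eq_zero_of_primitive (F : ℤ[X][X]) : F.IsPrimitive → mm (tC F) ≤ 0 →
    ∀ m : ℕ, dx F < m → lM (F.eval (X ^ m)) = 0 := by
  induction F using WfDvdMonoid.induction_on_irreducible with
  | zero => intro h; exact absurd rfl h.ne_zero
  | unit u hu =>
    intro _ _ m _
    exact lM_unit (hu.map (evalRingHom (X ^ m)))
  | mul a i ha hi ih =>
    intro h1 h2 m hm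
    have hi0 : i ≠ 0 := hi.ne_zero
    rw [dx_mul i a hi0 ha] at hm
    rw [tC_mul, mm_mul _ _ (tC_ne_zero hi0) (tC_ne_zero ha)] at h2
    have h3 := mm_nonneg i hi0
    have h4 := mm_nonneg a ha
    have hip : i.IsPrimitive := isPrimitive_of_dvd h1 (dvd_mul_right i a)
    have hap : a.IsPrimitive := isPrimitive_of_dvd h1 (dvd_mul_left a i)
    have hpos : 0 < i.natDegree := by
      rcases Nat.eq_zero_or_pos i.natDegree with h0 | hpos
      · exfalso
        obtain ⟨g, hg⟩ : ∃ g, i = C g := ⟨_, eq_C_of_natDegree_eq_zero h0⟩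
        have h5 : IsUnit g := hip g (by rw [hg])
        exact hi.not_isUnit (by rw [hg]; exact isUnit_C.mpr h5)
      · exact hpos
    rw [eval_mul, lM_mul (eval_ne_zero i hi0 m (by omega)) (eval_ne_zero a ha m (by omega)),
      lM_eq_zero_of_mm i hi hpos (by linarith) m (by omega), ih hap (by linarith) m (by omega),
      add_zero]

end Pool.Agent.Lib.MP_7ab245_nt.Blk
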