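import Mathlib
import Pool.Agent.Lib.MP_7ab245_nt.Blk.Defs
import Pool.Agent.Lib.MP_7ab245_nt.Few.Homs

/-! Dirichlet approximation: a polynomial with few blocks is `F(x, x^m)` with small degree in `x`. -/

set_option autoImplicit false

open Polynomial

namespace Pool.Agent.Lib.MP_7ab245_nt.Blk

/-- integers `q`, `a_s` and the step `m = n / q` -/
lemma window_dirichlet (n ℓ Q : ℕ) (hn : 0 < n) (hQ : 0 < Q) (S : Finset ℕ) (st : ℕ)
    (hst0 : st ≠ 0) (hstn : st ≤ n) (hstl : n ≤ st + ℓ) :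
    ∃ (q : ℕ) (a : ℕ → ℕ), 1 ≤ q ∧ q ≤ Q ^ ((S.erase 0).erase st).card ∧
      ∀ s ∈ S, s ≤ n → a s ≤ q ∧
        (a s * (n / q) ≤ s + (n / (q * Q) + 1 + ℓ + q)) ∧
        (s ≤ a s * (n / q) + (n / (q * Q) + 1 + ℓ + q)) := by
  obtain ⟨q, hq1, hq2, hq⟩ := Few.dirichlet ((S.erase 0).erase st) (fun s => (s : ℝ) / n)
    (fun _ => Q) (fun _ => hQ)
  rw [Finset.prod_const] at hq2
  refine ⟨q, fun s => if s = 0 then 0 else if s = st then q else (round (q * ((s : ℝ) / n))).toNat,
    hq1, hq2, fun s hs hsn => ?_⟩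
  have hqm : q * (n / q) ≤ n := Nat.mul_div_le n q
  have hqm' : n < q * (n / q) + q := by
    have := Nat.lt_mul_div_succ n (show 0 < q by omega)
    rw [mul_add, mul_one] at this
    exact this
  by_cases h0 : s = 0
  · simp [h0]
  by_cases h1 : s = st
  · simp only [h1, if_false, if_true, hst0]
    generalize n / (q * Q) = W
    refine ⟨le_rfl, ?_, ?_⟩ <;> omega
  · simp only [h0, h1, if_false]
    have hmem : s ∈ (S.erase 0).erase st := by
      simp only [Finset.mem_erase]
      exact ⟨h1, h0, hs⟩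
    have hr := hq s hmem
    have hnR : (0 : ℝ) < n := by exact_mod_cast hn
    have hQR : (0 : ℝ) < Q := by exact_mod_cast hQ
    have hqR : (0 : ℝ) < q := by exact_mod_cast (show 0 < q by omega)
    have hsR : (s : ℝ) ≤ n := by exact_mod_cast hsn
    set t : ℝ := q * ((s : ℝ) / n) with ht
    have ht0 : 0 ≤ t := by positivity
    have htq : t ≤ q := by
      rw [ht]
      calc (q : ℝ) * (s / n) ≤ q * 1 := by
            gcongr
            rw [div_le_one hnR]; exact hsR
        _ = q := mul_one _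
    have hro0 : 0 ≤ round t := by
      rw [round_eq]
      exact Int.floor_nonneg.mpr (by linarith)
    have hroq : round t ≤ q := by
      have : round t ≤ round (q : ℝ) := by
        rw [round_eq, round_eq]
        exact Int.floor_le_floor (by linarith)
      simpa using this
    set a : ℕ := (round t).toNat with ha
    have haZ : (a : ℤ) = round t := Int.toNat_of_nonneg hro0
    have haR : (a : ℝ) = (round t : ℝ) := by
      rw [← haZ]; simp
    have haq : a ≤ q := by
      have : (a : ℤ) ≤ q := by rw [haZ]; exact hroq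
      exact_mod_cast this
    rw [← haR] at hr
    have hr1 := abs_le.mp hr
    -- real inequality
    set m := n / q with hm
    set W := n / (q * Q) with hW
    have hmR1 : (q : ℝ) * m ≤ n := by exact_mod_cast hqm
    have hmR2 : (n : ℝ) < q * m + q := by exact_mod_cast hqm'
    have hWR : (n : ℝ) / (q * Q) < W + 1 := by
      rw [div_lt_iff₀ (by positivity)]
      have := Nat.lt_mul_div_succ n (show 0 < q * Q by positivity)
      have h2 : (n : ℝ) < ((q * Q) * (n / (q * Q) + 1) : ℕ) := by exact_mod_cast this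
      push_cast at h2
      rw [← hW] at h2
      linarith
    have hts : t * (n / q) = s := by
      rw [ht]
      field_simp
    have e1 : (a : ℝ) * (n / q) - s ≤ n / (q * Q) := by
      have : ((a : ℝ) - t) * (n / q) ≤ (1 / Q) * (n / q) := by
        apply mul_le_mul_of_nonneg_right _ (by positivity)
        linarith [hr1.1]
      rw [sub_mul, hts] at this
      calc _ ≤ _ := this
        _ = n / (q * Q) := by field_simp
    have e2 : (s : ℝ) - a * (n / q) ≤ n / (q * Q) := by
      have : (t - (a : ℝ)) * (n / q) ≤ (1 / Q) * (n / q) := by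
        apply mul_le_mul_of_nonneg_right _ (by positivity)
        linarith [hr1.2]
      rw [sub_mul, hts] at this
      calc _ ≤ _ := this
        _ = n / (q * Q) := by field_simp
    have e3 : (a : ℝ) * m ≤ a * (n / q) := by
      apply mul_le_mul_of_nonneg_left _ (by positivity)
      rw [le_div_iff₀ hqR]; linarith
    have e4 : (a : ℝ) * (n / q) ≤ a * m + q := by
      have h1 : (n : ℝ) / q ≤ m + 1 := by
        rw [div_le_iff₀ hqR]; linarith
      have h2 : (a : ℝ) * (n / q) ≤ a * (m + 1) := mul_le_mul_of_nonneg_left h1 (by positivity)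
      have h3 : (a : ℝ) ≤ q := by exact_mod_cast haq
      linarith
    refine ⟨haq, ?_, ?_⟩
    · have : (a : ℝ) * m ≤ s + (W + 1) := by linarith
      have h2 : a * m ≤ s + (W + 1) := by exact_mod_cast this
      omega
    · have : (s : ℝ) ≤ a * m + (W + 1 + q) := by linarith
      have h2 : s ≤ a * m + (W + 1 + q) := by exact_mod_cast this
      omega

/-- the numerical inequality -/
lemma window_numeric (B : ℝ) (hB : 1 ≤ B) (k : ℕ) (hk : 2 ≤ k) (n ℓ Q q c : ℕ) (hc : c ≤ k - 2)
    (hq1 : 1 ≤ q) (hQ1 : 16 * B ≤ Q) (hQ2 : (Q : ℝ) ≤ 32 * B) (hq2 : q ≤ Q ^ c)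
    (hn : (ℓ + (32 * B) ^ (k - 1)) * (32 * B) ^ (k - 1) ≤ (n : ℝ)) :
    B * ((2 * (n / (q * Q) + 1 + ℓ + q) + ℓ : ℕ) + 1 : ℝ) ≤ (n / q : ℕ) := by
  have hqR : (0 : ℝ) < q := by exact_mod_cast (show 0 < q by omega)
  have hqR1 : (1 : ℝ) ≤ q := by exact_mod_cast hq1
  have hQR : (0 : ℝ) < Q := by linarith
  have hQ0 : 0 < Q := by exact_mod_cast hQR
  have hqk : (q : ℝ) ≤ (32 * B) ^ (k - 2) := by
    calc (q : ℝ) ≤ (Q : ℝ) ^ c := by exact_mod_cast hq2
      _ ≤ (32 * B) ^ c := by gcongr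
      _ ≤ (32 * B) ^ (k - 2) := by
        apply pow_le_pow_right₀ (by linarith) hc
  have hk1 : (32 * B) ^ (k - 1) = 32 * B * (32 * B) ^ (k - 2) := by
    rw [← pow_succ']; congr 1; omega
  set P := (32 * B) ^ (k - 2) with hP
  have hP0 : 0 < P := by positivity
  rw [hk1] at hn
  -- `n / q` is large
  have h1 : 32 * B * (ℓ + 32 * B * q) ≤ n / q := by
    rw [le_div_iff₀ hqR]
    calc 32 * B * (ℓ + 32 * B * q) * q ≤ 32 * B * (ℓ + 32 * B * P) * P := by gcongr
      _ = (ℓ + 32 * B * P) * (32 * B * P) := by ring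
      _ ≤ n := hn
  have h2 : (n : ℝ) / q - 1 ≤ (n / q : ℕ) := by
    have : (n : ℝ) < ((q * (n / q + 1) : ℕ) : ℝ) := by
      exact_mod_cast Nat.lt_mul_div_succ n (show 0 < q by omega)
    push_cast at this
    rw [sub_le_iff_le_add, div_le_iff₀ hqR]
    linarith
  have h3 : ((n / (q * Q) : ℕ) : ℝ) ≤ (n : ℝ) / q / (16 * B) := by
    calc ((n / (q * Q) : ℕ) : ℝ) ≤ (n : ℝ) / ((q * Q : ℕ) : ℝ) := Nat.cast_div_le
      _ = (n : ℝ) / q / Q := by push_cast; rw [div_div]
      _ ≤ (n : ℝ) / q / (16 * B) := by gcongr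
  have h4 : B * (2 * ((n : ℝ) / q / (16 * B))) = (n : ℝ) / q / 8 := by
    have : B ≠ 0 := by linarith
    field_simp
    ring
  push_cast
  have hBpos : 0 < B := by linarith
  have h5 : B * (2 * (((n / (q * Q) : ℕ) : ℝ) + 1 + ℓ + q) + ℓ + 1) ≤
      (n : ℝ) / q / 8 + B * (3 + 3 * ℓ + 2 * q) := by
    have := mul_le_mul_of_nonneg_left h3 (show 0 ≤ 2 * B by linarith)
    nlinarith [h4]
  have h6 : B * (3 + 3 * ℓ + 2 * q) + 1 ≤ 7 / 8 * ((n : ℝ) / q) := by
    have hl : (0 : ℝ) ≤ ℓ := by positivity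
    have h7 : 0 ≤ B * ℓ := by positivity
    have h8 : 1 ≤ B * q := one_le_mul_of_one_le_of_one_le hB hqR1
    have h9 : B * q ≤ B * (B * q) := by
      apply mul_le_mul_of_nonneg_left _ hBpos.le
      nlinarith
    nlinarith
  have h10 : ((n / q : ℕ) : ℝ) ≥ (n : ℝ) / q - 1 := h2
  linarith

/-- the polynomial in two variables -/
lemma window_poly (f : ℤ[X]) (m w : ℕ) (r a : ℕ → ℕ)
    (h : ∀ e ∈ f.support, r e + m * a e = w + e) :
    (∑ e ∈ f.support, monomial (a e) (monomial (r e) (f.coeff e)) : ℤ[X][X]).eval (X ^ m) =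
      X ^ w * f := by
  rw [eval_finsetSum]
  conv_rhs => rw [f.as_sum_support]
  rw [Finset.mul_sum]
  refine Finset.sum_congr rfl fun e he => ?_
  rw [eval_monomial, ← pow_mul, ← monomial_one_right_eq_X_pow, ← monomial_one_right_eq_X_pow,
    monomial_mul_monomial, monomial_mul_monomial, mul_one, one_mul, h e he]

theorem window (B : ℝ) (hB : 1 ≤ B) (k ℓ : ℕ) (S : Finset ℕ) (hS : S.card ≤ k) (f : ℤ[X])
    (h0 : f.coeff 0 ≠ 0) (hsupp : ∀ e ∈ f.support, ∃ s ∈ S, s ≤ e ∧ e ≤ s + ℓ)
    (hn : (ℓ + (32 * B) ^ (k - 1)) * (32 * B) ^ (k - 1) ≤ f.natDegree) :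
    ∃ (m w : ℕ) (F : ℤ[X][X]), F.eval (X ^ m) = X ^ w * f ∧ F.support.card ≤ k ∧
      B * (dx F + 1) ≤ m ∧ 0 < F.natDegree ∧ m * F.natDegree ≤ f.natDegree := by
  classical
  set n := f.natDegree with hndef
  have hf0 : f ≠ 0 := by
    rintro rfl
    simp at h0
  have h32 : (1 : ℝ) ≤ 32 * B := by linarith
  have hp1 : (1 : ℝ) ≤ (32 * B) ^ (k - 1) := one_le_pow₀ h32
  have hnl : (ℓ : ℝ) + 1 ≤ n := by
    refine le_trans ?_ hn
    have hl : (0 : ℝ) ≤ ℓ := by positivity
    nlinarith
  have hnl' : ℓ + 1 ≤ n := by exact_mod_cast hnl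
  have hnpos : 0 < n := by omega
  -- the lowest and the highest block
  obtain ⟨s0, hs0, hs01, -⟩ := hsupp 0 (mem_support_iff.mpr h0)
  have hs00 : s0 = 0 := by omega
  subst hs00
  have hnsupp : n ∈ f.support := natDegree_mem_support_of_nonzero hf0
  obtain ⟨st, hst, hst1, hst2⟩ := hsupp n hnsupp
  have hstne : st ≠ 0 := by omega
  have hcard2 : ((S.erase 0).erase st).card + 2 = S.card := by
    rw [Finset.card_erase_of_mem (Finset.mem_erase.mpr ⟨hstne, hst⟩),
      Finset.card_erase_of_mem hs0]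
    have : 1 < S.card := Finset.one_lt_card.mpr ⟨0, hs0, st, hst, hstne.symm⟩
    omega
  have hk : 2 ≤ k := by omega
  -- Dirichlet
  set Q : ℕ := ⌈16 * B⌉₊ with hQdef
  have hQ1 : 16 * B ≤ Q := Nat.le_ceil _
  have hQ2 : (Q : ℝ) ≤ 32 * B := by
    have := Nat.ceil_lt_add_one (show 0 ≤ 16 * B by linarith)
    linarith
  have hQ0 : 0 < Q := by
    have : (0 : ℝ) < Q := by linarith
    exact_mod_cast this
  obtain ⟨q, a, hq1, hq2, ha⟩ := window_dirichlet n ℓ Q hnpos hQ0 S st hstne hst1 hst2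
  have hnum := window_numeric B hB k hk n ℓ Q q _ (show ((S.erase 0).erase st).card ≤ k - 2 by omega)
    hq1 hQ1 hQ2 hq2 hn
  set m := n / q with hm
  set w := n / (q * Q) + 1 + ℓ + q with hw
  have hex : ∀ e, ∃ s, e ∈ f.support → s ∈ S ∧ s ≤ e ∧ e ≤ s + ℓ := by
    intro e
    by_cases he : e ∈ f.support
    · obtain ⟨s, h1, h2⟩ := hsupp e he
      exact ⟨s, fun _ => ⟨h1, h2⟩⟩
    · exact ⟨0, fun h => absurd h he⟩
  choose σ hσ using hex
  set F : ℤ[X][X] := ∑ e ∈ f.support,
    monomial (a (σ e)) (monomial (e + w - a (σ e) * m) (f.coeff e)) with hF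
  have hσn : ∀ e ∈ f.support, σ e ≤ n := fun e he =>
    ((hσ e he).2.1).trans (le_natDegree_of_mem_supp e he)
  have heval : F.eval (X ^ m) = X ^ w * f := by
    refine window_poly f m w (fun e => e + w - a (σ e) * m) (fun e => a (σ e)) fun e he => ?_
    have h1 := (ha (σ e) (hσ e he).1 (hσn e he)).2.1
    have h2 := (hσ e he).2.1
    have h3 : m * a (σ e) = a (σ e) * m := mul_comm _ _
    omega
  -- coefficients of `F`
  have hcoeff : ∀ j, F.coeff j = ∑ e ∈ f.support,
      if a (σ e) = j then monomial (e + w - a (σ e) * m) (f.coeff e) else 0 := by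
    intro j
    rw [hF, finsetSum_coeff]
    refine Finset.sum_congr rfl fun e _ => ?_
    rw [coeff_monomial]
  have hsub : ∀ j ∈ F.support, ∃ e ∈ f.support, a (σ e) = j := by
    intro j hj
    by_contra hcon
    push Not at hcon
    apply mem_support_iff.mp hj
    rw [hcoeff]
    exact Finset.sum_eq_zero fun e he => if_neg (hcon e he)
  have hdx : dx F ≤ 2 * w + ℓ := by
    refine Finset.sup_le fun j _ => ?_
    rw [hcoeff]
    refine natDegree_sum_le_of_forall_le _ _ fun e he => ?_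
    split_ifs
    · refine (natDegree_monomial_le _).trans ?_
      have h1 := (ha (σ e) (hσ e he).1 (hσn e he)).2.2
      have h2 := (hσ e he).2.2
      omega
    · simp
  have hdxR : B * (dx F + 1) ≤ m := by
    refine le_trans ?_ hnum
    have : (dx F : ℝ) ≤ ((2 * w + ℓ : ℕ) : ℝ) := by exact_mod_cast hdx
    have hB0 : 0 ≤ B := by linarith
    gcongr
  have hdxm : dx F < m := by
    have : (dx F : ℝ) + 1 ≤ m := by
      have h1 : (0 : ℝ) ≤ dx F := by positivity
      nlinarith
    have h2 : dx F + 1 ≤ m := by exact_mod_cast this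
    omega
  refine ⟨m, w, F, heval, ?_, hdxR, ?_, ?_⟩
  · have hsubset : F.support ⊆ S.image a := by
      intro j hj
      obtain ⟨e, he, hej⟩ := hsub j hj
      exact Finset.mem_image.mpr ⟨σ e, (hσ e he).1, hej⟩
    exact (Finset.card_le_card hsubset).trans (Finset.card_image_le.trans hS)
  · by_contra hcon
    have hd0 : F.natDegree = 0 := by omega
    have h1 : F = C (F.coeff 0) := eq_C_of_natDegree_eq_zero hd0
    have h2 : F.eval (X ^ m) = F.coeff 0 := by
      rw [h1]; simp
    rw [h2] at heval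
    have h3 : (F.coeff 0).natDegree = w + n := by
      rw [heval, natDegree_X_pow_mul w hf0, hndef]
      omega
    have h4 : (F.coeff 0).natDegree ≤ dx F := by
      by_cases h : F.coeff 0 = 0
      · simp [h]
      · exact Finset.le_sup (f := fun j => (F.coeff j).natDegree) (mem_support_iff.mpr h)
    have h5 : m ≤ n := Nat.div_le_self _ _
    omega
  · have hdeg : F.natDegree ≤ q := by
      rw [natDegree_le_iff_coeff_eq_zero]
      intro j hj
      by_contra hne
      obtain ⟨e, he, hej⟩ := hsub j (mem_support_iff.mpr hne)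
      have := (ha (σ e) (hσ e he).1 (hσn e he)).1
      omega
    calc m * F.natDegree ≤ m * q := Nat.mul_le_mul_left _ hdeg
      _ ≤ n := Nat.div_mul_le_self n q

end Pool.Agent.Lib.MP_7ab245_nt.Blk
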