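import Mathlib
import Pool.Agent.Lib.MP_7ab245_nt.Blk.Transfer
import Pool.Agent.Lib.MP_7ab245_nt.Blk.Gap
import Pool.Agent.Lib.MP_7ab245_nt.Blk.Window

/-!
The block theorem: integer polynomials with few blocks of coefficients.
-/

set_option autoImplicit false

open Polynomial Real

namespace Pool.Agent.Lib.MP_7ab245_nt.Blk

/-- content of a polynomial in two variables with respect to `y` -/
lemma exists_content (F : ℤ[X][X]) (hF : F ≠ 0) :
    ∃ (c : ℤ[X]) (G : ℤ[X][X]), c ≠ 0 ∧ F = C c * G ∧ G.IsPrimitive := by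
  letI : NormalizedGCDMonoid ℤ[X] := UniqueFactorizationMonoid.toNormalizedGCDMonoid ℤ[X]
  refine ⟨F.content, F.primPart, ?_, F.eq_C_content_mul_primPart, F.isPrimitive_primPart⟩
  rwa [Ne, content_eq_zero_iff]

lemma support_card_C_mul (c : ℤ[X]) (hc : c ≠ 0) (G : ℤ[X][X]) :
    (C c * G).support = G.support := by
  ext j
  rw [mem_support_iff, mem_support_iff, coeff_C_mul]
  constructor
  · intro h h0; exact h (by rw [h0, mul_zero])
  · intro h; exact mul_ne_zero hc h

lemma dx_C (c : ℤ[X]) (hc : c ≠ 0) : dx (C c : ℤ[X][X]) = c.natDegree := by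
  apply le_antisymm
  · rw [dx_le_iff]
    intro j
    rw [coeff_C]
    split_ifs
    · exact le_rfl
    · simp
  · have := natDegree_coeff_le_dx (C c : ℤ[X][X]) 0
    rwa [coeff_C_zero] at this

/-- splitting off powers of `X` -/
lemma exists_X_pow_mul (c : ℤ[X]) (hc : c ≠ 0) :
    ∃ (i : ℕ) (c1 : ℤ[X]), c = X ^ i * c1 ∧ c1.coeff 0 ≠ 0 := by
  obtain ⟨c1, h1, h2⟩ := exists_eq_pow_rootMultiplicity_mul_and_not_dvd c hc 0
  rw [C_0, sub_zero] at h1 h2
  refine ⟨_, c1, h1, ?_⟩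
  intro h0
  exact h2 (X_dvd_iff.mpr h0)

lemma lM_X_pow_mul (i : ℕ) (c : ℤ[X]) (hc : c ≠ 0) : lM (X ^ i * c) = lM c := by
  have h1 : lM (X ^ i) = 0 := by
    rw [lM, Polynomial.map_pow, map_X, X_pow_eq_monomial, logMahlerMeasure_monomial]
    simp
  rw [lM_mul (pow_ne_zero _ X_ne_zero) hc, h1, zero_add]

/-- the theorem for polynomials `F(x, x^m)` -/
theorem blk_curve (c : ℝ) (hc : 0 < c) (hgap : ∀ (k : ℕ) (F : ℤ[X][X]), F.IsPrimitive →
    F.support.card ≤ k → mm (tC F) < c / (k ^ 2 * Real.log (k + 1) ^ 7) → mm (tC F) = 0)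
    (k : ℕ) (hk : 1 ≤ k) (f : ℤ[X]) (hf0 : f.coeff 0 ≠ 0) (m w : ℕ) (F : ℤ[X][X])
    (hFm : F.eval (X ^ m) = X ^ w * f) (hcard : F.support.card ≤ k)
    (hm : 24 * (dx F + 1) ≤ m) (hdeg : 0 < F.natDegree)
    (hloss : 24 * dx F / m * Real.log (m * F.natDegree) ≤
      c / (16 * (k ^ 2 * Real.log (k + 1) ^ 7))) :
    c / (16 * (k ^ 2 * Real.log (k + 1) ^ 7)) ≤ lM f ∨
      ∃ u v : ℤ[X], f = u * v ∧ lM v = 0 ∧ v ≠ 0 ∧ u.natDegree ≤ dx F := by
  have hf : f ≠ 0 := by
    rintro rfl; simp at hf0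
  have hF0 : F ≠ 0 := by
    rintro rfl; simp at hdeg
  have hkR : (1 : ℝ) ≤ k := by exact_mod_cast hk
  have hlogk : 0 < Real.log (k + 1) := Real.log_pos (by linarith)
  obtain ⟨K, hK⟩ : ∃ K : ℝ, K = k ^ 2 * Real.log (k + 1) ^ 7 := ⟨_, rfl⟩
  have hKpos : 0 < K := by rw [hK]; positivity
  rw [← hK] at hloss ⊢
  obtain ⟨cc, G, hcc, hFG, hG⟩ := exists_content F hF0
  have hG0 : G ≠ 0 := hG.ne_zero
  have hdxF : dx F = cc.natDegree + dx G := by
    rw [hFG, dx_mul _ _ (by rwa [Ne, C_eq_zero]) hG0, dx_C cc hcc]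
  have hdegG : F.natDegree = G.natDegree := by
    rw [hFG, natDegree_C_mul hcc]
  have hcardG : G.support.card ≤ k := by
    rw [hFG, support_card_C_mul cc hcc] at hcard
    exact hcard
  have hm' : 24 * (dx G + 1) ≤ m := by omega
  have hmpos : 0 < m := by omega
  have hGm : F.eval (X ^ m) = cc * G.eval (X ^ m) := by rw [hFG, eval_mul, eval_C]
  have hGm0 : G.eval (X ^ m) ≠ 0 := eval_ne_zero G hG0 m (by omega)
  have htr := transfer G hG0 (by omega) m hm'
  have hle : lM (G.eval (X ^ m)) ≤ lM f := by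
    rw [← lM_X_pow_mul w f hf, ← hFm]
    apply lM_le_of_dvd
    · rw [hGm]; exact mul_ne_zero hcc hGm0
    · rw [hGm]; exact dvd_mul_left _ _
  by_cases hsmall : mm (tC G) < c / (k ^ 2 * Real.log (k + 1) ^ 7)
  · right
    have h0 := hgap k G hG hcardG hsmall
    have h1 := lM_eq_zero_of_primitive G hG h0.le m (by omega)
    obtain ⟨i, c1, hc1, hc10⟩ := exists_X_pow_mul cc hcc
    obtain ⟨j, v, hv, hv0⟩ := exists_X_pow_mul _ hGm0
    have hvne : v ≠ 0 := by rintro rfl; simp at hv0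
    have hc1ne : c1 ≠ 0 := by rintro rfl; simp at hc10
    have h2 : X ^ w * f = X ^ (i + j) * (c1 * v) := by
      rw [← hFm, hGm, hv, hc1]; ring
    have hprod : (c1 * v).coeff 0 ≠ 0 := by
      rw [mul_coeff_zero]; exact mul_ne_zero hc10 hv0
    have hwij : w = i + j := by
      have e1 : rootMultiplicity 0 (X ^ w * f) = w := by
        rw [rootMultiplicity_mul (mul_ne_zero (pow_ne_zero _ X_ne_zero) hf)]
        have : rootMultiplicity (0 : ℤ) f = 0 := by
          rw [rootMultiplicity_eq_zero]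
          rw [IsRoot.def, ← coeff_zero_eq_eval_zero]; exact hf0
        rw [this, add_zero]
        have := rootMultiplicity_X_sub_C_pow (0 : ℤ) w
        rwa [C_0, sub_zero] at this
      have e2 : rootMultiplicity 0 (X ^ (i + j) * (c1 * v)) = i + j := by
        rw [rootMultiplicity_mul (mul_ne_zero (pow_ne_zero _ X_ne_zero) (mul_ne_zero hc1ne hvne))]
        have : rootMultiplicity (0 : ℤ) (c1 * v) = 0 := by
          rw [rootMultiplicity_eq_zero]
          rw [IsRoot.def, ← coeff_zero_eq_eval_zero]; exact hprod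
        rw [this, add_zero]
        have := rootMultiplicity_X_sub_C_pow (0 : ℤ) (i + j)
        rwa [C_0, sub_zero] at this
      rw [← e1, h2, e2]
    have hfuv : f = c1 * v := by
      rw [hwij] at h2
      exact mul_left_cancel₀ (pow_ne_zero _ X_ne_zero) h2
    refine ⟨c1, v, hfuv, ?_, hvne, ?_⟩
    · rw [← lM_X_pow_mul j v hvne, ← hv, h1]
    · have : c1.natDegree ≤ cc.natDegree := by
        apply natDegree_le_of_dvd _ hcc
        rw [hc1]; exact dvd_mul_left _ _
      omega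
  · left
    rw [← hK] at hsmall
    push Not at hsmall
    have h1 : 24 * (dx G : ℝ) / m * Real.log (m * G.natDegree) ≤ c / (16 * K) := by
      refine le_trans ?_ hloss
      rw [hdegG]
      have h2 : (dx G : ℝ) ≤ dx F := by exact_mod_cast (by omega : dx G ≤ dx F)
      have h3 : 0 ≤ Real.log (m * G.natDegree) := by
        apply Real.log_nonneg
        have h5 : (1 : ℝ) ≤ m := by exact_mod_cast hmpos
        have h6 : (1 : ℝ) ≤ G.natDegree := by exact_mod_cast (by omega : 1 ≤ G.natDegree)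
        nlinarith
      gcongr
    have h2 : c / (16 * K) = c / K / 16 := by field_simp
    rw [h2] at h1 ⊢
    linarith

theorem blk_main : ∃ C : ℝ, 0 < C ∧ ∀ (k ℓ : ℕ) (S : Finset ℕ) (f : ℤ[X]), S.card ≤ k →
    f.coeff 0 ≠ 0 → (∀ e ∈ f.support, ∃ s ∈ S, s ≤ e ∧ e ≤ s + ℓ) →
    (ℓ + (C * k ^ 2 * Real.log (k + 1) ^ 7 * Real.log f.natDegree) ^ (k - 1)) *
      (C * k ^ 2 * Real.log (k + 1) ^ 7 * Real.log f.natDegree) ^ (k - 1) ≤ f.natDegree →
    1 / (C * k ^ 2 * Real.log (k + 1) ^ 7) ≤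
        Real.log (f.map (Int.castRingHom ℂ)).mahlerMeasure ∨
      ∃ u v : ℤ[X], f = u * v ∧ (v.map (Int.castRingHom ℂ)).mahlerMeasure = 1 ∧
        u.natDegree * Real.log f.natDegree ≤ f.natDegree := by
  obtain ⟨c', hc', hgap'⟩ := mm_gap
  -- we may take the constant at most one
  obtain ⟨c, hc, hc1, hgap⟩ : ∃ c : ℝ, 0 < c ∧ c ≤ 1 ∧ ∀ (k : ℕ) (F : ℤ[X][X]), F.IsPrimitive →
      F.support.card ≤ k → mm (tC F) < c / (k ^ 2 * Real.log (k + 1) ^ 7) → mm (tC F) = 0 := by
    refine ⟨min c' 1, lt_min hc' one_pos, min_le_right _ _, fun k F hF hk hlt => ?_⟩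
    apply hgap' k F hF hk
    refine hlt.trans_le ?_
    rcases le_or_gt (k : ℝ) 0 with h | h
    · have : (k : ℝ) = 0 := le_antisymm h (Nat.cast_nonneg _)
      rw [this]; simp
    · have h1 : (1 : ℝ) ≤ k := by
        have : 1 ≤ k := by exact_mod_cast h
        exact_mod_cast this
      have hl : 0 < Real.log ((k : ℝ) + 1) := Real.log_pos (by linarith)
      exact div_le_div_of_nonneg_right (min_le_left _ _) (by positivity)
  refine ⟨32 * (10000 / c), by positivity, ?_⟩
  intro k ℓ S f hS hf0 hsupp hn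
  obtain ⟨n, hnn⟩ : ∃ n, n = f.natDegree := ⟨_, rfl⟩
  have hfne : f ≠ 0 := by rintro rfl; simp at hf0
  -- small degrees
  rcases Nat.lt_or_ge n 2 with hn2 | hn2
  · right
    refine ⟨f, 1, by rw [mul_one], by simp, ?_⟩
    rw [← hnn]
    have : n = 0 ∨ n = 1 := by omega
    rcases this with h | h
    · rw [h]; simp
    · rw [h]; simp
  -- k ≥ 2
  have h0S : ∃ s ∈ S, s ≤ 0 ∧ 0 ≤ s + ℓ := hsupp 0 (mem_support_iff.mpr hf0)
  have htop : ∃ s ∈ S, s ≤ n ∧ n ≤ s + ℓ := by
    rw [hnn]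
    exact hsupp _ (natDegree_mem_support_of_nonzero hfne)
  rcases Nat.lt_or_ge k 2 with hk2 | hk2
  · exfalso
    obtain ⟨s, hs, hs0, _⟩ := h0S
    obtain ⟨t, ht, ht1, ht2⟩ := htop
    have hcard1 : S.card ≤ 1 := by omega
    have hst : s = t := Finset.card_le_one.mp hcard1 s hs t ht
    have hnl : n ≤ ℓ := by omega
    have hk1 : k - 1 = 0 := by omega
    rw [hk1, pow_zero, mul_one, ← hnn] at hn
    have h1 : (n : ℝ) ≤ ℓ := by exact_mod_cast hnl
    linarith
  have hkR : (2 : ℝ) ≤ k := by exact_mod_cast hk2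
  have hlogk : Real.log 3 ≤ Real.log (k + 1) := Real.log_le_log (by norm_num) (by linarith)
  have hlog3 : (1 : ℝ) ≤ Real.log 3 := by
    rw [Real.le_log_iff_exp_le (by norm_num)]
    exact Real.exp_one_lt_three.le
  have hlogk1 : 1 ≤ Real.log ((k : ℝ) + 1) := hlog3.trans hlogk
  have hnR : (2 : ℝ) ≤ n := by exact_mod_cast hn2
  have hlogn : (0.69 : ℝ) ≤ Real.log n := by
    calc (0.69 : ℝ) ≤ Real.log 2 := by linarith [Real.log_two_gt_d9]
      _ ≤ Real.log n := Real.log_le_log (by norm_num) hnR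
  obtain ⟨K, hK⟩ : ∃ K : ℝ, K = k ^ 2 * Real.log (k + 1) ^ 7 := ⟨_, rfl⟩
  have hK4 : 4 ≤ K := by
    have h1 : (4 : ℝ) ≤ (k : ℝ) ^ 2 := by nlinarith
    have h2 : (1 : ℝ) ≤ Real.log ((k : ℝ) + 1) ^ 7 := one_le_pow₀ hlogk1
    rw [hK]
    nlinarith
  obtain ⟨B, hB⟩ : ∃ B : ℝ, B = 10000 / c * K * Real.log n := ⟨_, rfl⟩
  have hLam : 32 * (10000 / c) * (k : ℝ) ^ 2 * Real.log (k + 1) ^ 7 * Real.log f.natDegree =
      32 * B := by
    rw [hB, hK, hnn]; ring
  rw [hLam] at hn
  have hc10 : (10000 : ℝ) ≤ 10000 / c := by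
    rw [le_div_iff₀ hc]; linarith
  have hB1 : 10000 * (K * Real.log n) ≤ B := by
    rw [hB, mul_assoc]
    have : 0 ≤ K * Real.log n := by positivity
    gcongr
  have hKl : 2.76 ≤ K * Real.log n := by nlinarith
  have hBge : (24 : ℝ) ≤ B := by linarith
  obtain ⟨m, w, F, hFm, hcard, hBm, hdeg, hmd⟩ := window B (by linarith) k ℓ S hS f hf0 hsupp hn
  have hdx1 : (1 : ℝ) ≤ (dx F : ℝ) + 1 := by
    have : (0 : ℝ) ≤ dx F := Nat.cast_nonneg _
    linarith
  have hmB : B ≤ m := by nlinarith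
  have hm24 : 24 * (dx F + 1) ≤ m := by
    have h1 : (24 : ℝ) * (dx F + 1) ≤ m := by nlinarith
    exact_mod_cast h1
  have hmpos : (0 : ℝ) < m := by linarith
  have hdegR : (1 : ℝ) ≤ F.natDegree := by exact_mod_cast hdeg
  have hmdR : (m : ℝ) * F.natDegree ≤ n := by
    rw [hnn]; exact_mod_cast hmd
  have hmn : (m : ℝ) ≤ n := by nlinarith
  -- the loss
  have hloss : 24 * dx F / m * Real.log (m * F.natDegree) ≤
      c / (16 * (k ^ 2 * Real.log (k + 1) ^ 7)) := by
    rw [← hK]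
    have h1 : Real.log (m * F.natDegree) ≤ Real.log n := Real.log_le_log (by positivity) hmdR
    have h2 : (dx F : ℝ) / m ≤ 1 / B := by
      rw [div_le_div_iff₀ hmpos (by linarith)]
      nlinarith
    calc 24 * (dx F : ℝ) / m * Real.log (m * F.natDegree)
        = 24 * (dx F / m) * Real.log (m * F.natDegree) := by ring
      _ ≤ 24 * (1 / B) * Real.log n := by
        apply mul_le_mul (by gcongr) h1 _ (by positivity)
        apply Real.log_nonneg
        have : (1 : ℝ) ≤ m := by linarith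
        nlinarith
      _ = 24 * c / (10000 * K) := by
        rw [hB]
        have : Real.log n ≠ 0 := by linarith
        have : K ≠ 0 := by linarith
        field_simp
      _ ≤ c / (16 * K) := by
        rw [div_le_div_iff₀ (by positivity) (by positivity)]
        have : 0 < c * K := by positivity
        nlinarith
  rcases blk_curve c hc hgap k (by omega) f hf0 m w F hFm hcard hm24 hdeg hloss with h | h
  · left
    rw [← lM_eq_log]
    refine le_trans ?_ h
    rw [← hK]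
    have h1 : 32 * (10000 / c) * (k : ℝ) ^ 2 * Real.log (k + 1) ^ 7 = 320000 * K / c := by
      rw [hK]; ring
    rw [h1, one_div_div]
    rw [div_le_div_iff₀ (by positivity) (by positivity)]
    have : 0 < c * K := by positivity
    nlinarith
  · right
    obtain ⟨u, v, huv, hv, hv0, hu⟩ := h
    refine ⟨u, v, huv, ?_, ?_⟩
    · rw [lM_eq_log] at hv
      have hpos : 0 < (v.map (Int.castRingHom ℂ)).mahlerMeasure :=
        mahlerMeasure_pos_of_ne_zero (map_ne_zero_of_ne hv0)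
      exact Real.eq_one_of_pos_of_log_eq_zero hpos hv
    · rw [← hnn]
      have h1 : (u.natDegree : ℝ) ≤ dx F := by exact_mod_cast hu
      have h2 : Real.log n ≤ B := by nlinarith
      calc (u.natDegree : ℝ) * Real.log n ≤ dx F * B := by
            apply mul_le_mul h1 h2 (by linarith) (Nat.cast_nonneg _)
        _ ≤ B * (dx F + 1) := by nlinarith
        _ ≤ m := hBm
        _ ≤ n := hmn

end Pool.Agent.Lib.MP_7ab245_nt.Blk
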